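import Mathlib

set_option autoImplicit false
set_option linter.unusedSectionVars false

namespace Pool.Agent.Lib.MP_72f2f8_co
open Finset

variable {ι : Type*} [DecidableEq ι] {V : Type*} [AddCommGroup V] [Module (ZMod 2) V]

/-- sum of the vectors indexed by `T` -/
def sg (v : ι → V) (T : Finset ι) : V := ∑ x ∈ T, v x

/-- independence over the two-element field -/
def Ind (v : ι → V) (I : Finset ι) : Prop := ∀ T ⊆ I, sg v T = 0 → T = ∅

/-- span membership over the two-element field -/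
def Sp (v : ι → V) (I : Finset ι) (w : V) : Prop := ∃ T ⊆ I, sg v T = w

def Rk (v : ι → V) (E : Finset ι) (r : ℕ) : Prop :=
  ∃ B ⊆ E, Ind v B ∧ B.card = r ∧ ∀ x ∈ E, Sp v B (v x)

def Colp (v : ι → V) (E : Finset ι) (x : ι) : Prop := ¬ Sp v (E.erase x) (v x)

def Pt (v : ι → V) (E : Finset ι) (w : V) : Prop := ∃ x ∈ E, v x = w

def Simp (v : ι → V) (E : Finset ι) : Prop :=
  (∀ x ∈ E, v x ≠ 0) ∧ ∀ x ∈ E, ∀ y ∈ E, v x = v y → x = y

def Circ (v : ι → V) (C : Finset ι) : Prop :=
  C.Nonempty ∧ sg v C = 0 ∧ ∀ x ∈ C, Ind v (C.erase x)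

theorem a2 (x : V) : x + x = 0 := ZModModule.add_self x

theorem eq_of_add_eq_zero' {x y : V} (h : x + y = 0) : x = y := by
  have := a2 y
  linear_combination (norm := abel1) h - this

theorem add_eq_iff' {x y z : V} : x + y = z ↔ x = z + y := by
  constructor
  · intro h; have := a2 y; linear_combination (norm := abel1) h - this
  · intro h; have := a2 y; linear_combination (norm := abel1) h + this

@[simp] theorem sg_empty (v : ι → V) : sg v ∅ = 0 := by simp [sg]

@[simp] theorem sg_singleton (v : ι → V) (x : ι) : sg v {x} = v x := by simp [sg]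

theorem sg_insert {v : ι → V} {x : ι} {T : Finset ι} (h : x ∉ T) :
    sg v (insert x T) = v x + sg v T := by simp [sg, sum_insert h]

theorem sg_erase {v : ι → V} {x : ι} {T : Finset ι} (h : x ∈ T) :
    sg v (T.erase x) = v x + sg v T := by
  have h1 : sg v T = v x + sg v (T.erase x) := by
    conv_lhs => rw [← insert_erase h]
    exact sg_insert (notMem_erase x T)
  have := a2 (v x)
  linear_combination (norm := abel1) - h1 - this

theorem sg_union {v : ι → V} {S T : Finset ι} (h : Disjoint S T) :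
    sg v (S ∪ T) = sg v S + sg v T := by simp [sg, sum_union h]

theorem sg_symmDiff (v : ι → V) (S T : Finset ι) :
    sg v (symmDiff S T) = sg v S + sg v T := by
  have h1 : sg v S = sg v (S \ T) + sg v (S ∩ T) := by
    rw [← sg_union (disjoint_sdiff_inter S T), sdiff_union_inter]
  have h2 : sg v T = sg v (T \ S) + sg v (S ∩ T) := by
    rw [inter_comm, ← sg_union (disjoint_sdiff_inter T S), sdiff_union_inter]
  have h3 : sg v (symmDiff S T) = sg v (S \ T) + sg v (T \ S) := by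
    rw [← sg_union disjoint_sdiff_sdiff]; rfl
  have := a2 (sg v (S ∩ T))
  linear_combination (norm := abel1) h3 - h1 - h2 - this

theorem sg_sdiff {v : ι → V} {S T : Finset ι} (h : T ⊆ S) :
    sg v (S \ T) = sg v S + sg v T := by
  rw [← sg_symmDiff, symmDiff_of_ge h]

theorem symmDiff_sub {S T I : Finset ι} (hS : S ⊆ I) (hT : T ⊆ I) : symmDiff S T ⊆ I := by
  intro x hx
  rcases Finset.mem_symmDiff.1 hx with h | h
  · exact hS h.1
  · exact hT h.1

theorem Ind.mono {v : ι → V} {I J : Finset ι} (h : Ind v I) (hJ : J ⊆ I) : Ind v J :=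
  fun T hT h0 => h T (hT.trans hJ) h0

theorem ind_empty (v : ι → V) : Ind v ∅ := fun _ hT _ => subset_empty.1 hT

theorem Ind.ne_zero {v : ι → V} {I : Finset ι} (h : Ind v I) {x : ι} (hx : x ∈ I) : v x ≠ 0 := by
  intro h0
  have := h {x} (by simpa using hx) (by simpa using h0)
  simp at this

theorem Ind.sg_ne_zero {v : ι → V} {I : Finset ι} (h : Ind v I) (hI : I.Nonempty) : sg v I ≠ 0 :=
  fun h0 => hI.ne_empty (h I Subset.rfl h0)

theorem Ind.sg_inj {v : ι → V} {I S T : Finset ι} (h : Ind v I) (hS : S ⊆ I) (hT : T ⊆ I)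
    (hST : sg v S = sg v T) : S = T := by
  have := h _ (symmDiff_sub hS hT) (by rw [sg_symmDiff, hST, a2])
  exact symmDiff_eq_bot.1 this

theorem Ind.inj {v : ι → V} {I : Finset ι} (h : Ind v I) {x y : ι} (hx : x ∈ I) (hy : y ∈ I)
    (hxy : v x = v y) : x = y := by
  have := h.sg_inj (S := {x}) (T := {y}) (by simpa using hx) (by simpa using hy) (by simpa using hxy)
  simpa using this

theorem sp_zero (v : ι → V) (I : Finset ι) : Sp v I 0 := ⟨∅, empty_subset _, by simp⟩

theorem sp_mem {v : ι → V} {I : Finset ι} {x : ι} (hx : x ∈ I) : Sp v I (v x) :=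
  ⟨{x}, by simpa using hx, by simp⟩

theorem sp_sg {v : ι → V} {I T : Finset ι} (h : T ⊆ I) : Sp v I (sg v T) := ⟨T, h, rfl⟩

theorem Sp.mono {v : ι → V} {I J : Finset ι} {w : V} (h : Sp v I w) (hJ : I ⊆ J) : Sp v J w := by
  obtain ⟨T, hT, rfl⟩ := h
  exact ⟨T, hT.trans hJ, rfl⟩

theorem Sp.add {v : ι → V} {I : Finset ι} {w w' : V} (h : Sp v I w) (h' : Sp v I w') :
    Sp v I (w + w') := by
  obtain ⟨T, hT, rfl⟩ := h
  obtain ⟨T', hT', rfl⟩ := h'
  exact ⟨_, symmDiff_sub hT hT', sg_symmDiff v T T'⟩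

theorem Sp.of_add {v : ι → V} {I : Finset ι} {w w' : V} (h : Sp v I (w + w')) (h' : Sp v I w') :
    Sp v I w := by
  have := h.add h'
  rwa [add_assoc, a2, add_zero] at this

theorem closed_sg {v : ι → V} {U : V → Prop} (h0 : U 0) (hadd : ∀ a b, U a → U b → U (a + b))
    {T : Finset ι} (hT : ∀ x ∈ T, U (v x)) : U (sg v T) := by
  induction T using Finset.induction_on with
  | empty => simpa using h0
  | insert a s ha ih =>
    rw [sg_insert ha]
    exact hadd _ _ (hT a (mem_insert_self a s)) (ih fun x hx => hT x (mem_insert_of_mem hx))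

theorem Sp.trans {v : ι → V} {I J : Finset ι} {w : V} (h : Sp v I w)
    (hJ : ∀ x ∈ I, Sp v J (v x)) : Sp v J w := by
  obtain ⟨T, hT, rfl⟩ := h
  exact closed_sg (sp_zero v J) (fun _ _ => Sp.add) fun x hx => hJ x (hT hx)

theorem sp_insert {v : ι → V} {I : Finset ι} {y : ι} {w : V} :
    Sp v (insert y I) w ↔ Sp v I w ∨ Sp v I (w + v y) := by
  constructor
  · rintro ⟨T, hT, rfl⟩
    by_cases hy : y ∈ T
    · right
      refine ⟨T.erase y, ?_, by rw [sg_erase hy, add_comm]⟩
      intro x hx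
      rcases mem_insert.1 (hT (mem_of_mem_erase hx)) with h | h
      · exact absurd h (ne_of_mem_erase hx)
      · exact h
    · left
      exact ⟨T, (subset_insert_iff_of_notMem hy).1 hT, rfl⟩
  · rintro (h | h)
    · exact h.mono (subset_insert y I)
    · exact (h.mono (subset_insert y I)).of_add (sp_mem (mem_insert_self y I))

theorem ind_insert {v : ι → V} {I : Finset ι} {y : ι} (hy : y ∉ I) :
    Ind v (insert y I) ↔ Ind v I ∧ ¬ Sp v I (v y) := by
  constructor
  · intro h
    refine ⟨h.mono (subset_insert y I), ?_⟩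
    rintro ⟨T, hT, hTy⟩
    have hyT : y ∉ T := fun h' => hy (hT h')
    have := h (insert y T) (insert_subset_insert y hT) (by rw [sg_insert hyT, hTy, a2])
    simp at this
  · rintro ⟨h, hs⟩ T hT h0
    by_cases hyT : y ∈ T
    · exfalso
      apply hs
      refine ⟨T.erase y, ?_, by rw [sg_erase hyT, h0, add_zero]⟩
      intro x hx
      rcases mem_insert.1 (hT (mem_of_mem_erase hx)) with h | h
      · exact absurd h (ne_of_mem_erase hx)
      · exact h
    · exact h T ((subset_insert_iff_of_notMem hyT).1 hT) h0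

theorem ind_insert_of {v : ι → V} {I : Finset ι} {y : ι} (h : Ind v I) (hs : ¬ Sp v I (v y)) :
    Ind v (insert y I) ∧ y ∉ I := by
  have hy : y ∉ I := fun h' => hs (sp_mem h')
  exact ⟨(ind_insert hy).2 ⟨h, hs⟩, hy⟩

theorem Ind.not_sp_erase {v : ι → V} {I : Finset ι} (h : Ind v I) {x : ι} (hx : x ∈ I) :
    ¬ Sp v (I.erase x) (v x) := by
  rw [← insert_erase hx] at h
  exact ((ind_insert (notMem_erase x I)).1 h).2

theorem card_le_of_sp {v : ι → V} {I J : Finset ι} (hJ : Ind v J)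
    (h : ∀ x ∈ J, Sp v I (v x)) : J.card ≤ I.card := by
  classical
  have h1 : (J.powerset.image (sg v)).card = 2 ^ J.card := by
    rw [card_image_of_injOn, card_powerset]
    intro S hS T hT hST
    exact hJ.sg_inj (mem_powerset.1 hS) (mem_powerset.1 hT) hST
  have h2 : J.powerset.image (sg v) ⊆ I.powerset.image (sg v) := by
    intro w hw
    obtain ⟨T, hT, rfl⟩ := mem_image.1 hw
    obtain ⟨T', hT', h'⟩ := (sp_sg (mem_powerset.1 hT)).trans h
    exact mem_image.2 ⟨T', mem_powerset.2 hT', h'⟩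
  have h3 := (card_le_card h2).trans card_image_le
  rw [h1, card_powerset] at h3
  exact (Nat.pow_le_pow_iff_right (by norm_num)).1 h3

theorem Rk.card_le {v : ι → V} {E : Finset ι} {r : ℕ} (h : Rk v E r) {I : Finset ι}
    (hI : I ⊆ E) (hi : Ind v I) : I.card ≤ r := by
  obtain ⟨B, -, -, rfl, hB⟩ := h
  exact card_le_of_sp hi fun x hx => hB x (hI hx)

theorem Rk.sp {v : ι → V} {E : Finset ι} {r : ℕ} (h : Rk v E r) {I : Finset ι}
    (hI : I ⊆ E) (hi : Ind v I) (hc : I.card = r) {x : ι} (hx : x ∈ E) : Sp v I (v x) := by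
  by_contra hs
  obtain ⟨h1, h2⟩ := ind_insert_of hi hs
  have := h.card_le (insert_subset hx hI) h1
  rw [card_insert_of_notMem h2] at this
  omega

theorem Rk.exists_not_sp {v : ι → V} {E : Finset ι} {r : ℕ} (h : Rk v E r) {I : Finset ι}
    (hc : I.card < r) : ∃ y ∈ E, ¬ Sp v I (v y) := by
  by_contra hs
  push Not at hs
  obtain ⟨B, hBE, hB, rfl, -⟩ := h
  have := card_le_of_sp hB fun x hx => hs x (hBE hx)
  omega

theorem Rk.extend {v : ι → V} {E : Finset ι} {r : ℕ} (h : Rk v E r) {I : Finset ι}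
    (hI : I ⊆ E) (hi : Ind v I) : ∃ B, I ⊆ B ∧ B ⊆ E ∧ Ind v B ∧ B.card = r := by
  have hle := h.card_le hI hi
  obtain ⟨d, hd⟩ : ∃ d, I.card + d = r := ⟨r - I.card, by omega⟩
  induction d generalizing I with
  | zero => exact ⟨I, Subset.rfl, hI, hi, by omega⟩
  | succ d ih =>
    obtain ⟨y, hy, hs⟩ := h.exists_not_sp (I := I) (by omega)
    obtain ⟨h1, h2⟩ := ind_insert_of hi hs
    obtain ⟨B, hB1, hB⟩ := ih (insert_subset hy hI) h1
      (by rw [card_insert_of_notMem h2]; omega) (by rw [card_insert_of_notMem h2]; omega)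
    exact ⟨B, (subset_insert y I).trans hB1, hB⟩

theorem Rk.of_sub {v : ι → V} {E E' : Finset ι} {r : ℕ} (h : Rk v E r) (hE : E' ⊆ E)
    (hs : ∀ x ∈ E, Sp v E' (v x)) : Rk v E' r := by
  classical
  obtain ⟨I, hI, hmax⟩ := exists_max_image (E'.powerset.filter (Ind v)) card
    ⟨∅, by simp [ind_empty]⟩
  rw [mem_filter, mem_powerset] at hI
  have hsp : ∀ x ∈ E', Sp v I (v x) := by
    intro x hx
    by_contra hn
    obtain ⟨h1, h2⟩ := ind_insert_of hI.2 hn
    have := hmax (insert x I) (by rw [mem_filter, mem_powerset]; exact ⟨insert_subset hx hI.1, h1⟩)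
    rw [card_insert_of_notMem h2] at this
    omega
  refine ⟨I, hI.1, hI.2, ?_, hsp⟩
  apply le_antisymm (h.card_le (hI.1.trans hE) hI.2)
  obtain ⟨B, hBE, hB, rfl, -⟩ := h
  exact card_le_of_sp hB fun x hx => (hs x (hBE hx)).trans hsp

theorem exists_rk (v : ι → V) (E : Finset ι) : ∃ r, Rk v E r := by
  classical
  obtain ⟨I, hI, hmax⟩ := exists_max_image (E.powerset.filter (Ind v)) card
    ⟨∅, by simp [ind_empty]⟩
  rw [mem_filter, mem_powerset] at hI
  refine ⟨I.card, I, hI.1, hI.2, rfl, ?_⟩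
  intro x hx
  by_contra hn
  obtain ⟨h1, h2⟩ := ind_insert_of hI.2 hn
  have := hmax (insert x I) (by rw [mem_filter, mem_powerset]; exact ⟨insert_subset hx hI.1, h1⟩)
  rw [card_insert_of_notMem h2] at this
  omega

theorem Rk.erase {v : ι → V} {E : Finset ι} {r : ℕ} (h : Rk v E r) {e : ι}
    (he : ¬ Colp v E e) : Rk v (E.erase e) r := by
  refine h.of_sub (erase_subset e E) fun x hx => ?_
  by_cases hxe : x = e
  · subst hxe; exact not_not.1 he
  · exact sp_mem (mem_erase.2 ⟨hxe, hx⟩)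

theorem not_colp_iff {v : ι → V} {E : Finset ι} {x : ι} (hx : x ∈ E) :
    ¬ Colp v E x ↔ ∃ T ⊆ E, x ∈ T ∧ sg v T = 0 := by
  unfold Colp
  rw [not_not]
  constructor
  · rintro ⟨T, hT, h⟩
    have hxT : x ∉ T := fun h' => (notMem_erase x E) (hT h')
    refine ⟨insert x T, insert_subset hx (hT.trans (erase_subset x E)), mem_insert_self x T, ?_⟩
    rw [sg_insert hxT, h, a2]
  · rintro ⟨T, hT, hxT, h⟩
    exact ⟨T.erase x, erase_subset_erase x hT, by rw [sg_erase hxT, h, add_zero]⟩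

theorem Colp.mono {v : ι → V} {E E' : Finset ι} {x : ι} (h : Colp v E x) (hE : E' ⊆ E) :
    Colp v E' x := fun h' => h (h'.mono (erase_subset_erase x hE))

theorem Colp.not_mem {v : ι → V} {E : Finset ι} {x : ι} (h : Colp v E x) {T : Finset ι}
    (hT : T ⊆ E) (h0 : sg v T = 0) : x ∉ T :=
  fun hx => (not_colp_iff (hT hx)).2 ⟨T, hT, hx, h0⟩ h

theorem Colp.mem_base {v : ι → V} {E : Finset ι} {r : ℕ} (hr : Rk v E r) {x : ι} (hx : x ∈ E)
    (h : Colp v E x) {B : Finset ι} (hB : B ⊆ E) (hi : Ind v B) (hc : B.card = r) : x ∈ B := by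
  by_contra hn
  exact h ((hr.sp hB hi hc hx).mono (subset_erase.2 ⟨hB, hn⟩))

theorem circ_insert {v : ι → V} {I : Finset ι} {x : ι} (hx : x ∉ I) (hi : Ind v I)
    (hs : sg v I = v x) : Circ v (insert x I) := by
  have h0 : sg v (insert x I) = 0 := by rw [sg_insert hx, hs, a2]
  refine ⟨insert_nonempty x I, h0, ?_⟩
  intro y hy T hT hT0
  have hT' : T ⊆ insert x I := hT.trans (erase_subset _ _)
  by_cases hxT : x ∈ T
  · exfalso
    have h1 : insert x I \ T ⊆ I := by
      intro z hz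
      rcases mem_insert.1 (mem_sdiff.1 hz).1 with h | h
      · subst h; exact absurd hxT (mem_sdiff.1 hz).2
      · exact h
    have h2 := hi _ h1 (by rw [sg_sdiff hT', h0, hT0, add_zero])
    have : y ∈ insert x I \ T := mem_sdiff.2 ⟨hy, fun h => notMem_erase y _ (hT h)⟩
    rw [h2] at this
    simp at this
  · exact hi T ((subset_insert_iff_of_notMem hxT).1 hT') hT0

theorem Circ.sg_erase {v : ι → V} {C : Finset ι} (h : Circ v C) {x : ι} (hx : x ∈ C) :
    sg v (C.erase x) = v x := by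
  rw [MP_72f2f8_co.sg_erase hx, h.2.1, add_zero]

theorem Circ.eq_of_sub {v : ι → V} {C T : Finset ι} (h : Circ v C) (hT : T ⊆ C) (h0 : sg v T = 0)
    (hne : T.Nonempty) : T = C := by
  by_contra hn
  obtain ⟨x, hx, hxT⟩ := exists_of_ssubset (ssubset_of_subset_of_ne hT hn)
  exact hne.ne_empty (h.2.2 x hx T (subset_erase.2 ⟨hT, hxT⟩) h0)

theorem Circ.sp_erase {v : ι → V} {C : Finset ι} (h : Circ v C) {x : ι} (hx : x ∈ C) {w : V} :
    Sp v (C.erase x) w ↔ Sp v C w := by
  refine ⟨fun h' => h'.mono (erase_subset x C), fun h' => h'.trans fun y hy => ?_⟩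
  by_cases hyx : y = x
  · subst hyx; exact ⟨_, Subset.rfl, h.sg_erase hx⟩
  · exact sp_mem (mem_erase.2 ⟨hyx, hy⟩)

theorem Circ.three_le {v : ι → V} {E C : Finset ι} (hs : Simp v E) (hC : C ⊆ E) (h : Circ v C) :
    3 ≤ C.card := by
  by_contra hn
  obtain ⟨x, hx⟩ := h.1
  have : Nonempty ι := ⟨x⟩
  have h1 := h.sg_erase hx
  have hc : (C.erase x).card ≤ 1 := by rw [card_erase_of_mem hx]; omega
  rcases card_le_one_iff_subset_singleton.1 hc with ⟨y, hy⟩
  rcases subset_singleton_iff.1 hy with h2 | h2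
  · rw [h2, sg_empty] at h1
    exact hs.1 x (hC hx) h1.symm
  · rw [h2, sg_singleton] at h1
    have hyC : y ∈ C.erase x := by rw [h2]; simp
    exact (ne_of_mem_erase hyC) (hs.2 y (hC (mem_of_mem_erase hyC)) x (hC hx) h1)

theorem Circ.card_le {v : ι → V} {E C : Finset ι} {r : ℕ} (hr : Rk v E r) (hC : C ⊆ E)
    (h : Circ v C) : C.card ≤ r + 1 := by
  obtain ⟨x, hx⟩ := h.1
  have := hr.card_le ((erase_subset x C).trans hC) (h.2.2 x hx)
  rw [card_erase_of_mem hx] at this
  omega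

theorem Simp.mono {v : ι → V} {E E' : Finset ι} (h : Simp v E) (hE : E' ⊆ E) : Simp v E' :=
  ⟨fun x hx => h.1 x (hE hx), fun x hx y hy => h.2 x (hE hx) y (hE hy)⟩

end Pool.Agent.Lib.MP_72f2f8_co
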