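import Mathlib.Data.Nat.Notation

set_option autoImplicit false

namespace Pool.Agent.Lib.MP_72f2f8_co

def bit (m a : ℕ) : Bool := Nat.beq (Nat.land (Nat.shiftRight m a) 1) 1

noncomputable def force (m : ℕ) (f : ℕ → ℕ) : ℕ := Nat.rec (f 0) (fun n _ => f (Nat.succ n)) m

noncomputable def extl (a : ℕ) (l : List ℕ) : List ℕ :=
  List.rec [] (fun b _ ih => b :: (Nat.xor b a) :: ih) l

noncomputable def msk (l : List ℕ) : ℕ :=
  List.rec 0 (fun b _ ih => Nat.lor (Nat.shiftLeft 1 b) ih) l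

noncomputable def go (G : ℕ → ℕ → ℕ) (d : ℕ) : List ℕ → ℕ → List ℕ → ℕ :=
  Nat.rec (fun _ x _ => G 0 x)
    (fun d' ih l x sp => force (msk sp) fun m =>
      List.rec (G (Nat.succ d') x)
        (fun a l' ih' => Nat.add ih'
          (cond (bit m a) 0 (force (Nat.xor x a) fun y => ih l' y (extl a sp)))) l) d

def Wc : ℕ → ℕ
  | 2 => 20 * 2 ^ 32 + 19 * 2 ^ 64
  | 3 => 15 * 2 ^ 32 + 11 * 2 ^ 64
  | 4 => 12 * 2 ^ 32 + 12 * 2 ^ 64
  | _ => 0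

noncomputable def GG (ρ Sm : ℕ) (d x : ℕ) : ℕ :=
  Nat.add (cond (Nat.beq d 0) 1 0) (cond (bit Sm x) (Wc (Nat.sub ρ d)) 0)

noncomputable def orl (l : List ℕ) : ℕ := List.rec 0 (fun b _ ih => Nat.lor b ih) l

noncomputable def cnt (c : ℕ) (l : List ℕ) : ℕ :=
  List.rec 0 (fun p _ ih => cond (Nat.beq (Nat.land c p) 0) (Nat.succ ih) ih) l

noncomputable def chk (P : ℕ → ℕ → ℕ → ℕ → Bool) (ρ d : ℕ) (Jl Rl : List ℕ) (x0 : ℕ)
    (sp0 : List ℕ) (O : List ℕ) : Bool :=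
  Nat.ble 1 <| force (msk (Jl ++ (Rl ++ O))) fun Sm =>
    force (go (GG ρ Sm) d (Rl ++ O) x0 sp0) fun N =>
      force (cnt (orl O) Rl) fun u =>
        cond (P u (N % 2 ^ 32) (N / 2 ^ 32 % 2 ^ 32) (N / 2 ^ 64)) 1 0

noncomputable def allsub (p : List ℕ → Bool) (l : List ℕ) : List ℕ → Bool :=
  List.rec p (fun a _ ih acc => ih acc && ih (a :: acc)) l

def P4 (a1 b1 a2 b2 : ℕ) (u b q1 q2 : ℕ) : Bool :=
  Nat.ble (a1 + b1 * u + q1) (24 * 2 ^ u * b) && Nat.ble (a2 + b2 * u + q2) (20 * 2 ^ u * b)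

def P3 (ρ : ℕ) (u b q1 _q2 : ℕ) : Bool :=
  Nat.ble (q1 + 60) (60 * b) && (Nat.ble 1 u || Nat.ble ((ρ + 1) * q1) (120 * b))

def ol4 : List ℕ := [3, 5, 6, 7, 9, 10, 11, 12, 13, 14, 15]

def ol8 : List ℕ := [7, 9, 10, 11, 12, 13, 14, 15]

theorem allsub_cons (p : List ℕ → Bool) (a : ℕ) (l acc : List ℕ) :
    allsub p (a :: l) acc = (allsub p l acc && allsub p l (a :: acc)) := rfl

theorem allsub_ol4 (p : List ℕ → Bool) (h0 : allsub p ol8 [] = true) (h1 : allsub p ol8 [6] = true)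
    (h2 : allsub p ol8 [5] = true) (h3 : allsub p ol8 [6, 5] = true)
    (h4 : allsub p ol8 [3] = true) (h5 : allsub p ol8 [6, 3] = true)
    (h6 : allsub p ol8 [5, 3] = true) (h7 : allsub p ol8 [6, 5, 3] = true) :
    allsub p ol4 [] = true := by
  show allsub p (3 :: 5 :: 6 :: ol8) [] = true
  simp only [allsub_cons, h0, h1, h2, h3, h4, h5, h6, h7, Bool.and_self]

end Pool.Agent.Lib.MP_72f2f8_co
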