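import Pool.Agent.Lib.MP_72f2f8_co.Check

set_option autoImplicit false

namespace Pool.Agent.Lib.MP_72f2f8_co

theorem c41_0 : allsub (chk (P4 48 0 32 0) 4 3 [1] [2, 4, 8] 1 [0, 1]) ol8 [] = true := by
  decide +kernel

theorem c41_1 : allsub (chk (P4 48 0 32 0) 4 3 [1] [2, 4, 8] 1 [0, 1]) ol8 [6] = true := by
  decide +kernel

theorem c41_2 : allsub (chk (P4 48 0 32 0) 4 3 [1] [2, 4, 8] 1 [0, 1]) ol8 [5] = true := by
  decide +kernel

theorem c41_3 : allsub (chk (P4 48 0 32 0) 4 3 [1] [2, 4, 8] 1 [0, 1]) ol8 [6, 5] = true := by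
  decide +kernel

theorem c41_4 : allsub (chk (P4 48 0 32 0) 4 3 [1] [2, 4, 8] 1 [0, 1]) ol8 [3] = true := by
  decide +kernel

theorem c41_5 : allsub (chk (P4 48 0 32 0) 4 3 [1] [2, 4, 8] 1 [0, 1]) ol8 [6, 3] = true := by
  decide +kernel

theorem c41_6 : allsub (chk (P4 48 0 32 0) 4 3 [1] [2, 4, 8] 1 [0, 1]) ol8 [5, 3] = true := by
  decide +kernel

theorem c41_7 : allsub (chk (P4 48 0 32 0) 4 3 [1] [2, 4, 8] 1 [0, 1]) ol8 [6, 5, 3] = true := by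
  decide +kernel

end Pool.Agent.Lib.MP_72f2f8_co
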