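import Pool.Agent.Lib.MP_72f2f8_co.CheckA
import Pool.Agent.Lib.MP_72f2f8_co.CheckB
import Pool.Agent.Lib.MP_72f2f8_co.CheckC

set_option autoImplicit false

namespace Pool.Agent.Lib.MP_72f2f8_co

theorem c40 : allsub (chk (P4 60 48 40 32) 4 4 [] [1, 2, 4, 8] 0 [0]) ol4 [] = true :=
  allsub_ol4 _ c40_0 c40_1 c40_2 c40_3 c40_4 c40_5 c40_6 c40_7

theorem c41 : allsub (chk (P4 48 0 32 0) 4 3 [1] [2, 4, 8] 1 [0, 1]) ol4 [] = true :=
  allsub_ol4 _ c41_0 c41_1 c41_2 c41_3 c41_4 c41_5 c41_6 c41_7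

theorem c42 : allsub (chk (P4 0 0 0 0) 4 2 [1, 2] [4, 8] 3 [0, 1, 2, 3]) ol4 [] = true := by
  decide +kernel

theorem c43 :
    allsub (chk (P4 0 0 0 0) 4 1 [1, 2, 4] [8] 7 [0, 1, 2, 3, 4, 5, 6, 7]) ol4 [] = true := by
  decide +kernel

theorem c44 : allsub (chk (P4 0 0 0 0) 4 0 [1, 2, 4, 8] [] 15
    [0, 1, 2, 3, 4, 5, 6, 7, 8, 9, 10, 11, 12, 13, 14, 15]) ol4 [] = true := by
  decide +kernel

theorem c3 : allsub (chk (P3 3) 3 3 [] [1, 2, 4] 0 [0]) [3, 5, 6, 7] [] = true := by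
  decide +kernel

theorem c2 : allsub (chk (P3 2) 2 2 [] [1, 2] 0 [0]) [3] [] = true := by
  decide +kernel

theorem c1 : allsub (chk (P3 1) 1 1 [] [1] 0 [0]) [] [] = true := by
  decide +kernel

theorem c0 : allsub (chk (P3 0) 0 0 [] [] 0 [0]) [] [] = true := by
  decide +kernel

end Pool.Agent.Lib.MP_72f2f8_co
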