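import Pool.Agent.Lib.MP_72f2f8_co.StepA

set_option autoImplicit false
set_option linter.unusedSectionVars false

namespace Pool.Agent.Lib.MP_72f2f8_co
open Finset
open scoped Classical

variable {ι : Type*} [DecidableEq ι] {V : Type*} [AddCommGroup V] [Module (ZMod 2) V]

noncomputable def CC (v : ι → V) (E : Finset ι) : Finset (Finset ι) := E.powerset.filter (Circ v)

theorem mem_CC {v : ι → V} {E C : Finset ι} : C ∈ CC v E ↔ C ⊆ E ∧ Circ v C := by
  unfold CC; rw [mem_filter, mem_powerset]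

theorem sum_le_of_inj {α β : Type*} {s : Finset α} {t : Finset β} (f : α → β) {F : α → ℚ}
    {G : β → ℚ} (hmap : ∀ a ∈ s, f a ∈ t) (hinj : ∀ a ∈ s, ∀ b ∈ s, f a = f b → a = b)
    (hF : ∀ a ∈ s, F a ≤ G (f a)) (hG : ∀ b ∈ t, 0 ≤ G b) : ∑ a ∈ s, F a ≤ ∑ b ∈ t, G b := by
  calc ∑ a ∈ s, F a ≤ ∑ a ∈ s, G (f a) := sum_le_sum hF
    _ = ∑ b ∈ s.image f, G b := (sum_image fun a ha b hb => hinj a ha b hb).symm
    _ ≤ ∑ b ∈ t, G b := sum_le_sum_of_subset_of_nonneg
        (image_subset_iff.2 hmap) fun b hb _ => hG b hb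

theorem Qw_circ {v : ι → V} {E : Finset ι} (hs : Simp v E) (ω : ℕ → ℚ) :
    Qw v E ∅ ω = ∑ C ∈ CC v E, C.card * ω (C.card - 1) := by
  have h1 : ∑ C ∈ CC v E, C.card * ω (C.card - 1) =
      ∑ p ∈ (CC v E).sigma (fun C => C), ω (p.1.card - 1) := by
    rw [sum_sigma]; simp
  have h2 : Qw v E ∅ ω = ∑ I ∈ E.powerset.filter
      (fun I => Ind v I ∧ 2 ≤ I.card ∧ Pt v E (sg v I)), ω I.card := by
    rw [sum_filter]
    unfold Qw SS fq
    refine sum_congr rfl fun I _ => ?_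
    by_cases h1 : Ind v I <;> simp [h1]
  rw [h1, h2]
  symm
  refine sum_bij (fun p _ => p.1.erase p.2) ?_ ?_ ?_ ?_
  · rintro ⟨C, x⟩ hp
    rw [mem_sigma, mem_CC] at hp
    obtain ⟨⟨h3, h4⟩, h5⟩ := hp
    rw [mem_filter, mem_powerset]
    have := h4.three_le hs h3
    refine ⟨(erase_subset _ _).trans h3, h4.2.2 x h5, ?_, x, h3 h5, (h4.sg_erase h5).symm⟩
    rw [card_erase_of_mem h5]
    dsimp only at *
    omega
  · rintro ⟨C, x⟩ hp ⟨C', x'⟩ hp' h
    rw [mem_sigma, mem_CC] at hp hp'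
    dsimp only at *
    have hx : x = x' := hs.2 x (hp.1.1 hp.2) x' (hp'.1.1 hp'.2)
      (by rw [← hp.1.2.sg_erase hp.2, ← hp'.1.2.sg_erase hp'.2, h])
    subst hx
    have : C = C' := by rw [← insert_erase hp.2, h, insert_erase hp'.2]
    subst this
    rfl
  · intro I hI
    rw [mem_filter, mem_powerset] at hI
    obtain ⟨h3, h4, h5, x, hx, hxI⟩ := hI
    have hxn : x ∉ I := by
      intro h
      have := h4.sg_inj (S := {x}) (T := I) (by simpa using h) Subset.rfl (by simpa using hxI)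
      rw [← this] at h5
      simp at h5
    refine ⟨⟨insert x I, x⟩, ?_, erase_insert hxn⟩
    rw [mem_sigma, mem_CC]
    exact ⟨⟨insert_subset hx h3, circ_insert hxn h4 hxI.symm⟩, mem_insert_self x I⟩
  · rintro ⟨C, x⟩ hp
    rw [mem_sigma] at hp
    rw [card_erase_of_mem hp.2]

theorem Qw_one {v : ι → V} {E : Finset ι} (hs : Simp v E) :
    Qw v E ∅ (om 1) = (CC v E).card := by
  rw [Qw_circ hs, card_eq_sum_ones]
  push_cast
  refine sum_congr rfl fun C hC => ?_
  have := (mem_CC.1 hC).2.three_le hs (mem_CC.1 hC).1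
  unfold om
  rw [Nat.cast_sub (by omega)]
  have : (C.card : ℚ) ≠ 0 := by positivity
  push_cast
  rw [sub_add_cancel]
  field_simp

theorem CC_erase (v : ι → V) (E : Finset ι) (e : ι) :
    CC v (E.erase e) = (CC v E).filter fun C => e ∉ C := by
  ext C
  rw [mem_filter, mem_CC, mem_CC, subset_erase]
  tauto

noncomputable def gd (v : ι → V) (E C : Finset ι) (e : ι) : ℕ :=
  (C.filter fun x => ¬ Pt v E (v e + v x)).card

noncomputable def dg (v : ι → V) (E C : Finset ι) (e : ι) : ℕ :=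
  (C.filter fun x => Pt v E (v e + v x)).card

theorem dg_add_gd (v : ι → V) (E C : Finset ι) (e : ι) : dg v E C e + gd v E C e = C.card :=
  card_filter_add_card_filter_not _

theorem ctr_Q {v : ι → V} {E : Finset ι} (hs : Simp v E) {e : ι} (he : e ∈ E) {ω : ℕ → ℚ}
    (hω : ∀ j, 0 ≤ ω j) :
    ∑ C ∈ CC v E, ((if e ∈ C ∧ 4 ≤ C.card then ((C.card : ℚ) - 1) * ω (C.card - 2) else 0) +
      (if ¬ Sp v C (v e) then gd v E C e * ω (C.card - 1) else 0)) ≤
      Qw (ctr v (v e)) (E.erase e) ∅ ω := by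
  have h0 := hs.1 e he
  set A : Finset ι → ι → Prop := fun C x => e ∈ C ∧ 4 ≤ C.card ∧ x ≠ e with hA
  set B : Finset ι → ι → Prop := fun C x => ¬ Sp v C (v e) ∧ ¬ Pt v E (v e + v x) with hB
  have h1 : ∀ C ∈ CC v E,
      ((if e ∈ C ∧ 4 ≤ C.card then ((C.card : ℚ) - 1) * ω (C.card - 2) else 0) +
      (if ¬ Sp v C (v e) then gd v E C e * ω (C.card - 1) else 0)) =
      ∑ x ∈ C.filter (fun x => A C x ∨ B C x), ω ((C.erase x).erase e).card := by
    intro C _
    by_cases heC : e ∈ C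
    · have hsp : Sp v C (v e) := sp_mem heC
      rw [if_neg (not_not.2 hsp), add_zero]
      by_cases h4 : 4 ≤ C.card
      · have : C.filter (fun x => A C x ∨ B C x) = C.erase e := by
          ext x; simp [hA, hB, heC, h4, hsp, and_comm]
        rw [if_pos ⟨heC, h4⟩, this, sum_congr rfl (g := fun _ => ω (C.card - 2)), sum_const,
          card_erase_of_mem heC, nsmul_eq_mul, Nat.cast_sub (by omega)]
        · simp
        · intro x hx
          rw [erase_right_comm, card_erase_of_mem hx, card_erase_of_mem heC]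
          rfl
      · have : C.filter (fun x => A C x ∨ B C x) = ∅ := by
          ext x; simp [hA, hB, h4, hsp]
        rw [if_neg (fun h => h4 h.2), this, sum_empty]
    · rw [if_neg (fun h => heC h.1), zero_add]
      by_cases hsp : Sp v C (v e)
      · have : C.filter (fun x => A C x ∨ B C x) = ∅ := by
          ext x; simp [hA, hB, heC, hsp]
        rw [if_neg (not_not.2 hsp), this, sum_empty]
      · have : C.filter (fun x => A C x ∨ B C x) = C.filter fun x => ¬ Pt v E (v e + v x) := by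
          ext x; simp [hA, hB, heC, hsp]
        rw [if_pos hsp, this, sum_congr rfl (g := fun _ => ω (C.card - 1)), sum_const,
          nsmul_eq_mul]
        · rfl
        · intro x hx
          rw [erase_eq_of_notMem (fun h => heC (mem_of_mem_erase h)),
            card_erase_of_mem (mem_filter.1 hx).1]
  rw [sum_congr rfl h1, sum_sigma']
  have hsgA : ∀ C x, Circ v C → x ∈ C → A C x → sg v ((C.erase x).erase e) = v e + v x := by
    intro C x hC hx h
    rw [sg_erase (mem_erase.2 ⟨h.2.2.symm, h.1⟩), hC.sg_erase hx]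
  have hB' : ∀ C x, B C x → (C.erase x).erase e = C.erase x := fun C x h =>
    erase_eq_of_notMem fun h' => h.1 (sp_mem (mem_of_mem_erase h'))
  unfold Qw SS
  refine sum_le_of_inj (fun p => (p.1.erase p.2).erase e) ?_ ?_ ?_ ?_
  · rintro ⟨C, x⟩ hp
    rw [mem_sigma, mem_CC] at hp
    exact mem_powerset.2 (erase_subset_erase e ((erase_subset _ _).trans hp.1.1))
  · rintro ⟨C, x⟩ hp ⟨C', x'⟩ hp' h
    rw [mem_sigma, mem_CC, mem_filter] at hp hp'
    dsimp only at *
    obtain ⟨⟨a1, a2'⟩, a3, a4⟩ := hp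
    obtain ⟨⟨b1, b2⟩, b3, b4⟩ := hp'
    rcases a4 with a4 | a4 <;> rcases b4 with b4 | b4
    · have hx : x = x' := hs.2 x (a1 a3) x' (b1 b3) (by
        have := hsgA C x a2' a3 a4
        rw [h, hsgA C' x' b2 b3 b4] at this
        exact (add_left_cancel this).symm)
      subst hx
      have : C = C' := by
        rw [← insert_erase a3, ← insert_erase (mem_erase.2 ⟨a4.2.2.symm, a4.1⟩), h,
          insert_erase (mem_erase.2 ⟨b4.2.2.symm, b4.1⟩), insert_erase b3]
      subst this; rfl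
    · exfalso
      have := hsgA C x a2' a3 a4
      rw [h, hB' C' x' b4, b2.sg_erase b3] at this
      exact b4.2 ⟨x, a1 a3, by rw [this, ← add_assoc, a2, zero_add]⟩
    · exfalso
      have := hsgA C' x' b2 b3 b4
      rw [← h, hB' C x a4, a2'.sg_erase a3] at this
      exact a4.2 ⟨x', b1 b3, by rw [this, ← add_assoc, a2, zero_add]⟩
    · rw [hB' C x a4, hB' C' x' b4] at h
      have hx : x = x' := hs.2 x (a1 a3) x' (b1 b3)
        (by rw [← a2'.sg_erase a3, ← b2.sg_erase b3, h])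
      subst hx
      have : C = C' := by rw [← insert_erase a3, h, insert_erase b3]
      subst this; rfl
  · rintro ⟨C, x⟩ hp
    rw [mem_sigma, mem_CC, mem_filter] at hp
    dsimp only at *
    obtain ⟨⟨a1, a2'⟩, a3, a4⟩ := hp
    have h3 := a2'.three_le hs a1
    have key : Ind (ctr v (v e)) ((C.erase x).erase e) ∧ 2 ≤ ((C.erase x).erase e).card ∧
        Pt (ctr v (v e)) (E.erase e) (sg (ctr v (v e)) ((C.erase x).erase e)) := by
      rw [ind_ctr h0 (notMem_erase _ _), sg_ctr]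
      rcases a4 with a4 | a4
      · have he' : e ∈ C.erase x := mem_erase.2 ⟨a4.2.2.symm, a4.1⟩
        refine ⟨by rw [insert_erase he']; exact a2'.2.2 x a3, ?_, x,
          mem_erase.2 ⟨a4.2.2, a1 a3⟩, mk_eq_mk'.2 (Or.inr ?_)⟩
        · rw [card_erase_of_mem he', card_erase_of_mem a3]; have := a4.2.1; omega
        · rw [hsgA C x a2' a3 a4, add_comm (v e), add_assoc, a2, add_zero]
      · rw [hB' C x a4]
        refine ⟨(ind_insert_of (a2'.2.2 x a3) fun h => a4.1 (h.mono (erase_subset _ _))).1, ?_, x,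
          mem_erase.2 ⟨fun h => a4.1 (h ▸ sp_mem a3), a1 a3⟩, mk_eq_mk'.2 (Or.inl ?_)⟩
        · rw [card_erase_of_mem a3]; omega
        · rw [a2'.sg_erase a3]
    rw [if_pos ⟨empty_subset _, key.1⟩, fq, if_pos key.2]
  · intro I _
    split_ifs
    · exact fq_nonneg _ _ hω I
    · exact le_rfl

theorem ctr_n2 {v : ι → V} {E : Finset ι} (hs : Simp v E) {e : ι} (he : e ∈ E) :
    ∑ C ∈ CC v E, (if e ∈ C ∧ C.card = 3 then (2 : ℚ) else 0) ≤
      n2 (ctr v (v e)) (E.erase e) := by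
  have h1 : ∀ C ∈ CC v E, (if e ∈ C ∧ C.card = 3 then (2 : ℚ) else 0) =
      ∑ x ∈ C.filter (fun x => e ∈ C ∧ C.card = 3 ∧ x ≠ e), 1 := by
    intro C _
    split_ifs with h
    · have : C.filter (fun x => e ∈ C ∧ C.card = 3 ∧ x ≠ e) = C.erase e := by
        ext x; simp [h.1, h.2, and_comm]
      rw [this, sum_const, card_erase_of_mem h.1, h.2]; norm_num
    · rw [filter_eq_empty_iff.2 (fun x _ h' => h ⟨h'.1, h'.2.1⟩), sum_empty]
  have h2 : ∀ C x, C ⊆ E → Circ v C → x ∈ C → e ∈ C → C.card = 3 → x ≠ e →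
      ∃ y ∈ E, y ≠ e ∧ y ≠ x ∧ v y = v e + v x ∧ C = insert e (insert x {y}) := by
    intro C x _ hC hx heC h3 hxe
    have he' : e ∈ C.erase x := mem_erase.2 ⟨hxe.symm, heC⟩
    obtain ⟨y, hy⟩ := card_eq_one.1 (show ((C.erase x).erase e).card = 1 by
      rw [card_erase_of_mem he', card_erase_of_mem hx, h3])
    have hy' : y ∈ (C.erase x).erase e := by rw [hy]; simp
    refine ⟨y, ‹C ⊆ E› (mem_of_mem_erase (mem_of_mem_erase hy')), ne_of_mem_erase hy',
      ne_of_mem_erase (mem_of_mem_erase hy'), ?_, ?_⟩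
    · rw [← sg_singleton v y, ← hy, sg_erase he', hC.sg_erase hx]
    · rw [← hy, insert_comm, insert_erase he', insert_erase hx]
  rw [sum_congr rfl h1, sum_sigma']
  unfold n2
  rw [card_eq_sum_ones]
  push_cast
  refine sum_le_of_inj (fun p => p.2) ?_ ?_ (fun _ _ => le_rfl) (fun _ _ => zero_le_one)
  · rintro ⟨C, x⟩ hp
    rw [mem_sigma, mem_CC, mem_filter] at hp
    dsimp only at *
    obtain ⟨⟨a1, a2'⟩, a3, a4, a5, a6⟩ := hp
    obtain ⟨y, b1, b2, b3, b4, -⟩ := h2 C x a1 a2' a3 a4 a5 a6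
    refine mem_filter.2 ⟨mem_erase.2 ⟨a6, a1 a3⟩, ?_, y, mem_erase.2 ⟨b2, b1⟩, b3,
      mk_eq_mk'.2 (Or.inr (by rw [b4, add_comm]))⟩
    intro h
    rcases mk_eq_zero'.1 h with h | h
    · exact hs.1 x (a1 a3) h
    · exact a6 (hs.2 x (a1 a3) e he h)
  · rintro ⟨C, x⟩ hp ⟨C', x'⟩ hp' h
    rw [mem_sigma, mem_CC, mem_filter] at hp hp'
    dsimp only at *
    subst h
    obtain ⟨⟨a1, a2'⟩, a3, a4, a5, a6⟩ := hp
    obtain ⟨y, b1, -, -, b4, b5⟩ := h2 C x a1 a2' a3 a4 a5 a6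
    obtain ⟨⟨c1, c2⟩, c3, c4, c5, c6⟩ := hp'
    obtain ⟨y', d1, -, -, d4, d5⟩ := h2 C' x c1 c2 c3 c4 c5 c6
    have : y = y' := hs.2 y b1 y' d1 (by rw [b4, d4])
    subst this
    rw [← b5] at d5
    subst d5; rfl

/-- what a circuit contributes to the bases through `e` -/
noncomputable def TT (v : ι → V) (E : Finset ι) (ω : ℕ → ℚ) (κ : ℚ) (e : ι) (C : Finset ι) : ℚ :=
  if e ∈ C then (if C.card = 3 then 2 * κ else ((C.card : ℚ) - 1) * ω (C.card - 2))
  else if ¬ Sp v C (v e) then gd v E C e * ω (C.card - 1) else 0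

theorem ctr_bound {v : ι → V} {E : Finset ι} (hs : Simp v E) {e : ι} (he : e ∈ E) {ω : ℕ → ℚ}
    (hω : ∀ j, 0 ≤ ω j) {θ κ : ℚ} (hκ : 0 ≤ κ) {r : ℕ}
    (h : WW (ctr v (v e)) (E.erase e) r ω θ κ) :
    ∑ C ∈ CC v E, TT v E ω κ e C + θ ≤ nb (ctr v (v e)) (E.erase e) ∅ r := by
  have h1 := ctr_Q hs he hω
  have h2 := mul_le_mul_of_nonneg_left (ctr_n2 hs he) hκ
  unfold WW at h
  rw [mul_sum] at h2
  have h3 := add_le_add h1 h2
  rw [← sum_add_distrib] at h3
  have h4 : ∑ C ∈ CC v E, TT v E ω κ e C = _ := sum_congr rfl (g := fun C =>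
    (if e ∈ C ∧ 4 ≤ C.card then ((C.card : ℚ) - 1) * ω (C.card - 2) else 0) +
      (if ¬ Sp v C (v e) then gd v E C e * ω (C.card - 1) else 0) +
      κ * if e ∈ C ∧ C.card = 3 then (2 : ℚ) else 0) fun C hC => by
    have h5 := (mem_CC.1 hC).2.three_le hs (mem_CC.1 hC).1
    unfold TT
    by_cases heC : e ∈ C
    · have hsp : Sp v C (v e) := sp_mem heC
      by_cases h3 : C.card = 3
      · simp [heC, hsp, h3, mul_comm]
      · have : 4 ≤ C.card := by omega
        simp [heC, hsp, h3, this]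
    · simp [heC]
  rw [h4]
  linarith

end Pool.Agent.Lib.MP_72f2f8_co
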