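import Pool.Agent.Lib.MP_72f2f8_co.Basic

set_option autoImplicit false
set_option linter.unusedSectionVars false

namespace Pool.Agent.Lib.MP_72f2f8_co
open Finset
open scoped Classical

variable {ι : Type*} [DecidableEq ι] {V : Type*} [AddCommGroup V] [Module (ZMod 2) V]

/-- weighted sum over the independent subsets of `E` that contain `J` -/
noncomputable def SS (v : ι → V) (E J : Finset ι) (F : Finset ι → ℚ) : ℚ :=
  ∑ I ∈ E.powerset, if J ⊆ I ∧ Ind v I then F I else 0

noncomputable def fb (r : ℕ) (I : Finset ι) : ℚ := if I.card = r then 1 else 0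

noncomputable def fq (v : ι → V) (E : Finset ι) (ω : ℕ → ℚ) (I : Finset ι) : ℚ :=
  if 2 ≤ I.card ∧ Pt v E (sg v I) then ω I.card else 0

noncomputable def nb (v : ι → V) (E J : Finset ι) (r : ℕ) : ℚ := SS v E J (fb r)

noncomputable def Qw (v : ι → V) (E J : Finset ι) (ω : ℕ → ℚ) : ℚ := SS v E J (fq v E ω)

noncomputable def n2 (v : ι → V) (E : Finset ι) : ℕ :=
  (E.filter fun x => v x ≠ 0 ∧ ∃ y ∈ E, y ≠ x ∧ v y = v x).card

noncomputable def nu (v : ι → V) (E J : Finset ι) : ℕ :=
  (E.filter fun x => x ∉ J ∧ Colp v E x).card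

theorem SS_le {v : ι → V} {E J : Finset ι} {F G : Finset ι → ℚ}
    (h : ∀ I ⊆ E, J ⊆ I → Ind v I → F I ≤ G I) : SS v E J F ≤ SS v E J G := by
  refine sum_le_sum fun I hI => ?_
  split_ifs with h'
  · exact h I (mem_powerset.1 hI) h'.1 h'.2
  · exact le_rfl

theorem SS_congr {v : ι → V} {E J : Finset ι} {F G : Finset ι → ℚ}
    (h : ∀ I ⊆ E, J ⊆ I → Ind v I → F I = G I) : SS v E J F = SS v E J G :=
  le_antisymm (SS_le fun I a b c => (h I a b c).le) (SS_le fun I a b c => (h I a b c).ge)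

theorem SS_zero (v : ι → V) (E J : Finset ι) : SS v E J (fun _ => 0) = 0 := by simp [SS]

theorem SS_eq_zero {v : ι → V} {E J : Finset ι} {F : Finset ι → ℚ}
    (h : ∀ I ⊆ E, J ⊆ I → Ind v I → F I = 0) : SS v E J F = 0 := by
  rw [SS_congr h, SS_zero]

theorem SS_nonneg {v : ι → V} {E J : Finset ι} {F : Finset ι → ℚ}
    (h : ∀ I ⊆ E, J ⊆ I → Ind v I → 0 ≤ F I) : 0 ≤ SS v E J F := by
  rw [← SS_zero v E J]; exact SS_le h

theorem SS_add (v : ι → V) (E J : Finset ι) (F G : Finset ι → ℚ) :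
    SS v E J (fun I => F I + G I) = SS v E J F + SS v E J G := by
  unfold SS
  rw [← sum_add_distrib]
  refine sum_congr rfl fun I _ => ?_
  split_ifs <;> simp

theorem SS_mul (v : ι → V) (E J : Finset ι) (c : ℚ) (F : Finset ι → ℚ) :
    SS v E J (fun I => c * F I) = c * SS v E J F := by
  unfold SS
  rw [mul_sum]
  refine sum_congr rfl fun I _ => ?_
  split_ifs <;> simp

theorem SS_insert {v : ι → V} {E J : Finset ι} {e : ι} (he : e ∈ E) (F : Finset ι → ℚ) :
    SS v E (insert e J) F =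
      ∑ I ∈ (E.erase e).powerset,
        if J ⊆ insert e I ∧ Ind v (insert e I) then F (insert e I) else 0 := by
  unfold SS
  conv_lhs => rw [← insert_erase he]
  rw [sum_powerset_insert (notMem_erase e E)]
  have h0 : ∑ I ∈ (E.erase e).powerset, (if insert e J ⊆ I ∧ Ind v I then F I else 0) = 0 := by
    refine sum_eq_zero fun I hI => ?_
    rw [if_neg]
    rintro ⟨h, -⟩
    exact notMem_erase e E (mem_powerset.1 hI (h (mem_insert_self e J)))
  rw [h0, zero_add]
  refine sum_congr rfl fun I _ => ?_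
  have : insert e J ⊆ insert e I ↔ J ⊆ insert e I := by
    rw [insert_subset_iff]; simp
  simp only [this]

theorem SS_split {v : ι → V} {E J : Finset ι} {e : ι} (he : e ∈ E) (F : Finset ι → ℚ) :
    SS v E J F = SS v (E.erase e) J F + SS v E (insert e J) F := by
  rw [SS_insert he]
  unfold SS
  conv_lhs => rw [← insert_erase he]
  rw [sum_powerset_insert (notMem_erase e E)]

theorem SS_erase {v : ι → V} {E J : Finset ι} {e : ι} {F : Finset ι → ℚ}
    (h : ∀ I ⊆ E, J ⊆ I → Ind v I → e ∈ I → F I = 0) : SS v E J F = SS v (E.erase e) J F := by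
  by_cases he : e ∈ E
  · rw [SS_split he, SS_eq_zero (J := insert e J), add_zero]
    intro I hI hJ hi
    exact h I hI ((subset_insert e J).trans hJ) hi (hJ (mem_insert_self e J))
  · rw [erase_eq_of_notMem he]

theorem SS_insert_of {v : ι → V} {E J : Finset ι} {e : ι} {F : Finset ι → ℚ}
    (h : ∀ I ⊆ E, J ⊆ I → Ind v I → e ∉ I → F I = 0) : SS v E (insert e J) F = SS v E J F := by
  unfold SS
  refine sum_congr rfl fun I hI => ?_
  by_cases h1 : J ⊆ I ∧ Ind v I
  · by_cases he : e ∈ I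
    · rw [if_pos h1, if_pos ⟨insert_subset he h1.1, h1.2⟩]
    · rw [if_pos h1, if_neg (fun h' => he (h'.1 (mem_insert_self e J))),
        h I (mem_powerset.1 hI) h1.1 h1.2 he]
  · rw [if_neg h1, if_neg (fun h' => h1 ⟨(subset_insert e J).trans h'.1, h'.2⟩)]

theorem nb_nonneg (v : ι → V) (E J : Finset ι) (r : ℕ) : 0 ≤ nb v E J r :=
  SS_nonneg fun I _ _ _ => by unfold fb; split_ifs <;> norm_num

theorem fq_nonneg (v : ι → V) (E : Finset ι) {ω : ℕ → ℚ} (hω : ∀ j, 0 ≤ ω j) (I : Finset ι) :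
    0 ≤ fq v E ω I := by
  unfold fq; split_ifs
  · exact hω _
  · exact le_rfl

theorem Qw_nonneg (v : ι → V) (E J : Finset ι) {ω : ℕ → ℚ} (hω : ∀ j, 0 ≤ ω j) :
    0 ≤ Qw v E J ω := SS_nonneg fun I _ _ _ => fq_nonneg v E hω I

theorem nb_eq_card (v : ι → V) (E : Finset ι) (r : ℕ) :
    nb v E ∅ r = ((E.powerset.filter fun I => Ind v I ∧ I.card = r).card : ℚ) := by
  rw [card_filter]
  unfold nb SS fb
  push_cast
  refine sum_congr rfl fun I _ => ?_
  by_cases h1 : Ind v I <;> by_cases h2 : I.card = r <;> simp [h1, h2]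

/-! contraction -/

/-- the family after contracting the vector `w` -/
def ctr (v : ι → V) (w : V) : ι → V ⧸ (Submodule.span (ZMod 2) {w}) :=
  fun x => Submodule.Quotient.mk (v x)

theorem mk_eq_zero' {w u : V} :
    (Submodule.Quotient.mk u : V ⧸ (Submodule.span (ZMod 2) {w})) = 0 ↔ u = 0 ∨ u = w := by
  rw [Submodule.Quotient.mk_eq_zero, Submodule.mem_span_singleton]
  constructor
  · rintro ⟨a, rfl⟩
    have : a = 0 ∨ a = 1 := by revert a; decide
    rcases this with rfl | rfl <;> simp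
  · rintro (rfl | rfl)
    · exact ⟨0, by simp⟩
    · exact ⟨1, by simp⟩

theorem mk_eq_mk' {w u u' : V} :
    (Submodule.Quotient.mk u : V ⧸ (Submodule.span (ZMod 2) {w})) = Submodule.Quotient.mk u' ↔
      u = u' ∨ u = u' + w := by
  rw [← sub_eq_zero, ← Submodule.Quotient.mk_sub, mk_eq_zero', sub_eq_zero, sub_eq_iff_eq_add']

theorem sg_ctr (v : ι → V) (w : V) (T : Finset ι) :
    sg (ctr v w) T = Submodule.Quotient.mk (sg v T) := by
  unfold sg ctr
  rw [← Submodule.mkQ_apply, map_sum]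
  rfl

theorem ind_ctr {v : ι → V} {e : ι} (h0 : v e ≠ 0) {I : Finset ι} (he : e ∉ I) :
    Ind (ctr v (v e)) I ↔ Ind v (insert e I) := by
  rw [ind_insert he]
  constructor
  · intro h
    refine ⟨fun T hT hT0 => h T hT (by rw [sg_ctr, mk_eq_zero']; exact Or.inl hT0), ?_⟩
    rintro ⟨T, hT, hTe⟩
    have := h T hT (by rw [sg_ctr, mk_eq_zero']; exact Or.inr hTe)
    rw [this, sg_empty] at hTe
    exact h0 hTe.symm
  · rintro ⟨h1, h2⟩ T hT hT0
    rw [sg_ctr, mk_eq_zero'] at hT0
    rcases hT0 with h | h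
    · exact h1 T hT h
    · exact absurd ⟨T, hT, h⟩ h2

theorem sp_ctr {v : ι → V} {e : ι} {I : Finset ι} {u : V} :
    Sp (ctr v (v e)) I (Submodule.Quotient.mk u) ↔ Sp v (insert e I) u := by
  rw [sp_insert]
  constructor
  · rintro ⟨T, hT, h⟩
    rw [sg_ctr, mk_eq_mk'] at h
    rcases h with h | h
    · exact Or.inl ⟨T, hT, h⟩
    · exact Or.inr ⟨T, hT, h⟩
  · rintro (⟨T, hT, h⟩ | ⟨T, hT, h⟩)
    · exact ⟨T, hT, by rw [sg_ctr, mk_eq_mk']; exact Or.inl h⟩
    · exact ⟨T, hT, by rw [sg_ctr, mk_eq_mk']; exact Or.inr h⟩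

theorem SS_ctr {v : ι → V} {E : Finset ι} {e : ι} (he : e ∈ E) (h0 : v e ≠ 0)
    (F : Finset ι → ℚ) :
    SS v E {e} F = SS (ctr v (v e)) (E.erase e) ∅ (fun I => F (insert e I)) := by
  have := SS_insert (v := v) (J := ∅) he F
  rw [insert_empty_eq] at this
  rw [this]
  unfold SS
  refine sum_congr rfl fun I hI => ?_
  have heI : e ∉ I := fun h => notMem_erase e E (mem_powerset.1 hI h)
  simp only [empty_subset, true_and, ind_ctr h0 heI]

theorem nb_ctr {v : ι → V} {E : Finset ι} {e : ι} (he : e ∈ E) (h0 : v e ≠ 0) (r : ℕ) :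
    nb v E {e} (r + 1) = nb (ctr v (v e)) (E.erase e) ∅ r := by
  unfold nb
  rw [SS_ctr he h0]
  refine SS_congr fun I hI _ _ => ?_
  have heI : e ∉ I := fun h => notMem_erase e E (hI h)
  unfold fb
  simp [card_insert_of_notMem heI]

theorem nb_del_ctr {v : ι → V} {E : Finset ι} {e : ι} (he : e ∈ E) (h0 : v e ≠ 0) (r : ℕ) :
    nb v E ∅ (r + 1) = nb v (E.erase e) ∅ (r + 1) + nb (ctr v (v e)) (E.erase e) ∅ r := by
  rw [← nb_ctr he h0]
  unfold nb
  rw [SS_split he, insert_empty_eq]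

theorem Rk.ctr {v : ι → V} {E : Finset ι} {r : ℕ} (h : Rk v E (r + 1)) {e : ι} (he : e ∈ E)
    (h0 : v e ≠ 0) : Rk (ctr v (v e)) (E.erase e) r := by
  have hi : Ind v {e} := by
    have := (ind_insert (v := v) (I := ∅) (y := e) (by simp)).2
      ⟨ind_empty v, by rintro ⟨T, hT, h⟩; rw [subset_empty.1 hT, sg_empty] at h; exact h0 h.symm⟩
    simpa using this
  obtain ⟨B, hB1, hB2, hB3, hB4⟩ := h.extend (I := {e}) (by simpa using he) hi
  have heB : e ∈ B := by simpa using hB1
  refine ⟨B.erase e, erase_subset_erase e hB2, ?_, by rw [card_erase_of_mem heB]; omega, ?_⟩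
  · rw [ind_ctr h0 (notMem_erase e B), insert_erase heB]; exact hB3
  · intro x hx
    show Sp _ _ (Submodule.Quotient.mk (v x))
    rw [sp_ctr, insert_erase heB]
    exact h.sp hB2 hB3 hB4 (mem_of_mem_erase hx)

theorem not_colp_ctr {v : ι → V} {E : Finset ι} {e x : ι} (h : ¬ Colp v E x) :
    ¬ Colp (ctr v (v e)) (E.erase e) x := by
  unfold Colp at *
  rw [not_not] at *
  show Sp _ _ (Submodule.Quotient.mk (v x))
  rw [sp_ctr]
  refine h.mono fun y hy => ?_
  by_cases hye : y = e
  · simp [hye]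
  · simp only [mem_insert, mem_erase] at hy ⊢
    exact Or.inr ⟨hy.1, hye, hy.2⟩

/-- deleting a coloop -/
theorem Rk.erase_colp {v : ι → V} {E : Finset ι} {r : ℕ} (h : Rk v E r) {x : ι} (hx : x ∈ E)
    (hc : Colp v E x) : ∃ r', r = r' + 1 ∧ Rk v (E.erase x) r' ∧
      nb v E ∅ r = nb v (E.erase x) ∅ r' := by
  obtain ⟨B, hB1, hB2, hB3, hB4⟩ := id h
  have hxB : x ∈ B := hc.mem_base h hx hB1 hB2 hB3
  have hpos : 0 < r := by rw [← hB3]; exact card_pos.2 ⟨x, hxB⟩
  refine ⟨r - 1, by omega, ⟨B.erase x, erase_subset_erase x hB1, hB2.mono (erase_subset x B),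
    by rw [card_erase_of_mem hxB, hB3], ?_⟩, ?_⟩
  · intro y hy
    have h1 := hB4 y (mem_of_mem_erase hy)
    rw [← insert_erase hxB, sp_insert] at h1
    rcases h1 with h1 | h1
    · exact h1
    · exfalso
      apply hc
      rw [add_comm] at h1
      exact (h1.mono (erase_subset_erase x hB1)).of_add (sp_mem hy)
  · unfold nb
    rw [← SS_insert_of (e := x), SS_insert hx]
    · unfold SS
      refine sum_congr rfl fun I hI => ?_
      have hxI : x ∉ I := fun h => notMem_erase x E (mem_powerset.1 hI h)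
      have h1 : Ind v (insert x I) ↔ Ind v I := by
        rw [ind_insert hxI]
        exact ⟨fun h => h.1, fun h => ⟨h, fun h' => hc (h'.mono (mem_powerset.1 hI))⟩⟩
      have h2 : fb r (insert x I) = fb (r - 1) I := by
        unfold fb
        rw [card_insert_of_notMem hxI]
        have : I.card + 1 = r ↔ I.card = r - 1 := by omega
        simp only [this]
      simp only [empty_subset, true_and, h1, h2]
    · intro I hI _ hi hxI
      unfold fb
      rw [if_neg]
      intro hc'
      exact hxI (hc.mem_base h hx hI hi hc')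

/-- a coloop-free family of rank `r` has at least `r + 1` bases, if `r` is positive or not -/
theorem nb_ge {v : ι → V} {E : Finset ι} {r : ℕ} (h : Rk v E r) (hc : ∀ x ∈ E, ¬ Colp v E x) :
    (r : ℚ) + 1 ≤ nb v E ∅ r := by
  obtain ⟨B, hB1, hB2, hB3, hB4⟩ := id h
  have key : ∀ x ∈ B, ∃ y ∈ E, ¬ Sp v (B.erase x) (v y) ∧ y ≠ x := by
    intro x hx
    by_contra hn
    push Not at hn
    have h1 : Sp v (E.erase x) (v x) := not_not.1 (hc x (hB1 hx))
    refine hB2.not_sp_erase hx (h1.trans fun y hy => ?_)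
    by_contra h2
    exact ne_of_mem_erase hy (hn y (mem_of_mem_erase hy) h2)
  choose! g hg using key
  rw [nb_eq_card]
  have hsub : insert B (B.image fun x => insert (g x) (B.erase x)) ⊆
      E.powerset.filter fun I => Ind v I ∧ I.card = r := by
    intro I hI
    rw [mem_filter, mem_powerset]
    rcases mem_insert.1 hI with rfl | hI
    · exact ⟨hB1, hB2, hB3⟩
    · obtain ⟨x, hx, rfl⟩ := mem_image.1 hI
      obtain ⟨h1, h2, -⟩ := hg x hx
      obtain ⟨h3, h4⟩ := ind_insert_of (hB2.mono (erase_subset x B)) h2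
      refine ⟨insert_subset h1 ((erase_subset x B).trans hB1), h3, ?_⟩
      rw [card_insert_of_notMem h4, card_erase_of_mem hx, hB3]
      have : 0 < r := by rw [← hB3]; exact card_pos.2 ⟨x, hx⟩
      omega
  have hnot : ∀ x ∈ B, x ∉ insert (g x) (B.erase x) := by
    intro x hx h'
    rcases mem_insert.1 h' with h' | h'
    · exact (hg x hx).2.2 h'.symm
    · exact notMem_erase x B h'
  have hcard : (insert B (B.image fun x => insert (g x) (B.erase x))).card = r + 1 := by
    rw [card_insert_of_notMem, card_image_of_injOn, hB3]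
    · intro x hx y hy hxy
      by_contra hne
      have hxy' : insert (g x) (B.erase x) = insert (g y) (B.erase y) := hxy
      apply hnot x hx
      rw [hxy']
      exact mem_insert_of_mem (mem_erase.2 ⟨hne, hx⟩)
    · intro hB
      obtain ⟨x, hx, h'⟩ := mem_image.1 hB
      apply hnot x hx
      rw [h']; exact hx
  have := card_le_card hsub
  rw [hcard] at this
  exact_mod_cast this

end Pool.Agent.Lib.MP_72f2f8_co
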