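import Pool.Agent.Lib.MP_72f2f8_co.Local

set_option autoImplicit false
set_option linter.unusedSectionVars false

namespace Pool.Agent.Lib.MP_72f2f8_co
open Finset
open scoped Classical

variable {ι : Type*} [DecidableEq ι] {V : Type*} [AddCommGroup V] [Module (ZMod 2) V]

noncomputable def gO (v : ι → V) (E C : Finset ι) : ℚ := ∑ e ∈ OO v E C, (gd v E C e : ℚ)

noncomputable def DO (v : ι → V) (E C : Finset ι) : ℚ := ∑ e ∈ OO v E C, (dg v E C e : ℚ)

theorem swap_facts {v : ι → V} {C : Finset ι} (hC : Circ v C) {x e : ι} (hx : x ∈ C)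
    (he : ¬ Sp v C (v e)) : Ind v (insert e (C.erase x)) ∧ e ∉ C.erase x ∧
      sg v (insert e (C.erase x)) = v e + v x ∧ (insert e (C.erase x)).card = C.card := by
  obtain ⟨h1, h2⟩ := ind_insert_of (hC.2.2 x hx) (y := e) (by rwa [hC.sp_erase hx])
  refine ⟨h1, h2, by rw [sg_insert h2, hC.sg_erase hx], ?_⟩
  have := card_pos.2 hC.1
  rw [card_insert_of_notMem h2, card_erase_of_mem hx]
  omega

theorem count2 {v : ι → V} {E : Finset ι} {R : ℕ} (hs : Simp v E) (hR : 3 ≤ R) :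
    ∑ C ∈ CC v E, ((if C.card = R + 1 then (R : ℚ) + 1 else 0) +
      (if C.card = R then gO v E C / (OO v E C).card else 0)) ≤ nb v E ∅ R := by
  set BB := E.powerset.filter fun B => Ind v B ∧ B.card = R ∧ ¬ Pt v E (sg v B) with hBB
  set T : Finset ι → Finset ι := fun B => B.filter fun e => Pt v E (sg v B + v e) with hT
  have h1 : nb v E ∅ R = Qw v E ∅ (fun j => if j = R then 1 else 0) + ∑ B ∈ BB, 1 := by
    have : ∑ B ∈ BB, (1 : ℚ) =
        SS v E ∅ fun B => if B.card = R ∧ ¬ Pt v E (sg v B) then 1 else 0 := by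
      rw [hBB, sum_filter]
      unfold SS
      refine sum_congr rfl fun B _ => ?_
      by_cases h : Ind v B <;> simp [h]
    rw [this]
    unfold nb Qw
    rw [← SS_add]
    refine SS_congr fun I _ _ _ => ?_
    unfold fb fq
    by_cases h1 : I.card = R <;> by_cases h2 : Pt v E (sg v I) <;> simp [h1, h2]
    omega
  have h2 : Qw v E ∅ (fun j => if j = R then 1 else 0) =
      ∑ C ∈ CC v E, (if C.card = R + 1 then (R : ℚ) + 1 else 0) := by
    rw [Qw_circ hs]
    refine sum_congr rfl fun C hC => ?_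
    by_cases h : C.card = R + 1
    · simp [h]
    · rw [if_neg h, if_neg (by omega), mul_zero]
  rw [h1, h2, sum_add_distrib]
  gcongr
  have h3 : ∑ p ∈ BB.sigma T, (1 : ℚ) / (T p.1).card ≤ ∑ B ∈ BB, 1 := by
    rw [sum_sigma]
    refine sum_le_sum fun B _ => ?_
    simp only [sum_const, nsmul_eq_mul]
    rw [mul_one_div]
    exact div_self_le_one _
  refine le_trans ?_ h3
  have h4 : ∑ C ∈ CC v E, (if C.card = R then gO v E C / (OO v E C).card else 0) =
      ∑ p ∈ ((CC v E).filter fun C => C.card = R).sigma (fun C => (OO v E C).sigma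
        fun e => C.filter fun x => ¬ Pt v E (v e + v x)), (1 : ℚ) / (OO v E p.1).card := by
    rw [← sum_filter, sum_sigma]
    refine sum_congr rfl fun C _ => ?_
    rw [sum_sigma, gO, sum_div]
    refine sum_congr rfl fun e _ => ?_
    simp only [sum_const, nsmul_eq_mul]
    rw [mul_one_div]; rfl
  rw [h4]
  refine sum_le_of_inj (fun p => ⟨insert p.2.1 (p.1.erase p.2.2), p.2.1⟩) ?_ ?_ ?_
    (fun _ _ => by positivity)
  · rintro ⟨C, e, x⟩ hp
    simp only [mem_sigma, mem_filter, mem_CC, OO] at hp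
    obtain ⟨⟨⟨a1, a2'⟩, a3⟩, ⟨a4, a5⟩, a6, a7⟩ := hp
    obtain ⟨b1, b2, b3, b4⟩ := swap_facts a2' a6 a5
    simp only [mem_sigma, hBB, hT, mem_filter, mem_powerset]
    refine ⟨⟨insert_subset a4 ((erase_subset x C).trans a1), b1, by omega, by rwa [b3]⟩,
      mem_insert_self _ _, x, a1 a6, ?_⟩
    rw [b3, add_right_comm, a2, zero_add]
  · rintro ⟨C, e, x⟩ hp ⟨C', e', x'⟩ hp' h
    simp only [mem_sigma, mem_filter, mem_CC, OO] at hp hp'
    obtain ⟨⟨⟨a1, a2'⟩, -⟩, ⟨-, a5⟩, a6, -⟩ := hp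
    obtain ⟨⟨⟨c1, c2⟩, -⟩, ⟨-, c5⟩, c6, -⟩ := hp'
    obtain ⟨-, b2, b3, -⟩ := swap_facts a2' a6 a5
    obtain ⟨-, d2, d3, -⟩ := swap_facts c2 c6 c5
    simp only [Sigma.mk.injEq, heq_eq_eq] at h
    obtain ⟨h5, rfl⟩ := h
    have hx : x = x' := hs.2 x (a1 a6) x' (c1 c6) (add_left_cancel (by rw [← b3, ← d3, h5]))
    subst hx
    have : C = C' := by
      rw [← insert_erase a6, ← insert_erase c6, ← erase_insert b2, h5, erase_insert d2]
    subst this
    rfl
  · rintro ⟨C, e, x⟩ hp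
    simp only [mem_sigma, mem_filter, mem_CC, OO] at hp
    obtain ⟨⟨⟨a1, a2'⟩, a3⟩, ⟨a4, a5⟩, a6, a7⟩ := hp
    obtain ⟨b1, b2, b3, b4⟩ := swap_facts a2' a6 a5
    dsimp only
    have k1 : e ∈ T (insert e (C.erase x)) :=
      mem_filter.2 ⟨mem_insert_self _ _, x, a1 a6, by rw [b3, add_right_comm, a2, zero_add]⟩
    have k2 : e ∈ OO v E C := mem_filter.2 ⟨a4, a5⟩
    have k3 : ((T (insert e (C.erase x))).erase e).card ≤ ((OO v E C).erase e).card := by
      refine card_le_card_of_forall_subsingleton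
        (fun a y => v y = sg v (insert e (C.erase x)) + v a) ?_ ?_
      · intro a ha
        obtain ⟨hae, ha⟩ := mem_erase.1 ha
        obtain ⟨ha, y, hy, hya⟩ := mem_filter.1 ha
        have haC : a ∈ C.erase x := (mem_insert.1 ha).resolve_left hae
        refine ⟨y, mem_erase.2 ⟨?_, mem_filter.2 ⟨hy, fun h => a5 ?_⟩⟩, hya⟩
        · rintro rfl
          rw [b3, add_assoc] at hya
          have : v x = v a := eq_of_add_eq_zero' (by simpa using hya.symm)
          exact ne_of_mem_erase haC (hs.2 x (a1 a6) a (a1 (mem_of_mem_erase haC)) this).symm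
        · rw [hya, b3] at h
          exact (h.of_add (sp_mem (mem_of_mem_erase haC))).of_add (sp_mem a6)
      · rintro y - a ⟨ha, ha'⟩ b ⟨hb, hb'⟩
        exact b1.inj (mem_filter.1 (mem_of_mem_erase ha)).1 (mem_filter.1 (mem_of_mem_erase hb)).1
          (add_left_cancel (ha'.symm.trans hb'))
    rw [card_erase_of_mem k1, card_erase_of_mem k2] at k3
    have k4 := card_pos.2 ⟨e, k1⟩
    have k5 := card_pos.2 ⟨e, k2⟩
    exact one_div_le_one_div_of_le (by exact_mod_cast k4) (by exact_mod_cast (by omega))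

noncomputable def ptf (v : ι → V) (E : Finset ι) (w : V) (d : ι) : ι :=
  if h : Pt v E w then h.choose else d

theorem ptf_spec {v : ι → V} {E : Finset ι} {w : V} (h : Pt v E w) (d : ι) :
    ptf v E w d ∈ E ∧ v (ptf v E w d) = w := by
  unfold ptf; rw [dif_pos h]; exact h.choose_spec

theorem count3 {v : ι → V} {E : Finset ι} (hs : Simp v E) {α : ℕ → ℚ} (hα : ∀ k, 0 ≤ α k) :
    ∑ C ∈ CC v E, α (C.card + 1) / (C.card * (C.card + 1)) * DO v E C ≤
      ∑ C ∈ CC v E, α C.card := by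
  have h1 : ∑ C ∈ CC v E, α C.card = ∑ p ∈ (CC v E).sigma (fun C => C.offDiag),
      α p.1.card / (p.1.card * p.1.card - p.1.card) := by
    rw [sum_sigma]
    refine sum_congr rfl fun C hC => ?_
    have h3 := (mem_CC.1 hC).2.three_le hs (mem_CC.1 hC).1
    simp only [sum_const, nsmul_eq_mul]
    rw [offDiag_card, Nat.cast_sub (Nat.le_mul_self _)]
    have : (3 : ℚ) ≤ C.card := by exact_mod_cast h3
    have : (C.card : ℚ) * C.card - C.card ≠ 0 := by nlinarith
    push_cast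
    rw [mul_div_cancel₀ _ this]
  have h2 : ∑ C ∈ CC v E, α (C.card + 1) / (C.card * (C.card + 1)) * DO v E C =
      ∑ p ∈ (CC v E).sigma (fun C => (OO v E C).sigma
        fun e => C.filter fun x => Pt v E (v e + v x)),
        α (p.1.card + 1) / (p.1.card * (p.1.card + 1)) := by
    rw [sum_sigma]
    refine sum_congr rfl fun C _ => ?_
    rw [sum_sigma, DO, mul_sum]
    refine sum_congr rfl fun e _ => ?_
    simp only [sum_const, nsmul_eq_mul]
    rw [mul_comm]; rfl
  rw [h1, h2]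
  have key : ∀ C e x, C ⊆ E → Circ v C → ¬ Sp v C (v e) → x ∈ C → Pt v E (v e + v x) →
      ptf v E (v e + v x) e ∉ insert e (C.erase x) := by
    intro C e x a1 a2' a5 a6 a7 h
    have h3 := (ptf_spec a7 e).2
    rcases mem_insert.1 h with h | h
    · rw [h] at h3
      exact hs.1 x (a1 a6) (by simpa using h3)
    · have := sp_mem (v := v) (mem_of_mem_erase h)
      rw [h3] at this
      exact a5 (this.of_add (sp_mem a6))
  refine sum_le_of_inj (fun p => ⟨insert (ptf v E (v p.2.1 + v p.2.2) p.2.1)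
    (insert p.2.1 (p.1.erase p.2.2)), (p.2.1, ptf v E (v p.2.1 + v p.2.2) p.2.1)⟩) ?_ ?_ ?_ ?_
  · rintro ⟨C, e, x⟩ hp
    simp only [mem_sigma, mem_filter, mem_CC, OO] at hp
    obtain ⟨⟨a1, a2'⟩, ⟨a4, a5⟩, a6, a7⟩ := hp
    obtain ⟨b1, b2, b3, b4⟩ := swap_facts a2' a6 a5
    have k := key C e x a1 a2' a5 a6 a7
    simp only [mem_sigma, mem_CC, mem_offDiag]
    refine ⟨⟨insert_subset (ptf_spec a7 e).1 (insert_subset a4 ((erase_subset x C).trans a1)),
      circ_insert k b1 (by rw [b3, (ptf_spec a7 e).2])⟩, by simp, by simp, ?_⟩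
    intro h
    exact k (h ▸ mem_insert_self _ _)
  · rintro ⟨C, e, x⟩ hp ⟨C', e', x'⟩ hp' h
    simp only [mem_sigma, mem_filter, mem_CC, OO] at hp hp'
    obtain ⟨⟨a1, a2'⟩, ⟨-, a5⟩, a6, a7⟩ := hp
    obtain ⟨⟨c1, c2⟩, ⟨-, c5⟩, c6, c7⟩ := hp'
    obtain ⟨-, b2, -, -⟩ := swap_facts a2' a6 a5
    obtain ⟨-, d2, -, -⟩ := swap_facts c2 c6 c5
    have k := key C e x a1 a2' a5 a6 a7
    have k' := key C' e' x' c1 c2 c5 c6 c7
    simp only [Sigma.mk.injEq, heq_eq_eq, Prod.mk.injEq] at h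
    obtain ⟨h5, rfl, h6⟩ := h
    have hx : x = x' := hs.2 x (a1 a6) x' (c1 c6) (add_left_cancel (by
      rw [← (ptf_spec a7 e).2, ← (ptf_spec c7 e).2, h6]))
    subst hx
    have : C = C' := by
      rw [← insert_erase a6, ← insert_erase c6, ← erase_insert b2, ← erase_insert k, h5,
        erase_insert k', erase_insert d2]
    subst this
    rfl
  · rintro ⟨C, e, x⟩ hp
    simp only [mem_sigma, mem_filter, mem_CC, OO] at hp
    obtain ⟨⟨a1, a2'⟩, ⟨a4, a5⟩, a6, a7⟩ := hp
    obtain ⟨b1, b2, b3, b4⟩ := swap_facts a2' a6 a5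
    dsimp only
    rw [card_insert_of_notMem (key C e x a1 a2' a5 a6 a7), b4]
    push_cast
    apply le_of_eq
    congr 1
    ring
  · rintro ⟨C, q⟩ -
    refine div_nonneg (hα _) ?_
    have : (C.card : ℚ) ≤ C.card * C.card := by exact_mod_cast Nat.le_mul_self _
    dsimp only
    linarith

end Pool.Agent.Lib.MP_72f2f8_co
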