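import Pool.Agent.Lib.MP_72f2f8_co.StepB

set_option autoImplicit false
set_option linter.unusedSectionVars false

namespace Pool.Agent.Lib.MP_72f2f8_co
open Finset
open scoped Classical

variable {ι : Type*} [DecidableEq ι] {V : Type*} [AddCommGroup V] [Module (ZMod 2) V]

theorem zmod2_cases (a : ZMod 2) : a = 0 ∨ a = 1 := by revert a; decide

/-- the span as a submodule -/
def spm (v : ι → V) (I : Finset ι) : Submodule (ZMod 2) V where
  carrier := {w | Sp v I w}
  add_mem' := Sp.add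
  zero_mem' := sp_zero v I
  smul_mem' := by
    intro a w hw
    rcases zmod2_cases a with rfl | rfl
    · simpa using sp_zero v I
    · simpa using hw

theorem exists_split {v : ι → V} {I : Finset ι} {u : V} (h : ¬ Sp v I u) :
    ∃ P : V → Prop, (∀ w, ∀ x ∈ I, P (w + v x) ↔ P w) ∧ ∀ w, P (w + u) ↔ ¬ P w := by
  obtain ⟨f, hf, hf'⟩ := (spm v I).exists_dual_map_eq_bot_of_notMem (x := u) h inferInstance
  have h0 : ∀ x ∈ I, f (v x) = 0 := by
    intro x hx
    have : f (v x) ∈ (spm v I).map f := Submodule.mem_map_of_mem (sp_mem hx)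
    rwa [hf', Submodule.mem_bot] at this
  refine ⟨fun w => f w = 0, fun w x hx => by simp [h0 x hx], fun w => ?_⟩
  have h1 := (zmod2_cases (f u)).resolve_left hf
  simp only [map_add, h1]
  exact (by decide : ∀ a : ZMod 2, a + 1 = 0 ↔ ¬ a = 0) _

noncomputable def mv (v : ι → V) (K L : Finset ι) (u : V) : ℕ :=
  (K.filter fun e => Pt v L (v e + u)).card

theorem mv_le_left (v : ι → V) (K L : Finset ι) (u : V) : mv v K L u ≤ K.card :=
  card_filter_le _ _

theorem mv_le_right {v : ι → V} {K : Finset ι} (L : Finset ι) (u : V)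
    (hK : ∀ x ∈ K, ∀ y ∈ K, v x = v y → x = y) : mv v K L u ≤ L.card := by
  refine card_le_card_of_forall_subsingleton (fun e y => v y = v e + u) ?_ ?_
  · intro e he
    exact (mem_filter.1 he).2
  · rintro y - a ⟨ha, ha'⟩ b ⟨hb, hb'⟩
    exact hK a (mem_filter.1 ha).1 b (mem_filter.1 hb).1 (add_right_cancel (ha'.symm.trans hb'))

theorem pow_ent {a b : ℕ} (h : a ≤ b) : a ^ a * b ^ b * 2 ^ (2 * a) ≤ (a + b) ^ (a + b) := by
  obtain ⟨d, rfl⟩ := Nat.exists_eq_add_of_le h
  have h1 : a * (a + d) * 4 ≤ (a + (a + d)) ^ 2 := by nlinarith [Nat.zero_le (d * d)]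
  have h2 := Nat.pow_le_pow_left h1 a
  have h3 : (a + d) ^ d ≤ (a + (a + d)) ^ d := Nat.pow_le_pow_left (by omega) d
  calc a ^ a * (a + d) ^ (a + d) * 2 ^ (2 * a) = (a * (a + d) * 4) ^ a * (a + d) ^ d := by
        rw [pow_mul, mul_pow, mul_pow, pow_add]; ring
    _ ≤ ((a + (a + d)) ^ 2) ^ a * (a + (a + d)) ^ d := Nat.mul_le_mul h2 h3
    _ = _ := by rw [← pow_mul, ← pow_add]; congr 1; ring

theorem iso {v : ι → V} {Y : Finset ι} (hY : Ind v Y) (K : Finset ι)
    (hK : ∀ x ∈ K, ∀ y ∈ K, v x = v y → x = y) :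
    2 ^ (∑ x ∈ Y, mv v K K (v x)) ≤ K.card ^ K.card := by
  induction Y using Finset.induction_on generalizing K with
  | empty =>
    rw [sum_empty, pow_zero]
    rcases Nat.eq_zero_or_pos K.card with h | h
    · rw [h]; norm_num
    · exact Nat.one_le_pow _ _ h
  | insert y Y hy ih =>
    obtain ⟨h1, h2⟩ := (ind_insert hy).1 hY
    obtain ⟨P, hP1, hP2⟩ := exists_split h2
    set K0 := K.filter fun e => P (v e) with hK0
    set K1 := K.filter fun e => ¬ P (v e) with hK1
    have i0 : ∀ x ∈ K0, ∀ y ∈ K0, v x = v y → x = y := fun a ha b hb =>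
      hK a (mem_filter.1 ha).1 b (mem_filter.1 hb).1
    have i1 : ∀ x ∈ K1, ∀ y ∈ K1, v x = v y → x = y := fun a ha b hb =>
      hK a (mem_filter.1 ha).1 b (mem_filter.1 hb).1
    have hc : K0.card + K1.card = K.card := card_filter_add_card_filter_not _
    have h3 : ∀ x ∈ Y, mv v K K (v x) ≤ mv v K0 K0 (v x) + mv v K1 K1 (v x) := by
      intro x hx
      refine le_trans (card_le_card ?_) (card_union_le _ _)
      intro e he
      obtain ⟨he, z, hz, hze⟩ := mem_filter.1 he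
      have := hP1 (v e) x hx
      rw [← hze] at this
      by_cases hp : P (v e)
      · exact mem_union_left _ (mem_filter.2 ⟨mem_filter.2 ⟨he, hp⟩, z,
          mem_filter.2 ⟨hz, this.2 hp⟩, hze⟩)
      · exact mem_union_right _ (mem_filter.2 ⟨mem_filter.2 ⟨he, hp⟩, z,
          mem_filter.2 ⟨hz, fun h => hp (this.1 h)⟩, hze⟩)
    have h4 : mv v K K (v y) ≤ mv v K0 K1 (v y) + mv v K1 K0 (v y) := by
      refine le_trans (card_le_card ?_) (card_union_le _ _)
      intro e he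
      obtain ⟨he, z, hz, hze⟩ := mem_filter.1 he
      have := hP2 (v e)
      rw [← hze] at this
      by_cases hp : P (v e)
      · exact mem_union_left _ (mem_filter.2 ⟨mem_filter.2 ⟨he, hp⟩, z,
          mem_filter.2 ⟨hz, fun h => this.1 h hp⟩, hze⟩)
      · exact mem_union_right _ (mem_filter.2 ⟨mem_filter.2 ⟨he, hp⟩, z,
          mem_filter.2 ⟨hz, this.2 hp⟩, hze⟩)
    have h5 := sum_le_sum h3
    rw [sum_add_distrib] at h5
    have h6 := Nat.mul_le_mul (ih h1 K0 i0) (ih h1 K1 i1)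
    have a1 := mv_le_left v K0 K1 (v y)
    have a2 := mv_le_left v K1 K0 (v y)
    have a3 := mv_le_right K1 (v y) i0
    have a4 := mv_le_right K0 (v y) i1
    rw [sum_insert hy, ← hc]
    rw [← pow_add] at h6
    rcases le_total K0.card K1.card with h | h
    · refine le_trans ?_ (pow_ent h)
      refine le_trans ?_ (Nat.mul_le_mul_right _ h6)
      rw [← pow_add]
      exact Nat.pow_le_pow_right (by norm_num) (by omega)
    · rw [add_comm K0.card]
      refine le_trans ?_ (pow_ent h)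
      rw [mul_comm (K1.card ^ _)]
      refine le_trans ?_ (Nat.mul_le_mul_right _ h6)
      rw [← pow_add]
      exact Nat.pow_le_pow_right (by norm_num) (by omega)

/-- table of the integer part of `s log s` -/
def Ht (s : ℕ) : ℕ :=
  [0, 0, 2, 4, 8, 11, 15, 19, 24, 28, 33, 38, 43, 48, 53, 58, 64, 69, 75, 80, 86, 92, 98, 104,
    110, 116, 122, 128, 134, 140, 147, 153].getD s 0

theorem Ht_spec : ∀ s < 32, s ^ s < 2 ^ (Ht s + 1) := by decide +kernel

theorem pow16 {s : ℕ} (h : 32 ≤ s) : s ^ 16 ≤ 2 ^ (s + 48) := by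
  induction s, h using Nat.le_induction with
  | base => norm_num
  | succ s hs ih =>
    have h1 : (32 * (s + 1)) ^ 16 ≤ (33 * s) ^ 16 := Nat.pow_le_pow_left (by omega) 16
    rw [mul_pow, mul_pow] at h1
    rw [show s + 1 + 48 = s + 48 + 1 by ring, pow_succ 2]
    generalize (s + 1) ^ 16 = a at *
    generalize s ^ 16 = b at *
    generalize 2 ^ (s + 48) = c at *
    norm_num at h1
    omega

def HB (s : ℕ) (h : ℚ) : Prop := (s < 32 ∧ h = Ht s) ∨ (32 ≤ s ∧ h = s * (s + 48) / 16)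

theorem exists_HB (s : ℕ) : ∃ h : ℚ, HB s h ∧ ∀ D : ℕ, 2 ^ D ≤ s ^ s → (D : ℚ) ≤ h := by
  by_cases hs : s < 32
  · refine ⟨Ht s, Or.inl ⟨hs, rfl⟩, fun D hD => ?_⟩
    have := (Nat.pow_lt_pow_iff_right (by norm_num)).1 (hD.trans_lt (Ht_spec s hs))
    exact_mod_cast (by omega : D ≤ Ht s)
  · refine ⟨_, Or.inr ⟨by omega, rfl⟩, fun D hD => ?_⟩
    have h1 := Nat.pow_le_pow_left hD 16
    have h2 := Nat.pow_le_pow_left (pow16 (s := s) (by omega)) s
    rw [← pow_mul, ← pow_mul] at h1 h2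
    rw [mul_comm 16 s] at h2
    have := (Nat.pow_le_pow_iff_right (by norm_num)).1 (h1.trans h2)
    have h3 : (D : ℚ) * 16 ≤ (s + 48) * s := by exact_mod_cast this
    linarith

/-- the bound on the number of moves inside a set closed under moves -/
theorem circ_moves {v : ι → V} {E C A : Finset ι} (hs : Simp v E) (hC : Circ v C) (hA : A ⊆ E)
    (hcl : ∀ e ∈ A, ∀ x ∈ C, ∀ y ∈ E, v y = v e + v x → y ∈ A) :
    ∃ h : ℚ, HB A.card h ∧ ((C.card : ℚ) - 1) * (∑ e ∈ A, (dg v E C e : ℚ)) ≤ C.card * h := by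
  obtain ⟨h, h1, h2⟩ := exists_HB A.card
  refine ⟨h, h1, ?_⟩
  have h3 : ∑ e ∈ A, dg v E C e = ∑ x ∈ C, mv v A A (v x) := by
    unfold dg mv
    simp only [card_filter]
    rw [sum_comm]
    refine sum_congr rfl fun x hx => sum_congr rfl fun e he => ?_
    have : Pt v E (v e + v x) ↔ Pt v A (v e + v x) :=
      ⟨fun ⟨y, hy, h⟩ => ⟨y, hcl e he x hx y hy h, h⟩, fun ⟨y, hy, h⟩ => ⟨y, hA hy, h⟩⟩
    simp only [this]
  have h4 : ∀ y ∈ C, ∑ x ∈ C, (mv v A A (v x) : ℚ) - mv v A A (v y) ≤ h := by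
    intro y hy
    have := h2 _ (iso (hC.2.2 y hy) A fun a ha b hb => hs.2 a (hA ha) b (hA hb))
    rw [← add_sum_erase C _ hy]
    push_cast at this
    linarith
  have h5 := sum_le_sum h4
  rw [sum_sub_distrib, sum_const, sum_const, nsmul_eq_mul, nsmul_eq_mul] at h5
  have h6 : ∑ e ∈ A, (dg v E C e : ℚ) = ∑ x ∈ C, (mv v A A (v x) : ℚ) := by exact_mod_cast h3
  rw [h6]
  linarith

end Pool.Agent.Lib.MP_72f2f8_co
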