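import Pool.Agent.Lib.MP_72f2f8_co.Reindex
import Pool.Agent.Lib.MP_72f2f8_co.CheckD

set_option autoImplicit false
set_option linter.unusedSectionVars false

namespace Pool.Agent.Lib.MP_72f2f8_co
open Finset
open scoped Classical

variable {ι : Type*} [DecidableEq ι] {V : Type*} [AddCommGroup V] [Module (ZMod 2) V]

theorem force_eq (m : ℕ) (f : ℕ → ℕ) : force m f = f m := by cases m <;> rfl

theorem bit_eq (m a : ℕ) : bit m a = m.testBit a := by
  show Nat.beq ((m >>> a) &&& 1) 1 = m.testBit a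
  rw [Nat.and_one_is_mod, Nat.testBit_eq_decide_div_mod_eq, Nat.shiftRight_eq_div_pow]
  by_cases h : m / 2 ^ a % 2 = 1
  · simp [h]
  · have : m / 2 ^ a % 2 = 0 := by omega
    simp only [this]; rfl

theorem bit_msk (l : List ℕ) (a : ℕ) : bit (msk l) a = true ↔ a ∈ l := by
  rw [bit_eq]
  induction l with
  | nil => simp [msk]
  | cons b l ih =>
    show ((1 <<< b) ||| msk l).testBit a = true ↔ _
    rw [Nat.testBit_or, Nat.one_shiftLeft, Nat.testBit_two_pow, Bool.or_eq_true, ih, List.mem_cons]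
    simp [eq_comm]

theorem mem_extl (a : ℕ) (l : List ℕ) (y : ℕ) : y ∈ extl a l ↔ y ∈ l ∨ y ^^^ a ∈ l := by
  induction l with
  | nil => simp [extl]
  | cons b l ih =>
    show y ∈ b :: (b ^^^ a) :: extl a l ↔ _
    simp only [List.mem_cons, ih]
    have : y = b ^^^ a ↔ y ^^^ a = b := by
      constructor
      · rintro rfl; rw [Nat.xor_assoc, Nat.xor_self, Nat.xor_zero]
      · rintro rfl; rw [Nat.xor_assoc, Nat.xor_self, Nat.xor_zero]
    rw [this]; tauto

theorem go_zero (G : ℕ → ℕ → ℕ) (l : List ℕ) (x : ℕ) (sp : List ℕ) : go G 0 l x sp = G 0 x := rfl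

theorem go_succ (G : ℕ → ℕ → ℕ) (d : ℕ) (l : List ℕ) (x : ℕ) (sp : List ℕ) :
    go G (d + 1) l x sp = List.rec (motive := fun _ => ℕ) (G (Nat.succ d) x)
      (fun a l' ih' => Nat.add ih' (cond (bit (msk sp) a) 0
        (force (Nat.xor x a) fun y => go G d l' y (extl a sp)))) l :=
  force_eq (msk sp) fun m => List.rec (motive := fun _ => ℕ) (G (Nat.succ d) x)
      (fun a l' ih' => Nat.add ih' (cond (bit m a) 0
        (force (Nat.xor x a) fun y => go G d l' y (extl a sp)))) l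

theorem go_nil (G : ℕ → ℕ → ℕ) (d x : ℕ) (sp : List ℕ) : go G d [] x sp = G d x := by
  cases d with
  | zero => rfl
  | succ d => rw [go_succ]

theorem go_cons (G : ℕ → ℕ → ℕ) (d a : ℕ) (l : List ℕ) (x : ℕ) (sp : List ℕ) :
    go G (d + 1) (a :: l) x sp = go G (d + 1) l x sp +
      (if a ∈ sp then 0 else go G d l (x ^^^ a) (extl a sp)) := by
  have h1 : go G (d + 1) (a :: l) x sp = go G (d + 1) l x sp + (cond (bit (msk sp) a) 0
        (force (Nat.xor x a) fun y => go G d l y (extl a sp))) := by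
    rw [go_succ, go_succ]; rfl
  rw [h1]
  congr 1
  by_cases h : a ∈ sp
  · rw [if_pos h, (bit_msk sp a).2 h]; rfl
  · have : bit (msk sp) a = false := by
      rw [← Bool.not_eq_true, bit_msk]; exact h
    rw [if_neg h, this, force_eq]; rfl

theorem SS_self {v : ι → V} {E I : Finset ι} (hI : I ⊆ E) (hi : Ind v I) (F : Finset ι → ℚ)
    (h : ∀ T ⊆ E, I ⊆ T → Ind v T → T = I) : SS v E I F = F I := by
  unfold SS
  rw [sum_eq_single_of_mem I (mem_powerset.2 hI), if_pos ⟨Subset.rfl, hi⟩]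
  intro T hT hne
  rw [if_neg]
  rintro ⟨h1, h2⟩
  exact hne (h T (mem_powerset.1 hT) h1 h2)

theorem go_spec {u : ℕ → V} {ρ : ℕ} (hn : Num u ρ) {S : Finset ℕ} (hS : ∀ a ∈ S, a < 2 ^ ρ)
    (hr : Rk u S ρ) {G : ℕ → ℕ → ℕ} {F : Finset ℕ → ℚ}
    (hF : ∀ T ⊆ S, Ind u T → ∀ y < 2 ^ ρ, u y = sg u T → F T = G (ρ - T.card) y)
    (d : ℕ) (l : List ℕ) (I : Finset ℕ) (x : ℕ) (sp : List ℕ) (hl : l.Nodup)
    (hlS : ∀ a ∈ l, a ∈ S ∧ a ∉ I) (hI : I ⊆ S) (hi : Ind u I) (hd : I.card + d = ρ)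
    (hx : x < 2 ^ ρ) (hxI : u x = sg u I) (hsp : ∀ a < 2 ^ ρ, a ∈ sp ↔ Sp u I (u a)) :
    (go G d l x sp : ℚ) = SS u (I ∪ l.toFinset) I F := by
  induction l generalizing d I x sp with
  | nil =>
    rw [go_nil, List.toFinset_nil, union_empty,
      SS_self Subset.rfl hi F fun T h1 h2 _ => Subset.antisymm h1 h2, hF I hI hi x hx hxI]
    congr 2; omega
  | cons a l ih =>
    have hsub : I ∪ (a :: l).toFinset ⊆ S :=
      union_subset hI fun b hb => (hlS b (List.mem_toFinset.1 hb)).1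
    cases d with
    | zero =>
      rw [go_zero, SS_self subset_union_left hi F, hF I hI hi x hx hxI]
      · congr 2; omega
      · intro T h1 h2 h3
        refine (eq_of_subset_of_card_le h2 ?_).symm
        have := hr.card_le (h1.trans hsub) h3
        omega
    | succ d =>
      rw [List.nodup_cons] at hl
      obtain ⟨haS, haI⟩ := hlS a (List.mem_cons_self ..)
      have hE1 : (I ∪ (a :: l).toFinset).erase a = I ∪ l.toFinset := by
        ext b
        simp only [mem_erase, mem_union, List.mem_toFinset, List.mem_cons]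
        constructor
        · tauto
        · rintro (h | h)
          · exact ⟨fun h' => haI (h' ▸ h), Or.inl h⟩
          · exact ⟨fun h' => hl.1 (h' ▸ h), Or.inr (Or.inr h)⟩
      have hE2 : I ∪ (a :: l).toFinset = insert a I ∪ l.toFinset := by
        ext b; simp only [mem_union, List.mem_toFinset, List.mem_cons, mem_insert]; tauto
      rw [go_cons, SS_split (e := a) (by simp), hE1,
        ← ih (d + 1) I x sp hl.2 (fun b hb => hlS b (List.mem_cons_of_mem _ hb)) hI hi hd hx hxI hsp]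
      push_cast
      congr 1
      by_cases h : a ∈ sp
      · rw [if_pos h, SS_eq_zero]
        intro T _ hT hTi
        exact absurd ((hsp a (hS a haS)).1 h) ((ind_insert haI).1 (hTi.mono hT)).2
      · rw [if_neg h, hE2]
        have hns : ¬ Sp u I (u a) := fun h' => h ((hsp a (hS a haS)).2 h')
        refine ih d (insert a I) _ _ hl.2 ?_ (insert_subset haS hI) ((ind_insert haI).2 ⟨hi, hns⟩)
          (by rw [card_insert_of_notMem haI]; omega) (Nat.xor_lt_two_pow hx (hS a haS))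
          (by rw [hn.xor, sg_insert haI, hxI, add_comm]) ?_
        · intro b hb
          obtain ⟨h1, h2⟩ := hlS b (List.mem_cons_of_mem _ hb)
          refine ⟨h1, fun h' => ?_⟩
          rcases mem_insert.1 h' with h' | h'
          · exact hl.1 (h' ▸ hb)
          · exact h2 h'
        · intro b hb
          rw [mem_extl, sp_insert, hsp b hb, hsp _ (Nat.xor_lt_two_pow hb (hS a haS)), hn.xor]

theorem allsub_spec {p : List ℕ → Bool} (q : ℕ → Prop) (l acc : List ℕ)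
    (h : allsub p l acc = true) (hnd : (l ++ acc).Nodup) :
    ∃ O, p O = true ∧ O.Nodup ∧ ∀ a, a ∈ O ↔ (a ∈ l ∧ q a) ∨ a ∈ acc := by
  induction l generalizing acc with
  | nil => exact ⟨acc, h, by simpa using hnd, by simp⟩
  | cons b l ih =>
    rw [allsub_cons, Bool.and_eq_true] at h
    by_cases hb : q b
    · obtain ⟨O, h1, h2, h3⟩ := ih (b :: acc) h.2 (List.perm_middle.nodup_iff.2 hnd)
      refine ⟨O, h1, h2, fun a => ?_⟩
      rw [h3]
      simp only [List.mem_cons]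
      constructor
      · rintro (h | rfl | h) <;> tauto
      · tauto
    · obtain ⟨O, h1, h2, h3⟩ := ih acc h.1 (List.nodup_cons.1 hnd).2
      refine ⟨O, h1, h2, fun a => ?_⟩
      rw [h3]
      simp only [List.mem_cons]
      constructor
      · tauto
      · rintro (⟨rfl | h, h'⟩ | h) <;> tauto

theorem orl_and (O : List ℕ) (p : ℕ) : orl O &&& p = 0 ↔ ∀ o ∈ O, o &&& p = 0 := by
  induction O with
  | nil => simp [orl]
  | cons b l ih =>
    show (b ||| orl l) &&& p = 0 ↔ _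
    rw [Nat.and_or_distrib_right, Nat.or_eq_zero_iff, ih]
    simp

theorem cnt_eq (c : ℕ) (l : List ℕ) : cnt c l = (l.filter fun p => c &&& p = 0).length := by
  induction l with
  | nil => rfl
  | cons b l ih =>
    show cond (Nat.beq (c &&& b) 0) (cnt c l + 1) (cnt c l) = _
    rw [List.filter_cons, ih]
    by_cases h : c &&& b = 0
    · simp [h]
    · have : Nat.beq (c &&& b) 0 = false := by
        rw [← Bool.not_eq_true, Nat.beq_eq]; exact h
      simp [h, this]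

theorem sg_list {u : ℕ → V} {ρ : ℕ} (hn : Num u ρ) (l : List ℕ) (hl : l.Nodup) :
    sg u l.toFinset = u (l.foldr (· ^^^ ·) 0) := by
  induction l with
  | nil => simp [hn.zero]
  | cons a l ih =>
    rw [List.nodup_cons] at hl
    rw [List.toFinset_cons, sg_insert (by simpa using hl.1), ih hl.2, List.foldr_cons, hn.xor]

def bl (ρ : ℕ) : List ℕ := [1, 2, 4, 8].take ρ

theorem bl_fold : ∀ ρ ≤ 4, ∀ y < 2 ^ ρ,
    ((bl ρ).filter fun p => y &&& p ≠ 0).foldr (· ^^^ ·) 0 = y := by decide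

theorem bl_nodup : ∀ ρ ≤ 4, (bl ρ).Nodup := by decide

theorem bl_lt : ∀ ρ ≤ 4, ∀ p ∈ bl ρ, p < 2 ^ ρ ∧ p ≠ 0 ∧ (∀ q ∈ bl ρ, q ≠ p → q &&& p = 0) ∧
    ∀ o < 2 ^ ρ, o &&& p ≠ 0 → (o ^^^ p) &&& p = 0 := by decide

theorem sp_bl {u : ℕ → V} {ρ : ℕ} (hρ : ρ ≤ 4) (hn : Num u ρ) {A : Finset ℕ} {y : ℕ}
    (hy : y < 2 ^ ρ) (hA : ∀ p ∈ bl ρ, y &&& p ≠ 0 → p ∈ A) : Sp u A (u y) := by
  refine ⟨((bl ρ).filter fun p => y &&& p ≠ 0).toFinset, ?_, ?_⟩
  · intro p hp
    rw [List.mem_toFinset, List.mem_filter] at hp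
    exact hA p hp.1 (by simpa using hp.2)
  · rw [sg_list hn _ ((bl_nodup ρ hρ).filter _), bl_fold ρ hρ y hy]

theorem colp_num {u : ℕ → V} {ρ : ℕ} (hρ : ρ ≤ 4) (hn : Num u ρ) {S : Finset ℕ} {O : List ℕ}
    (hS : ∀ a ∈ S, a < 2 ^ ρ) (hSO : ∀ a, a ∈ S ↔ a ∈ bl ρ ∨ a ∈ O) (hO : ∀ a ∈ O, a ∉ bl ρ)
    {a : ℕ} (ha : a ∈ S) : Colp u S a ↔ a ∈ bl ρ ∧ orl O &&& a = 0 := by
  rw [orl_and]
  constructor
  · intro hc
    have hab : a ∈ bl ρ := by
      by_contra hn'
      exact hc (sp_bl hρ hn (hS a ha) fun p hp _ =>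
        mem_erase.2 ⟨fun h => hn' (h ▸ hp), (hSO p).2 (Or.inl hp)⟩)
    refine ⟨hab, fun o ho => ?_⟩
    by_contra hne
    have hoS : o ∈ S := (hSO o).2 (Or.inr ho)
    obtain ⟨h1, -, -, h4⟩ := bl_lt ρ hρ a hab
    have h5 : Sp u (S.erase a) (u (o ^^^ a)) :=
      sp_bl hρ hn (Nat.xor_lt_two_pow (hS o hoS) h1) fun p hp hp' =>
        mem_erase.2 ⟨fun h => hp' (h ▸ h4 o (hS o hoS) hne), (hSO p).2 (Or.inl hp)⟩
    rw [hn.xor, add_comm] at h5
    exact hc (h5.of_add (sp_mem (mem_erase.2 ⟨fun h => hO o ho (h ▸ hab), hoS⟩)))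
  · rintro ⟨hab, hz⟩ ⟨T, hT, hTa⟩
    obtain ⟨h1, h2, h3, -⟩ := bl_lt ρ hρ a hab
    have := closed_sg (v := u) (U := fun w => ∃ y < 2 ^ ρ, u y = w ∧ y &&& a = 0)
      ⟨0, by positivity, hn.zero, by simp⟩ ?_ (T := T) ?_
    · obtain ⟨y, hy, hya, hy0⟩ := this
      rw [hTa] at hya
      rw [hn.inj hy h1 hya, Nat.and_self] at hy0
      exact h2 hy0
    · rintro _ _ ⟨y, hy, rfl, hy0⟩ ⟨z, hz', rfl, hz0⟩
      exact ⟨y ^^^ z, Nat.xor_lt_two_pow hy hz', hn.xor y z, by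
        rw [Nat.and_xor_distrib_right, hy0, hz0]; rfl⟩
    · intro x hx
      have hx' := mem_erase.1 (hT hx)
      refine ⟨x, hS x hx'.2, rfl, ?_⟩
      rcases (hSO x).1 hx'.2 with h | h
      · exact h3 x h hx'.1
      · exact hz x h

def om (c : ℚ) (j : ℕ) : ℚ := c / (j + 1)

def om2 (j : ℕ) : ℚ := if j = 2 then 19 / 20 else if j = 3 then 11 / 20 else 3 / 5

theorem SS_le_card {v : ι → V} {E J : Finset ι} {F : Finset ι → ℚ} {c : ℚ} (hc : 0 ≤ c)
    (h : ∀ I, F I ≤ c) : SS v E J F ≤ 2 ^ E.card * c := by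
  unfold SS
  refine (sum_le_card_nsmul _ _ c fun I _ => ?_).trans ?_
  · split_ifs
    · exact h I
    · exact hc
  · rw [card_powerset, nsmul_eq_mul]; push_cast; exact le_rfl

theorem SS_nat {v : ι → V} {E J : Finset ι} {F : Finset ι → ℚ}
    (h : ∀ I ⊆ E, Ind v I → ∃ n : ℕ, F I = n) : ∃ n : ℕ, SS v E J F = n := by
  unfold SS
  refine sum_induction _ (fun q : ℚ => ∃ n : ℕ, q = n) ?_ ⟨0, by simp⟩ ?_
  · rintro _ _ ⟨a, rfl⟩ ⟨b, rfl⟩; exact ⟨a + b, by push_cast; rfl⟩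
  · intro I hI
    split_ifs with h'
    · exact h I (mem_powerset.1 hI) h'.2
    · exact ⟨0, by simp⟩

theorem chk_spec {u : ℕ → V} {ρ : ℕ} (hρ : ρ ≤ 4) (hn : Num u ρ) {S : Finset ℕ}
    (hS : ∀ a ∈ S, a < 2 ^ ρ) (hr : Rk u S ρ) {P : ℕ → ℕ → ℕ → ℕ → Bool} {d : ℕ}
    {Jl Rl : List ℕ} {x0 : ℕ} {sp0 O : List ℕ} (hbl : bl ρ = Jl ++ Rl)
    (hSO : ∀ a, a ∈ S ↔ a ∈ bl ρ ∨ a ∈ O) (hO : ∀ a ∈ O, a ∉ bl ρ) (hOn : O.Nodup)
    (hi : Ind u Jl.toFinset) (hd : Jl.length + d = ρ) (hx : x0 = Jl.foldr (· ^^^ ·) 0)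
    (hx' : x0 < 2 ^ ρ) (hsp : ∀ a < 2 ^ ρ, a ∈ sp0 ↔ Sp u Jl.toFinset (u a))
    (h : chk P ρ d Jl Rl x0 sp0 O = true) :
    ∃ b q1 q2 : ℕ, nb u S Jl.toFinset ρ = b ∧ 24 * Qw u S Jl.toFinset (om (5 / 2)) = q1 ∧
      20 * Qw u S Jl.toFinset om2 = q2 ∧ P (nu u S Jl.toFinset) b q1 q2 = true := by
  have hnd := bl_nodup ρ hρ
  rw [hbl, List.nodup_append] at hnd
  have hSc : S.card ≤ 16 := by
    have : S ⊆ range 16 := fun a ha => mem_range.2 (lt_of_lt_of_le (hS a ha)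
      (by calc 2 ^ ρ ≤ 2 ^ 4 := Nat.pow_le_pow_right (by norm_num) hρ
        _ = 16 := rfl))
    simpa using card_le_card this
  have h16 : (2 : ℚ) ^ S.card ≤ 2 ^ 16 := pow_le_pow_right₀ (by norm_num) hSc
  obtain ⟨b, hb⟩ : ∃ n : ℕ, nb u S Jl.toFinset ρ = n := SS_nat fun I _ _ => by
    unfold fb; split_ifs
    · exact ⟨1, by simp⟩
    · exact ⟨0, by simp⟩
  have hcard : ∀ I ⊆ S, Ind u I → I.card ≤ 4 := fun I hI hi' => (hr.card_le hI hi').trans hρ
  obtain ⟨q1, hq1⟩ : ∃ n : ℕ, 24 * Qw u S Jl.toFinset (om (5 / 2)) = n := by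
    unfold Qw
    rw [← SS_mul]
    refine SS_nat fun I hI hi' => ?_
    have := hcard I hI hi'
    unfold fq om; split_ifs with h'
    · have h2 := h'.1
      interval_cases I.card
      · exact ⟨20, by norm_num⟩
      · exact ⟨15, by norm_num⟩
      · exact ⟨12, by norm_num⟩
    · exact ⟨0, by simp⟩
  obtain ⟨q2, hq2⟩ : ∃ n : ℕ, 20 * Qw u S Jl.toFinset om2 = n := by
    unfold Qw
    rw [← SS_mul]
    refine SS_nat fun I _ _ => ?_
    unfold fq om2; split_ifs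
    · exact ⟨19, by norm_num⟩
    · exact ⟨11, by norm_num⟩
    · exact ⟨12, by norm_num⟩
    · exact ⟨0, by simp⟩
  have hbK : b < 2 ^ 32 := by
    have := SS_le_card (v := u) (E := S) (J := Jl.toFinset) (F := fb ρ) (c := 1) (by norm_num)
      fun I => by unfold fb; split_ifs <;> norm_num
    have h2 : (b : ℚ) < 2 ^ 32 := by rw [← hb]; unfold nb; linarith
    exact_mod_cast h2
  have hqK : q1 < 2 ^ 32 := by
    have := SS_le_card (v := u) (E := S) (J := Jl.toFinset) (F := fq u S (om (5 / 2))) (c := 5 / 2)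
      (by norm_num) fun I => by
        unfold fq om; split_ifs
        · exact div_le_self (by norm_num) (by linarith [Nat.cast_nonneg (α := ℚ) I.card])
        · norm_num
    have h2 : (q1 : ℚ) < 2 ^ 32 := by rw [← hq1]; unfold Qw; linarith
    exact_mod_cast h2
  refine ⟨b, q1, q2, hb, hq1, hq2, ?_⟩
  have hSeq : Jl.toFinset ∪ (Rl ++ O).toFinset = S := by
    ext a; rw [hSO, hbl]; simp [or_assoc]
  have hmem : ∀ a, bit (msk (Jl ++ (Rl ++ O))) a = true ↔ a ∈ S := by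
    intro a; rw [bit_msk, hSO, hbl]; simp [or_assoc]
  have hgo := go_spec hn hS hr (G := GG ρ (msk (Jl ++ (Rl ++ O))))
    (F := fun T => fb ρ T + (2 ^ 32 * 24 * fq u S (om (5 / 2)) T + 2 ^ 64 * 20 * fq u S om2 T))
    ?_ d (Rl ++ O) Jl.toFinset x0 sp0 ?_ ?_ ?_ hi
    (by rw [List.toFinset_card_of_nodup hnd.1, hd]) hx' (by rw [sg_list hn _ hnd.1, hx]) hsp
  · rw [hSeq, SS_add, SS_add, SS_mul, SS_mul] at hgo
    have hN : go (GG ρ (msk (Jl ++ (Rl ++ O)))) d (Rl ++ O) x0 sp0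
        = b + 2 ^ 32 * q1 + 2 ^ 64 * q2 := by
      have : (go (GG ρ (msk (Jl ++ (Rl ++ O)))) d (Rl ++ O) x0 sp0 : ℚ)
          = b + 2 ^ 32 * q1 + 2 ^ 64 * q2 := by
        rw [hgo, ← hb, ← hq1, ← hq2]; unfold nb Qw; ring
      exact_mod_cast this
    have hnu : nu u S Jl.toFinset = cnt (orl O) Rl := by
      rw [cnt_eq, ← List.toFinset_card_of_nodup (hnd.2.1.filter _)]
      unfold nu
      congr 1
      ext a
      simp only [mem_filter, List.mem_toFinset, List.mem_filter, decide_eq_true_eq]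
      constructor
      · rintro ⟨h1, h2, h3⟩
        rw [colp_num hρ hn hS hSO hO h1, hbl, List.mem_append] at h3
        exact ⟨h3.1.resolve_left h2, h3.2⟩
      · rintro ⟨h1, h2⟩
        have h3 : a ∈ bl ρ := by rw [hbl]; exact List.mem_append_right _ h1
        have h4 : a ∈ S := (hSO a).2 (Or.inl h3)
        exact ⟨h4, fun h5 => hnd.2.2 a h5 a h1 rfl, (colp_num hρ hn hS hSO hO h4).2 ⟨h3, h2⟩⟩
    unfold chk at h
    rw [force_eq, force_eq, force_eq, hN, ← hnu] at h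
    have e1 : (b + 2 ^ 32 * q1 + 2 ^ 64 * q2) % 2 ^ 32 = b := by omega
    have e2 : (b + 2 ^ 32 * q1 + 2 ^ 64 * q2) / 2 ^ 32 % 2 ^ 32 = q1 := by omega
    have e3 : (b + 2 ^ 32 * q1 + 2 ^ 64 * q2) / 2 ^ 64 = q2 := by omega
    rw [e1, e2, e3] at h
    cases hP : P (nu u S Jl.toFinset) b q1 q2
    · rw [hP] at h; exact absurd h (by decide)
    · rfl
  · intro T hT hTi y hy hyT
    have hc := hr.card_le hT hTi
    have hc4 := hcard T hT hTi
    have hpt : Pt u S (sg u T) ↔ bit (msk (Jl ++ (Rl ++ O))) y = true := by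
      rw [hmem, ← hyT]
      exact ⟨fun ⟨x, hx1, hx2⟩ => hn.inj (hS x hx1) hy hx2 ▸ hx1, fun h' => ⟨y, h', rfl⟩⟩
    have e0 : Nat.sub ρ (ρ - T.card) = T.card := by
      show ρ - (ρ - T.card) = T.card
      omega
    have e1 : (cond (Nat.beq (ρ - T.card) 0) 1 0 : ℕ) = if T.card = ρ then 1 else 0 := by
      by_cases h' : T.card = ρ
      · simp [h']
      · have : Nat.beq (ρ - T.card) 0 = false := by
          rw [← Bool.not_eq_true, Nat.beq_eq]; omega
        simp [h', this]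
    show _ = ((cond _ _ _ + cond _ _ _ : ℕ) : ℚ)
    rw [e0, e1]
    unfold fb fq
    simp only [hpt]
    push_cast
    congr 1
    cases bit (msk (Jl ++ (Rl ++ O))) y
    · simp
    · generalize T.card = c at *
      interval_cases c <;> simp [Wc, om, om2] <;> norm_num
  · rw [List.nodup_append]
    refine ⟨hnd.2.1, hOn, fun a ha b hb hab => hO b hb ?_⟩
    rw [hbl, ← hab]; exact List.mem_append_right _ ha
  · intro a ha
    rw [← hSeq]
    refine ⟨mem_union_right _ (List.mem_toFinset.2 ha), fun h' => ?_⟩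
    rw [List.mem_toFinset] at h'
    rcases List.mem_append.1 ha with h1 | h1
    · exact hnd.2.2 a h' a h1 rfl
    · exact hO a h1 (by rw [hbl]; exact List.mem_append_left _ h')
  · rw [← hSeq]; exact subset_union_left

end Pool.Agent.Lib.MP_72f2f8_co
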