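import Pool.Agent.Lib.MP_72f2f8_co.Iso

set_option autoImplicit false
set_option linter.unusedSectionVars false

namespace Pool.Agent.Lib.MP_72f2f8_co
open Finset
open scoped Classical

variable {ι : Type*} [DecidableEq ι] {V : Type*} [AddCommGroup V] [Module (ZMod 2) V]

noncomputable def OO (v : ι → V) (E I : Finset ι) : Finset ι := E.filter fun e => ¬ Sp v I (v e)

noncomputable def AA (v : ι → V) (E I : Finset ι) (w : V) : Finset ι :=
  E.filter fun e => Sp v I (v e + w)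

def CS (v : ι → V) (E : Finset ι) : Prop :=
  ∀ f ∈ E, ∀ x ∈ E, Sp v ((E.erase f).erase x) (v x)

theorem cogirth {v : ι → V} {E : Finset ι} (hcs : CS v E) {U : V → Prop} (h0 : U 0)
    (hadd : ∀ a b, U a → U b → U (a + b)) {x : ι} (hx : x ∈ E) (hU : ¬ U (v x))
    {S : Finset ι} (hSE : S ⊆ E) (hS : ∀ e ∈ E, ¬ U (v e) → e ∈ S) : 3 ≤ S.card := by
  by_contra hn
  have hxS : x ∈ S := hS x hx hU
  have h1 : (S.erase x).card ≤ 1 := by
    rw [card_erase_of_mem hxS]; omega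
  obtain ⟨f, hf, hf'⟩ : ∃ f ∈ E, ∀ y ∈ S.erase x, y = f := by
    rcases (S.erase x).eq_empty_or_nonempty with h | ⟨f, hf⟩
    · exact ⟨x, hx, by rw [h]; simp⟩
    · exact ⟨f, hSE (mem_of_mem_erase hf), fun y hy => card_le_one.1 h1 y hy f hf⟩
  obtain ⟨T, hT, hTx⟩ := hcs f hf x hx
  apply hU
  rw [← hTx]
  refine closed_sg h0 hadd fun y hy => ?_
  by_contra hy'
  have h2 := hT hy
  rw [mem_erase, mem_erase] at h2
  exact h2.2.1 (hf' y (mem_erase.2 ⟨h2.1, hS y h2.2.2 hy'⟩))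

theorem pair_bound {v : ι → V} {E I : Finset ι} (hcs : CS v E) {a b c : V}
    (hcov : ∀ e ∈ E, Sp v I (v e) ∨ Sp v I (v e + a) ∨ Sp v I (v e + b) ∨ Sp v I (v e + c))
    {x : ι} (hx : x ∈ E) (h1 : ¬ Sp v I (v x)) (h2 : ¬ Sp v I (v x + a)) :
    3 ≤ (AA v E I b).card + (AA v E I c).card := by
  refine le_trans (cogirth hcs (U := fun w => Sp v I w ∨ Sp v I (w + a)) (Or.inl (sp_zero v I))
    ?_ hx (fun h => h.elim h1 h2) (union_subset (filter_subset _ _) (filter_subset _ _)) ?_)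
    (card_union_le _ _)
  · rintro p q (hp | hp) (hq | hq)
    · exact Or.inl (hp.add hq)
    · exact Or.inr (by rw [add_assoc]; exact hp.add hq)
    · exact Or.inr (by rw [add_right_comm]; exact hp.add hq)
    · left
      have h3 := hp.add hq
      rwa [add_add_add_comm, a2, add_zero] at h3
  · intro e he he'
    rcases hcov e he with h | h | h | h
    · exact absurd (Or.inl h) he'
    · exact absurd (Or.inr h) he'
    · exact mem_union_left _ (mem_filter.2 ⟨he, h⟩)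
    · exact mem_union_right _ (mem_filter.2 ⟨he, h⟩)

/-- lower bounds for the weight of sets closed under moves -/
def Psi (v : ι → V) (E C : Finset ι) (t : ι → ℚ) (p1 p2 p3 : ℚ) : Prop :=
  ∀ A ⊆ E, (∀ e ∈ A, ∀ x ∈ C, ∀ y ∈ E, v y = v e + v x → y ∈ A) →
    (1 ≤ A.card → p1 ≤ ∑ e ∈ A, t e) ∧ (2 ≤ A.card → p2 ≤ ∑ e ∈ A, t e) ∧
      (3 ≤ A.card → p3 ≤ ∑ e ∈ A, t e)

theorem AA_closed {v : ι → V} {E C I : Finset ι} (hC : ∀ x ∈ C, Sp v I (v x)) (w : V) :
    ∀ e ∈ AA v E I w, ∀ x ∈ C, ∀ y ∈ E, v y = v e + v x → y ∈ AA v E I w := by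
  intro e he x hx y hy h
  refine mem_filter.2 ⟨hy, ?_⟩
  rw [h, add_right_comm]
  exact (mem_filter.1 he).2.add (hC x hx)

theorem AA_sub {v : ι → V} {E I : Finset ι} {w : V} (hw : ¬ Sp v I w) : AA v E I w ⊆ OO v E I := by
  intro e he
  rw [AA, mem_filter] at he
  refine mem_filter.2 ⟨he.1, fun h => hw ?_⟩
  have := he.2
  rw [add_comm] at this
  exact this.of_add h

theorem AA_disj {v : ι → V} {E I : Finset ι} {w w' : V} (hw : ¬ Sp v I (w + w')) :
    Disjoint (AA v E I w) (AA v E I w') := by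
  refine disjoint_filter.2 fun e _ h h' => hw ?_
  have := h.add h'
  rwa [add_add_add_comm, a2, zero_add] at this

theorem local_bound {v : ι → V} {E C : Finset ι} {R : ℕ} (hr : Rk v E R) (hcs : CS v E)
    {t : ι → ℚ} (ht : ∀ e, 0 ≤ t e) {p1 p2 p3 m : ℚ} (hψ : Psi v E C t p1 p2 p3)
    (h1 : m ≤ 2 * p3) (h2 : m ≤ p1 + 2 * p2) (z : ℕ) {I : Finset ι} (hI : I ⊆ E) (hi : Ind v I)
    (hc : I.card + z + 2 = R) (hC : ∀ x ∈ C, Sp v I (v x)) :
    m + z * p1 ≤ ∑ e ∈ OO v E I, t e := by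
  induction z generalizing I with
  | zero =>
    obtain ⟨y1, hy1, s1⟩ := hr.exists_not_sp (I := I) (by omega)
    obtain ⟨i1, n1⟩ := ind_insert_of hi s1
    obtain ⟨y2, hy2, s2⟩ := hr.exists_not_sp (I := insert y1 I)
      (by rw [card_insert_of_notMem n1]; omega)
    obtain ⟨i2, n2⟩ := ind_insert_of i1 s2
    have hcov : ∀ e ∈ E, Sp v I (v e) ∨ Sp v I (v e + v y1) ∨ Sp v I (v e + v y2) ∨
        Sp v I (v e + (v y2 + v y1)) := by
      intro e he
      have := hr.sp (insert_subset hy2 (insert_subset hy1 hI)) i2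
        (by rw [card_insert_of_notMem n2, card_insert_of_notMem n1]; omega) he
      rw [sp_insert, sp_insert, sp_insert, add_assoc] at this
      tauto
    rw [sp_insert, not_or] at s2
    obtain ⟨s2, s3⟩ := s2
    have e1 : v y1 + (v y2 + v y1) = v y2 := by rw [add_left_comm, a2, add_zero]
    have e2 : v y2 + (v y2 + v y1) = v y1 := by rw [← add_assoc, a2, zero_add]
    have b1 := pair_bound hcs hcov hy2 s2 s3
    have b2 := pair_bound hcs (a := v y2) (b := v y1) (c := v y2 + v y1)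
      (fun e he => by have := hcov e he; tauto) hy1 s1 (by rwa [add_comm])
    have b3 := pair_bound hcs (a := v y2 + v y1) (b := v y1) (c := v y2)
      (fun e he => by have := hcov e he; tauto) hy1 s1 (by rwa [e1])
    have hsum : ∑ e ∈ AA v E I (v y1), t e + ∑ e ∈ AA v E I (v y2), t e +
        ∑ e ∈ AA v E I (v y2 + v y1), t e ≤ ∑ e ∈ OO v E I, t e := by
      rw [← sum_union (AA_disj (by rwa [add_comm])), ← sum_union
        (disjoint_union_left.2 ⟨AA_disj (by rwa [e1]), AA_disj (by rwa [e2])⟩)]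
      exact sum_le_sum_of_subset_of_nonneg
        (union_subset (union_subset (AA_sub s1) (AA_sub s2)) (AA_sub s3)) fun e _ _ => ht e
    have k1 := hψ _ (filter_subset _ _) (AA_closed hC (v y1))
    have k2 := hψ _ (filter_subset _ _) (AA_closed hC (v y2))
    have k3 := hψ _ (filter_subset _ _) (AA_closed hC (v y2 + v y1))
    have l1 : 0 ≤ ∑ e ∈ AA v E I (v y1), t e := sum_nonneg fun e _ => ht e
    have l2 : 0 ≤ ∑ e ∈ AA v E I (v y2), t e := sum_nonneg fun e _ => ht e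
    have l3 : 0 ≤ ∑ e ∈ AA v E I (v y2 + v y1), t e := sum_nonneg fun e _ => ht e
    change (1 ≤ (AA v E I (v y1)).card → _ ≤ ∑ e ∈ AA v E I (v y1), t e) ∧
      (2 ≤ (AA v E I (v y1)).card → _ ≤ ∑ e ∈ AA v E I (v y1), t e) ∧
      (3 ≤ (AA v E I (v y1)).card → _ ≤ ∑ e ∈ AA v E I (v y1), t e) at k1
    change (1 ≤ (AA v E I (v y2)).card → _ ≤ ∑ e ∈ AA v E I (v y2), t e) ∧
      (2 ≤ (AA v E I (v y2)).card → _ ≤ ∑ e ∈ AA v E I (v y2), t e) ∧
      (3 ≤ (AA v E I (v y2)).card → _ ≤ ∑ e ∈ AA v E I (v y2), t e) at k2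
    change (1 ≤ (AA v E I (v y2 + v y1)).card → _ ≤ ∑ e ∈ AA v E I (v y2 + v y1), t e) ∧
      (2 ≤ (AA v E I (v y2 + v y1)).card → _ ≤ ∑ e ∈ AA v E I (v y2 + v y1), t e) ∧
      (3 ≤ (AA v E I (v y2 + v y1)).card → _ ≤ ∑ e ∈ AA v E I (v y2 + v y1), t e) at k3
    generalize (AA v E I (v y1)).card = a at *
    generalize (AA v E I (v y2)).card = b at *
    generalize (AA v E I (v y2 + v y1)).card = c at *
    push_cast
    by_cases c1 : 3 ≤ a ∧ 3 ≤ b
    · have := k1.2.2 c1.1; have := k2.2.2 c1.2; linarith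
    by_cases c2 : 3 ≤ a ∧ 3 ≤ c
    · have := k1.2.2 c2.1; have := k3.2.2 c2.2; linarith
    by_cases c3 : 3 ≤ b ∧ 3 ≤ c
    · have := k2.2.2 c3.1; have := k3.2.2 c3.2; linarith
    by_cases c4 : 2 ≤ a ∧ 2 ≤ b
    · have := k1.2.1 c4.1; have := k2.2.1 c4.2; have := k3.1 (by omega); linarith
    by_cases c5 : 2 ≤ a ∧ 2 ≤ c
    · have := k1.2.1 c5.1; have := k3.2.1 c5.2; have := k2.1 (by omega); linarith
    · have := k2.2.1 (by omega); have := k3.2.1 (by omega); have := k1.1 (by omega); linarith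
  | succ z ih =>
    obtain ⟨y, hy, s1⟩ := hr.exists_not_sp (I := I) (by omega)
    obtain ⟨i1, n1⟩ := ind_insert_of hi s1
    have k1 := ih (insert_subset hy hI) i1 (by rw [card_insert_of_notMem n1]; omega)
      fun x hx => (hC x hx).mono (subset_insert y I)
    have k2 := (hψ _ (filter_subset _ _) (AA_closed hC (v y))).1
      (card_pos.2 ⟨y, mem_filter.2 ⟨hy, by rw [a2]; exact sp_zero v I⟩⟩)
    have hsum : ∑ e ∈ OO v E (insert y I), t e + ∑ e ∈ AA v E I (v y), t e ≤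
        ∑ e ∈ OO v E I, t e := by
      have hd : Disjoint (OO v E (insert y I)) (AA v E I (v y)) :=
        disjoint_filter.2 fun e _ h h' => h (sp_insert.2 (Or.inr h'))
      rw [← sum_union hd]
      refine sum_le_sum_of_subset_of_nonneg (union_subset ?_ (AA_sub s1)) fun e _ _ => ht e
      intro e he
      rw [OO, mem_filter] at he
      exact mem_filter.2 ⟨he.1, fun h => he.2 (h.mono (subset_insert y I))⟩
    change _ ≤ ∑ e ∈ AA v E I (v y), t e at k2
    push_cast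
    linarith

theorem OO_erase {v : ι → V} (E : Finset ι) {C : Finset ι} (h : Circ v C) {x : ι} (hx : x ∈ C) :
    OO v E (C.erase x) = OO v E C := by
  unfold OO
  simp only [h.sp_erase hx]

theorem local_circ {v : ι → V} {E C : Finset ι} {R : ℕ} (hr : Rk v E R) (hcs : CS v E)
    (hC : C ∈ CC v E) {t : ι → ℚ} (ht : ∀ e, 0 ≤ t e) {p1 p2 p3 m : ℚ}
    (hψ : Psi v E C t p1 p2 p3) (h1 : m ≤ 2 * p3) (h2 : m ≤ p1 + 2 * p2) (z : ℕ)
    (hc : C.card + z + 1 = R) : m + z * p1 ≤ ∑ e ∈ OO v E C, t e := by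
  rw [mem_CC] at hC
  obtain ⟨x, hx⟩ := hC.2.1
  rw [← OO_erase E hC.2 hx]
  have := card_pos.2 hC.2.1
  exact local_bound hr hcs ht hψ h1 h2 z ((erase_subset x C).trans hC.1) (hC.2.2.2 x hx)
    (by rw [card_erase_of_mem hx]; omega) fun y hy => (hC.2.sp_erase hx).2 (sp_mem hy)

theorem OO_three {v : ι → V} {E C : Finset ι} {R : ℕ} (hr : Rk v E R) (hcs : CS v E)
    (hC : C ∈ CC v E) (hc : C.card ≤ R) : 3 ≤ (OO v E C).card := by
  rw [mem_CC] at hC
  obtain ⟨x, hx⟩ := hC.2.1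
  have := card_pos.2 hC.2.1
  obtain ⟨y, hy, s1⟩ := hr.exists_not_sp (I := C.erase x) (by rw [card_erase_of_mem hx]; omega)
  exact cogirth hcs (sp_zero v C) (fun _ _ => Sp.add) hy (by rwa [hC.2.sp_erase hx] at s1)
    (filter_subset _ _) fun e he h => mem_filter.2 ⟨he, h⟩

theorem OO_closed (v : ι → V) (E C : Finset ι) :
    ∀ e ∈ OO v E C, ∀ x ∈ C, ∀ y ∈ E, v y = v e + v x → y ∈ OO v E C := by
  intro e he x hx y hy h
  refine mem_filter.2 ⟨hy, fun h' => (mem_filter.1 he).2 ?_⟩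
  rw [h] at h'
  exact h'.of_add (sp_mem hx)

theorem OO_empty {v : ι → V} {E C : Finset ι} {R : ℕ} (hr : Rk v E R)
    (hC : C ∈ CC v E) (hc : C.card = R + 1) : OO v E C = ∅ := by
  rw [mem_CC] at hC
  obtain ⟨x, hx⟩ := hC.2.1
  refine filter_eq_empty_iff.2 fun e he h => h ?_
  exact (hr.sp ((erase_subset x C).trans hC.1) (hC.2.2.2 x hx)
    (by rw [card_erase_of_mem hx]; omega) he).mono (erase_subset x C)

end Pool.Agent.Lib.MP_72f2f8_co
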