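import Pool.Agent.Lib.MP_72f2f8_co.StepE

set_option autoImplicit false
set_option linter.unusedSectionVars false

namespace Pool.Agent.Lib.MP_72f2f8_co
open Finset
open scoped Classical

variable {ι : Type*} [DecidableEq ι]

theorem wstd_iff {V : Type*} [AddCommGroup V] [Module (ZMod 2) V] {v : ι → V} {E : Finset ι}
    (hs : Simp v E) (r : ℕ) : Wstd v E r ↔ Sstd v E r := by
  unfold Wstd WW Sstd
  rw [Qw_om, Qw_one hs, hs.n2_eq]
  push_cast
  constructor <;> intro h <;> linarith

theorem main_ind (n : ℕ) : ∀ (V : Type) [AddCommGroup V] [Module (ZMod 2) V] (v : ι → V)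
    (E : Finset ι) (r : ℕ), E.card = n → Rk v E r →
    (4 ≤ r → (∀ x ∈ E, ¬ Colp v E x) → Wstd v E r) ∧ (Simp v E → Splus v E r) := by
  induction n using Nat.strong_induction_on with
  | _ n ih =>
  intro V _ _ v E r hn hr
  have lt1 : ∀ e ∈ E, (E.erase e).card < n := fun e he => hn ▸ card_erase_lt_of_mem he
  have lt2 : ∀ e ∈ E, ∀ f, ((E.erase e).erase f).card < n := fun e he f =>
    card_erase_le.trans_lt (lt1 e he)
  have hW : 4 ≤ r → (∀ x ∈ E, ¬ Colp v E x) → Wstd v E r := by
    intro hr4 hnc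
    rcases hr4.eq_or_lt with rfl | h5
    · have := (rank4 hr hnc).1
      unfold Wstd
      convert this using 2 <;> norm_num
    obtain ⟨r, rfl⟩ : ∃ r', r = r' + 1 := ⟨r - 1, by omega⟩
    have hr4' : 4 ≤ r := by omega
    by_cases hl : ∃ e ∈ E, v e = 0
    · obtain ⟨e, he, h0⟩ := hl
      have := (ih _ (lt1 e he) V v _ _ rfl (hr.erase (hnc e he))).1 hr4 fun x hx => by
        rw [colp_erase_loop h0]; exact hnc x (mem_of_mem_erase hx)
      unfold Wstd WW nb at this ⊢
      rwa [Qw_erase_loop h0, n2_erase_loop h0, SS_erase_loop h0] at this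
    push Not at hl
    have hctr : ∀ e ∈ E, Wstd (ctr v (v e)) (E.erase e) r := fun e he =>
      (ih _ (lt1 e he) _ _ _ _ rfl (hr.ctr he (hl e he))).1 hr4' fun x hx =>
        not_colp_ctr (hnc x (mem_of_mem_erase hx))
    by_cases hp : ∃ e ∈ E, ∃ e' ∈ E, e' ≠ e ∧ v e' = v e
    · obtain ⟨e, he, e', he', hne, hp⟩ := hp
      by_cases hc : Colp v (E.erase e) e'
      · exact stepA2 hr4' hr hnc he he' hne hp hc fun h1 h2 =>
          (ih _ (lt2 e he e') V v _ _ rfl h1).1 hr4' h2
      · refine stepA1 hr4' hr he he' hne hp (hl e he)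
          ((ih _ (lt1 e he) V v _ _ rfl (hr.erase (hnc e he))).1 hr4 fun x hx => ?_) (hctr e he)
        by_cases hx' : x = e'
        · rwa [hx']
        · rw [colp_erase_par he' hne hp hx']; exact hnc x (mem_of_mem_erase hx)
    have hs : Simp v E := ⟨hl, fun x hx y hy h => by
      by_contra hne
      exact hp ⟨y, hy, x, hx, hne, h⟩⟩
    rw [wstd_iff hs]
    by_cases hcs : CS v E
    · refine stepD hr4' hr hs hcs hnc (fun e he => ?_) hctr
      rw [← wstd_iff (hs.mono (erase_subset e E))]
      exact (ih _ (lt1 e he) V v _ _ rfl (hr.erase (hnc e he))).1 hr4 fun x hx =>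
        not_not.2 (hcs e he x (mem_of_mem_erase hx))
    · unfold CS at hcs
      push Not at hcs
      obtain ⟨f, hf, e, he, hc⟩ := hcs
      have hef : e ≠ f := by
        rintro rfl
        rw [erase_idem] at hc
        exact hnc e he hc
      refine stepB hr4' hr hs hnc hf (mem_erase.2 ⟨hef, he⟩) hc (hctr f hf)
        ((ih _ (lt1 f hf) V v _ _ rfl (hr.erase (hnc f hf))).2 (hs.mono (erase_subset f E)))
        fun h1 h2 => ?_
      rw [← wstd_iff (hs.mono ((erase_subset _ _).trans (erase_subset f E)))]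
      exact (ih _ (lt2 f hf e) V v _ _ rfl h1).1 hr4' h2
  refine ⟨hW, fun hs => ?_⟩
  by_cases hnc : ∀ x ∈ E, ¬ Colp v E x
  · by_cases hr4 : 4 ≤ r
    · have h1 := (wstd_iff hs r).1 (hW hr4 hnc)
      unfold Sstd at h1
      unfold Splus
      have : (4 : ℚ) ≤ r := by exact_mod_cast hr4
      have : (0 : ℚ) ≤ (CC v E).card := by positivity
      nlinarith
    · have := (rank3_simple (by omega) hs hr hnc).1
      rwa [Qw_one hs] at this
  · push Not at hnc
    obtain ⟨x, hx, hc⟩ := hnc
    obtain ⟨r', rfl, h1, h2⟩ := hr.erase_colp hx hc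
    have := (ih _ (lt1 x hx) V v _ _ rfl h1).2 (hs.mono (erase_subset x E))
    unfold Splus at this ⊢
    rw [h2]
    rwa [CC_erase, filter_true_of_mem fun C hC =>
      hc.not_mem (mem_CC.1 hC).1 (mem_CC.1 hC).2.2.1] at this

theorem main_fin {V : Type} [AddCommGroup V] [Module (ZMod 2) V] {v : ι → V} {E : Finset ι}
    {r : ℕ} (hr : Rk v E r) (hs : Simp v E) (hnc : ∀ x ∈ E, ¬ Colp v E x) :
    (r + 1) * (CC v E).card ≤ 2 * (E.powerset.filter fun I => Ind v I ∧ I.card = r).card := by
  have key : ((r : ℚ) + 1) * (CC v E).card ≤ 2 * nb v E ∅ r := by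
    by_cases hr4 : 4 ≤ r
    · have h1 := (wstd_iff hs r).1 ((main_ind _ V v E r rfl hr).1 hr4 hnc)
      unfold Sstd at h1
      have : (0 : ℚ) ≤ r := by positivity
      linarith
    · have := (rank3_simple (by omega) hs hr hnc).2
      rwa [Qw_one hs] at this
  rw [nb_eq_card] at key
  exact_mod_cast key

theorem li_iff_ind {V : Type*} [AddCommGroup V] [Module (ZMod 2) V] (v : ι → V) (I : Finset ι) :
    LinearIndependent (ZMod 2) (fun x : (I : Set ι) => v x) ↔ Ind v I := by
  change LinearIndepOn (ZMod 2) v (I : Set ι) ↔ _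
  rw [linearIndepOn_iff']
  constructor
  · intro h T hT h0
    by_contra hne
    obtain ⟨x, hx⟩ := nonempty_iff_ne_empty.2 hne
    exact one_ne_zero (h T (fun _ => 1) (coe_subset.2 hT) (by simpa [sg] using h0) x hx)
  · intro h T g hT h0 x hx
    have h1 : sg v (T.filter fun y => g y = 1) = 0 := by
      rw [← h0, sg, sum_filter]
      refine sum_congr rfl fun y _ => ?_
      rcases zmod2_cases (g y) with h | h <;> simp [h]
    have h2 := h _ ((filter_subset _ _).trans (coe_subset.1 hT)) h1
    rcases zmod2_cases (g x) with h | h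
    · exact h
    · exact absurd h (filter_eq_empty_iff.1 h2 hx)

end Pool.Agent.Lib.MP_72f2f8_co
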