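import Pool.Agent.Lib.MP_72f2f8_co.StepD

set_option autoImplicit false
set_option linter.unusedSectionVars false

namespace Pool.Agent.Lib.MP_72f2f8_co

theorem HB.nonneg {s : ℕ} {h : ℚ} (H : HB s h) : 0 ≤ h := by
  rcases H with ⟨-, rfl⟩ | ⟨-, rfl⟩ <;> positivity

theorem HB.one {h : ℚ} (H : HB 1 h) : h = 0 := by
  rcases H with ⟨-, rfl⟩ | ⟨h, -⟩
  · simp [Ht]
  · omega

theorem HB.two {h : ℚ} (H : HB 2 h) : h = 2 := by
  rcases H with ⟨-, rfl⟩ | ⟨h, -⟩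
  · simp [Ht]
  · omega

theorem HB.big {s : ℕ} {h : ℚ} (H : HB s h) (hs : 3 ≤ s) :
    5 * h ≤ 24 * (s - 2) ∨ 5 * h ≤ 2 * s * (s - 2) := by
  rcases H with ⟨h1, rfl⟩ | ⟨h1, rfl⟩
  · interval_cases s <;> simp [Ht] <;> norm_num
  · right
    have : (32 : ℚ) ≤ s := by exact_mod_cast h1
    nlinarith

theorem num_std5 {k : ℚ} (hk : 5 ≤ k) (s : ℕ) (D h : ℚ) (H : HB s h) (h0 : 0 ≤ D)
    (h1 : D ≤ k * s) (h2 : (k - 1) * D ≤ k * h) :
    (1 ≤ s → 1 ≤ 1 / k * (k * s - D) + 1 / (k * (k + 1)) * D) ∧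
    (2 ≤ s → 3 / 2 ≤ 1 / k * (k * s - D) + 1 / (k * (k + 1)) * D) ∧
    (3 ≤ s → 2 ≤ 1 / k * (k * s - D) + 1 / (k * (k + 1)) * D) := by
  have e : 1 / k * (k * s - D) + 1 / (k * (k + 1)) * D = s - D / (k + 1) := by
    field_simp; ring
  have hh := H.nonneg
  have h3 : 4 * D ≤ 5 * h := by
    by_contra hn
    push Not at hn
    nlinarith
  have key : ∀ p : ℚ, D ≤ (s - p) * (k + 1) → p ≤ s - D / (k + 1) := by
    intro p hp
    have := (div_le_iff₀ (by linarith : 0 < k + 1)).2 hp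
    linarith
  have c3 : 3 ≤ s → 2 ≤ s - D / (k + 1) := by
    intro hs
    have hs' : (3 : ℚ) ≤ s := by exact_mod_cast hs
    apply key
    by_cases hb : 2 * (k + 1) ≤ s
    · nlinarith
    · push Not at hb
      rcases H.big hs with h4 | h4 <;> nlinarith
  have c2 : 2 ≤ s → 3 / 2 ≤ s - D / (k + 1) := by
    intro hs
    rcases hs.eq_or_lt with rfl | hs
    · apply key
      rw [H.two] at h3
      push_cast
      linarith
    · have := c3 hs; linarith
  rw [e]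
  refine ⟨fun hs => ?_, c2, c3⟩
  rcases hs.eq_or_lt with rfl | hs
  · apply key
    rw [H.one] at h3
    push_cast
    linarith
  · have := c2 hs; linarith

theorem num_lin {k a b p1 p2 p3 : ℚ} (N : ℕ) (hN : N ≤ 32) (hab : b ≤ a) (hk : 1 < k)
    (hb : 0 ≤ b) (q1 : p1 ≤ p2) (q2 : p2 ≤ p3) (hbig : p3 ≤ b * k * N)
    (hsmall : ∀ s < N, (1 ≤ s → p1 ≤ a * k * s - (a - b) * (k / (k - 1) * Ht s)) ∧
      (2 ≤ s → p2 ≤ a * k * s - (a - b) * (k / (k - 1) * Ht s)) ∧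
      (3 ≤ s → p3 ≤ a * k * s - (a - b) * (k / (k - 1) * Ht s)))
    (s : ℕ) (D h : ℚ) (H : HB s h) (h0 : 0 ≤ D) (h1 : D ≤ k * s) (h2 : (k - 1) * D ≤ k * h) :
    (1 ≤ s → p1 ≤ a * (k * s - D) + b * D) ∧ (2 ≤ s → p2 ≤ a * (k * s - D) + b * D) ∧
    (3 ≤ s → p3 ≤ a * (k * s - D) + b * D) := by
  by_cases hs : s < N
  · have hh : h = Ht s := by
      rcases H with ⟨-, h⟩ | ⟨h, -⟩
      · exact h
      · omega
    have h3 : D ≤ k / (k - 1) * Ht s := by
      rw [div_mul_eq_mul_div, le_div_iff₀ (by linarith), ← hh]; linarith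
    have h4 := mul_le_mul_of_nonneg_left h3 (sub_nonneg.2 hab)
    obtain ⟨c1, c2, c3⟩ := hsmall s hs
    exact ⟨fun h => by have := c1 h; linarith, fun h => by have := c2 h; linarith,
      fun h => by have := c3 h; linarith⟩
  · have h3 : (N : ℚ) ≤ s := by exact_mod_cast not_lt.1 hs
    have h4 := mul_le_mul_of_nonneg_left h1 (sub_nonneg.2 hab)
    have h5 := mul_le_mul_of_nonneg_left h3 (show 0 ≤ b * k by positivity)
    exact ⟨fun _ => by linarith, fun _ => by linarith, fun _ => by linarith⟩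

theorem num_top_std {R : ℚ} (hR : 6 ≤ R) {s : ℕ} (hs : 3 ≤ s) {y h : ℚ} (H : HB s h)
    (hy : 0 ≤ y) (h2 : (R - 1) * (R * s - y) ≤ R * h) :
    (4 * R + 1) * (R + 1) * s ≤ y * (R * s + 4 * R + 2) + R * s ^ 2 := by
  have hs' : (3 : ℚ) ≤ s := by exact_mod_cast hs
  have hp : 0 ≤ R * s + 4 * R + 2 := by positivity
  by_cases hb : 4 * R + 6 ≤ s
  · have := mul_nonneg hy hp
    have h3 : (4 * R + 1) * (R + 1) ≤ R * s := by nlinarith
    nlinarith
  push Not at hb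
  have h3 := mul_le_mul_of_nonneg_right h2 hp
  refine le_of_mul_le_mul_left ?_ (show 0 < R - 1 by linarith)
  suffices h4 : (R - 1) * ((4 * R + 1) * (R + 1) * s) ≤
      R * ((R - 1) * s - h) * (R * s + 4 * R + 2) + (R - 1) * (R * s ^ 2) by linarith
  obtain ⟨u, hu, rfl⟩ : ∃ u, 0 ≤ u ∧ R = 6 + u := ⟨R - 6, by linarith, by ring⟩
  rcases H with ⟨h1, rfl⟩ | ⟨h1, rfl⟩
  · have u2 := mul_nonneg hu hu
    have u3 := mul_nonneg hu u2
    clear h3 h2 hp hb hs'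
    interval_cases s <;> simp only [Ht, List.getD_cons_succ, List.getD_cons_zero] <;>
      push_cast <;> nlinarith
  · have h5 : (32 : ℚ) ≤ s := by exact_mod_cast h1
    have h6 : (12 * (6 + u) - 70) / 16 ≤ (6 + u - 1) - (s + 48) / 16 := by linarith
    have h7 : 36 * (6 + u) ≤ (6 + u) * s + 4 * (6 + u) + 2 := by nlinarith
    have h8 := mul_le_mul h6 h7 (by positivity) (by linarith)
    have h9 := mul_le_mul_of_nonneg_left h8 (show 0 ≤ 6 + u by positivity)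
    have h10 : (6 + u - 1) * (6 + u) * 32 ≤ (6 + u - 1) * (6 + u) * s :=
      mul_le_mul_of_nonneg_left h5 (by nlinarith)
    have u2 := mul_nonneg hu hu
    have u3 := mul_nonneg hu u2
    have h11 : (6 + u - 1) * ((4 * (6 + u) + 1) * (6 + u + 1)) ≤
        (6 + u) * (((6 + u - 1) - (s + 48) / 16) * ((6 + u) * s + 4 * (6 + u) + 2)) +
        (6 + u - 1) * (6 + u) * s := by nlinarith
    have h12 := mul_le_mul_of_nonneg_right h11 (show (0 : ℚ) ≤ s by positivity)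
    nlinarith

theorem num_top_5 {s : ℕ} (hs : 3 ≤ s) {y h : ℚ} (H : HB s h)
    (hy : 0 ≤ y) (h2 : (5 - 1) * (5 * s - y) ≤ 5 * h) :
    21 ≤ 6 / 5 * y + 8 / 30 * (5 * s - y) + 8 / 3 * (y / s) := by
  have hs' : (3 : ℚ) ≤ s := by exact_mod_cast hs
  by_cases hb : 16 ≤ s
  · have : (16 : ℚ) ≤ s := by exact_mod_cast hb
    have : 0 ≤ y / s := by positivity
    linarith
  · have hh : h = Ht s := by
      rcases H with ⟨-, h⟩ | ⟨h, -⟩
      · exact h
      · omega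
    subst hh
    push Not at hb
    clear hs' H
    interval_cases s <;> simp only [Ht, List.getD_cons_succ, List.getD_cons_zero] at h2 <;>
      push_cast at h2 ⊢ <;> linarith

end Pool.Agent.Lib.MP_72f2f8_co
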