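import Pool.Agent.Lib.MP_72f2f8_co.Count

set_option autoImplicit false
set_option linter.unusedSectionVars false

namespace Pool.Agent.Lib.MP_72f2f8_co
open Finset
open scoped Classical

variable {ι : Type*} [DecidableEq ι] {V : Type*} [AddCommGroup V] [Module (ZMod 2) V]

theorem sp_erase_of {v : ι → V} {A : Finset ι} {e : ι} (h : Sp v (A.erase e) (v e)) {w : V} :
    Sp v (A.erase e) w ↔ Sp v A w := by
  refine ⟨fun h' => h'.mono (erase_subset e A), fun h' => h'.trans fun y hy => ?_⟩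
  by_cases hye : y = e
  · rw [hye]; exact h
  · exact sp_mem (mem_erase.2 ⟨hye, hy⟩)

theorem colp_erase_loop {v : ι → V} {E : Finset ι} {x y : ι} (h0 : v x = 0) :
    Colp v (E.erase x) y ↔ Colp v E y := by
  unfold Colp
  rw [erase_right_comm, sp_erase_of (by rw [h0]; exact sp_zero _ _)]

theorem not_colp_loop {v : ι → V} {E : Finset ι} {x : ι} (h0 : v x = 0) : ¬ Colp v E x :=
  fun h => h (by rw [h0]; exact sp_zero _ _)

theorem colp_erase_par {v : ι → V} {E : Finset ι} {e e' y : ι} (he' : e' ∈ E) (hne : e' ≠ e)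
    (hp : v e' = v e) (hy : y ≠ e') : Colp v (E.erase e) y ↔ Colp v E y := by
  unfold Colp
  rw [erase_right_comm, sp_erase_of]
  rw [← hp]
  exact sp_mem (mem_erase.2 ⟨hne, mem_erase.2 ⟨hy.symm, he'⟩⟩)

theorem not_colp_par {v : ι → V} {E : Finset ι} {e e' : ι} (he' : e' ∈ E) (hne : e' ≠ e)
    (hp : v e' = v e) : ¬ Colp v E e :=
  fun h => h (by rw [← hp]; exact sp_mem (mem_erase.2 ⟨hne, he'⟩))

theorem pt_erase_par {v : ι → V} {E : Finset ι} {e e' : ι} (he' : e' ∈ E) (hne : e' ≠ e)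
    (hp : v e' = v e) {w : V} : Pt v (E.erase e) w ↔ Pt v E w := by
  constructor
  · rintro ⟨x, hx, h⟩; exact ⟨x, mem_of_mem_erase hx, h⟩
  · rintro ⟨x, hx, h⟩
    by_cases hxe : x = e
    · exact ⟨e', mem_erase.2 ⟨hne, he'⟩, by rw [hp, ← hxe, h]⟩
    · exact ⟨x, mem_erase.2 ⟨hxe, hx⟩, h⟩

theorem fq_erase_par {v : ι → V} {E : Finset ι} {e e' : ι} (he' : e' ∈ E) (hne : e' ≠ e)
    (hp : v e' = v e) (ω : ℕ → ℚ) : fq v (E.erase e) ω = fq v E ω := by
  funext I
  unfold fq
  simp only [pt_erase_par he' hne hp]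

theorem n2_erase_par {v : ι → V} {E : Finset ι} {e e' : ι} (he' : e' ∈ E) (hne : e' ≠ e)
    (hp : v e' = v e) : n2 v E ≤ n2 v (E.erase e) + 2 := by
  unfold n2
  have : (E.filter fun x => v x ≠ 0 ∧ ∃ y ∈ E, y ≠ x ∧ v y = v x) ⊆
      ((E.erase e).filter fun x => v x ≠ 0 ∧ ∃ y ∈ E.erase e, y ≠ x ∧ v y = v x) ∪ {e, e'} := by
    intro x hx
    rw [mem_filter] at hx
    obtain ⟨hx, h0, y, hy, hyx, hv⟩ := hx
    by_cases h1 : x = e
    · simp [h1]
    by_cases h2 : x = e'
    · simp [h2]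
    refine mem_union_left _ (mem_filter.2 ⟨mem_erase.2 ⟨h1, hx⟩, h0, ?_⟩)
    by_cases h3 : y = e
    · exact ⟨e', mem_erase.2 ⟨hne, he'⟩, fun h => h2 h.symm, by rw [hp, ← h3, hv]⟩
    · exact ⟨y, mem_erase.2 ⟨h3, hy⟩, hyx, hv⟩
  exact (card_le_card this).trans ((card_union_le _ _).trans (by gcongr; exact card_le_two))

theorem n2_erase_loop {v : ι → V} {E : Finset ι} {e : ι} (h0 : v e = 0) :
    n2 v (E.erase e) = n2 v E := by
  unfold n2
  congr 1
  ext x
  simp only [mem_filter, mem_erase]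
  constructor
  · rintro ⟨⟨-, h1⟩, h2, y, ⟨-, h3⟩, h4⟩
    exact ⟨h1, h2, y, h3, h4⟩
  · rintro ⟨h1, h2, y, h3, h4, h5⟩
    refine ⟨⟨fun h => h2 (h ▸ h0), h1⟩, h2, y, ⟨fun h => h2 ?_, h3⟩, h4, h5⟩
    rw [← h5, h, h0]

theorem SS_erase_loop {v : ι → V} {E J : Finset ι} {e : ι} (h0 : v e = 0) (F : Finset ι → ℚ) :
    SS v (E.erase e) J F = SS v E J F :=
  (SS_erase fun _ _ _ hi he => absurd h0 (hi.ne_zero he)).symm

theorem Qw_erase_loop {v : ι → V} {E J : Finset ι} {e : ι} (h0 : v e = 0) (ω : ℕ → ℚ) :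
    Qw v (E.erase e) J ω = Qw v E J ω := by
  unfold Qw
  rw [SS_erase_loop h0]
  refine SS_congr fun I _ _ hi => ?_
  unfold fq
  by_cases h2 : 2 ≤ I.card
  · have hne : sg v I ≠ 0 := hi.sg_ne_zero (card_pos.1 (by omega))
    have : Pt v (E.erase e) (sg v I) ↔ Pt v E (sg v I) := by
      constructor
      · rintro ⟨x, hx, h⟩; exact ⟨x, mem_of_mem_erase hx, h⟩
      · rintro ⟨x, hx, h⟩
        exact ⟨x, mem_erase.2 ⟨fun h' => hne (by rw [← h, h', h0]), hx⟩, h⟩
    simp only [this]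
  · simp [h2]

theorem Ind.not_both {v : ι → V} {I : Finset ι} (hi : Ind v I) {e e' : ι} (hne : e' ≠ e)
    (hp : v e' = v e) (he : e ∈ I) : e' ∉ I := fun h => hne (hi.inj h he hp)

/-- if a parallel pair is a component, no counted set meets it -/
theorem fq_zero_comp {v : ι → V} {E : Finset ι} {e e' : ι} (hne : e' ≠ e) (hp : v e' = v e)
    (hc : Colp v (E.erase e) e') (ω : ℕ → ℚ) {I : Finset ι} (hI : I ⊆ E) (hi : Ind v I)
    (he : e ∈ I) : fq v E ω I = 0 := by
  unfold fq
  rw [if_neg]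
  rintro ⟨h2, x, hx, hxI⟩
  have he' := hi.not_both hne hp he
  have h1 : sg v (I.erase e) = v e + v x := by rw [sg_erase he, hxI]
  have hne' : (I.erase e).Nonempty := card_pos.1 (by rw [card_erase_of_mem he]; omega)
  have h3 : sg v (I.erase e) ≠ 0 := (hi.mono (erase_subset e I)).sg_ne_zero hne'
  have hxe : x ≠ e := fun h => h3 (by rw [h1, h, a2])
  have hxe' : x ≠ e' := fun h => h3 (by rw [h1, h, hp, a2])
  apply hc
  have h4 : Sp v ((E.erase e).erase e') (v e + v x) := by
    rw [← h1]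
    refine sp_sg fun y hy => ?_
    rw [mem_erase] at hy
    exact mem_erase.2 ⟨fun h => he' (h ▸ hy.2), mem_erase.2 ⟨hy.1, hI hy.2⟩⟩
  rw [hp]
  exact h4.of_add (sp_mem (mem_erase.2 ⟨hxe', mem_erase.2 ⟨hxe, hx⟩⟩))

noncomputable def cst (v : ι → V) (E J : Finset ι) (θ κ : ℚ) : ℚ :=
  if J = ∅ then θ + κ * (n2 v E + 2 * nu v E J) else if J.card = 1 then 2 * κ else 0

def YY (v : ι → V) (E J : Finset ι) (r : ℕ) (ω : ℕ → ℚ) (θ κ : ℚ) : Prop :=
  Qw v E J ω + cst v E J θ κ ≤ 2 ^ nu v E J * nb v E J r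

theorem nu_congr {v : ι → V} {E E' J J' : Finset ι}
    (h : ∀ x, (x ∈ E ∧ x ∉ J ∧ Colp v E x) ↔ (x ∈ E' ∧ x ∉ J' ∧ Colp v E' x)) :
    nu v E J = nu v E' J' := by
  unfold nu
  congr 1
  ext x
  simp only [mem_filter]
  exact h x

theorem nu_erase_par {v : ι → V} {E J : Finset ι} {e e' : ι} (he : e ∈ E) (he' : e' ∈ E)
    (hne : e' ≠ e) (hp : v e' = v e) (h : e' ∈ J ∨ ¬ Colp v (E.erase e) e') :
    nu v (E.erase e) J = nu v E J := by
  refine nu_congr fun x => ?_
  by_cases h1 : x = e'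
  · subst h1
    have := not_colp_par he hne.symm hp.symm
    tauto
  · rw [colp_erase_par he' hne hp h1, mem_erase]
    by_cases h2 : x = e
    · subst h2
      have := not_colp_par he' hne hp
      tauto
    · tauto

theorem nu_erase_comp {v : ι → V} {E J : Finset ι} {e e' : ι} (he : e ∈ E) (he' : e' ∈ E)
    (hne : e' ≠ e) (hp : v e' = v e) (hJ : e' ∉ J) (h : Colp v (E.erase e) e') :
    nu v (E.erase e) J = nu v E J + 1 := by
  unfold nu
  have h1 : e' ∉ E.filter fun x => x ∉ J ∧ Colp v E x := by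
    rw [mem_filter]
    have := not_colp_par he hne.symm hp.symm
    tauto
  rw [← card_insert_of_notMem h1]
  congr 1
  ext x
  simp only [mem_filter, mem_insert]
  by_cases h1 : x = e'
  · subst h1
    simp [hne, he', hJ, h]
  · rw [colp_erase_par he' hne hp h1, mem_erase]
    by_cases h2 : x = e
    · subst h2
      have := not_colp_par he' hne hp
      tauto
    · tauto

theorem colp_swap {v : ι → V} {E : Finset ι} {e e' : ι} (hp : v e' = v e) :
    Colp v (E.erase e) e' ↔ Colp v (E.erase e') e := by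
  unfold Colp
  rw [erase_right_comm, hp]

theorem reduce {v : ι → V} {r : ℕ} {ω : ℕ → ℚ} {θ κ : ℚ} (hκ : 0 ≤ κ)
    (hs : ∀ E, Simp v E → Rk v E r → ∀ J ⊆ E, Ind v J → YY v E J r ω θ κ) :
    ∀ E, Rk v E r → ∀ J ⊆ E, Ind v J → YY v E J r ω θ κ := by
  intro E
  induction E using Finset.strongInduction with
  | H E ih =>
  intro hr J hJ hi
  by_cases hl : ∃ x ∈ E, v x = 0
  · obtain ⟨x, hx, h0⟩ := hl
    have hxJ : x ∉ J := fun h => hi.ne_zero h h0
    have := ih (E.erase x) (erase_ssubset hx) (hr.erase (not_colp_loop h0)) J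
      (subset_erase.2 ⟨hJ, hxJ⟩) hi
    have hnu : nu v (E.erase x) J = nu v E J := by
      refine nu_congr fun y => ?_
      rw [colp_erase_loop h0, mem_erase]
      by_cases h2 : y = x
      · subst h2
        have := not_colp_loop (E := E) h0
        tauto
      · tauto
    unfold YY cst nb at *
    rwa [Qw_erase_loop h0, n2_erase_loop h0, hnu, SS_erase_loop h0] at this
  by_cases hsimp : Simp v E
  · exact hs E hsimp hr J hJ hi
  have hpar : ∃ e ∈ E, ∃ e' ∈ E, e' ≠ e ∧ v e' = v e ∧ e ∉ J := by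
    unfold Simp at hsimp
    push Not at hl hsimp
    obtain ⟨x, hx, y, hy, hxy, hne⟩ := hsimp hl
    by_cases hxJ : x ∈ J
    · exact ⟨y, hy, x, hx, hne, hxy, hi.not_both hne.symm hxy.symm hxJ⟩
    · exact ⟨x, hx, y, hy, hne.symm, hxy.symm, hxJ⟩
  obtain ⟨e, he, e', he', hne, hp, heJ⟩ := hpar
  have hr1 : Rk v (E.erase e) r := hr.erase (not_colp_par he' hne hp)
  have hr2 : Rk v (E.erase e') r := hr.erase (not_colp_par he hne.symm hp.symm)
  have h1 := ih (E.erase e) (erase_ssubset he) hr1 J (subset_erase.2 ⟨hJ, heJ⟩) hi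
  have hsplit : ∀ F, SS v E J F = SS v (E.erase e) J F + SS v (E.erase e') (insert e J) F := by
    intro F
    rw [SS_split he, SS_erase (E := E) (J := insert e J) (e := e')]
    intro I _ hJI hI h'
    exact absurd h' (hI.not_both hne hp (hJI (mem_insert_self e J)))
  have hQ : Qw v E J ω = Qw v (E.erase e) J ω + Qw v (E.erase e') (insert e J) ω := by
    unfold Qw
    rw [fq_erase_par he' hne hp, fq_erase_par he hne.symm hp.symm, hsplit]
  have hb : nb v E J r = nb v (E.erase e) J r + nb v (E.erase e') (insert e J) r := hsplit _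
  have hn2 : (n2 v E : ℚ) ≤ n2 v (E.erase e) + 2 := by exact_mod_cast n2_erase_par he' hne hp
  by_cases hA : e' ∈ J ∨ ¬ Colp v (E.erase e) e'
  · have hnu := nu_erase_par he he' hne hp hA
    by_cases hi' : Ind v (insert e J)
    · have he'J : e' ∉ J := fun h =>
        hi'.not_both hne hp (mem_insert_self e J) (mem_insert_of_mem h)
      have h2 := ih (E.erase e') (erase_ssubset he') hr2 (insert e J)
        (subset_erase.2 ⟨insert_subset he hJ, by simp [hne, he'J]⟩) hi'
      have hnu2 : nu v (E.erase e') (insert e J) = nu v E J := by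
        rw [nu_erase_par he' he hne.symm hp.symm (Or.inl (mem_insert_self e J))]
        refine nu_congr fun x => ?_
        rw [mem_insert]
        by_cases h2 : x = e
        · subst h2
          have := not_colp_par he' hne hp
          tauto
        · tauto
      unfold YY cst at *
      rw [hnu] at h1
      rw [hnu2] at h2
      rw [hQ, hb, mul_add]
      rw [if_neg (insert_ne_empty e J), card_insert_of_notMem heJ] at h2
      by_cases hJ0 : J = ∅
      · rw [if_pos hJ0] at h1 ⊢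
        rw [if_pos (by rw [hJ0]; rfl)] at h2
        nlinarith
      · rw [if_neg hJ0] at h1 ⊢
        have : J.card ≠ 0 := by simpa using hJ0
        rw [if_neg (by omega)] at h2
        linarith
    · have hz : ∀ F, SS v (E.erase e') (insert e J) F = 0 := fun F =>
        SS_eq_zero fun I _ hJI hI => absurd (hI.mono hJI) hi'
      have hJ0 : J ≠ ∅ := by
        rintro rfl
        apply hi'
        rw [ind_insert heJ]
        refine ⟨hi, ?_⟩
        rintro ⟨T, hT, h⟩
        rw [subset_empty.1 hT, sg_empty] at h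
        exact hl ⟨e, he, h.symm⟩
      unfold YY cst at *
      rw [hnu, if_neg hJ0] at h1
      rw [hQ, hb, if_neg hJ0]
      unfold Qw nb at *
      rw [hz, hz]
      linarith
  · push Not at hA
    obtain ⟨he'J, hc⟩ := hA
    have hc' := (colp_swap hp).1 hc
    have h2 := ih (E.erase e') (erase_ssubset he') hr2 J (subset_erase.2 ⟨hJ, he'J⟩) hi
    have hnu1 := nu_erase_comp he he' hne hp he'J hc
    have hnu2 := nu_erase_comp he' he hne.symm hp.symm heJ hc'
    have hn2' : (n2 v E : ℚ) ≤ n2 v (E.erase e') + 2 := by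
      exact_mod_cast n2_erase_par he hne.symm hp.symm
    have hb2 : nb v (E.erase e') (insert e J) r = nb v (E.erase e') J r := by
      refine SS_insert_of fun I hI _ hI' heI => ?_
      unfold fb
      rw [if_neg]
      intro hcard
      exact heI (hc'.mem_base hr2 (mem_erase.2 ⟨hne.symm, he⟩) hI hI' hcard)
    have hQ1 : Qw v E J ω = Qw v (E.erase e) J ω := by
      unfold Qw
      rw [fq_erase_par he' hne hp]
      exact SS_erase fun I hI _ hI' heI => fq_zero_comp hne hp hc ω hI hI' heI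
    have hQ2 : Qw v E J ω = Qw v (E.erase e') J ω := by
      unfold Qw
      rw [fq_erase_par he hne.symm hp.symm]
      exact SS_erase fun I hI _ hI' heI => fq_zero_comp hne.symm hp.symm hc' ω hI hI' heI
    unfold YY cst at *
    rw [hnu1, ← hQ1, pow_succ] at h1
    rw [hnu2, ← hQ2, pow_succ] at h2
    rw [hb, hb2]
    push_cast at h1 h2
    by_cases hJ0 : J = ∅
    · rw [if_pos hJ0] at h1 h2 ⊢
      nlinarith
    · rw [if_neg hJ0] at h1 h2 ⊢
      linarith

end Pool.Agent.Lib.MP_72f2f8_co
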