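import Pool.Agent.Lib.MP_72f2f8_co.Reduce

set_option autoImplicit false
set_option linter.unusedSectionVars false

namespace Pool.Agent.Lib.MP_72f2f8_co
open Finset
open scoped Classical

variable {ι : Type*} [DecidableEq ι] {V : Type*} [AddCommGroup V] [Module (ZMod 2) V]
variable {ι' : Type*} [DecidableEq ι']

structure Rx (v : ι → V) (u : ι' → V) (f : ι → ι') (E : Finset ι) : Prop where
  inj : ∀ x ∈ E, ∀ y ∈ E, f x = f y → x = y
  eq : ∀ x ∈ E, u (f x) = v x

namespace Rx
variable {v : ι → V} {u : ι' → V} {f : ι → ι'} {E : Finset ι}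

theorem mono (h : Rx v u f E) {E' : Finset ι} (hE : E' ⊆ E) : Rx v u f E' :=
  ⟨fun x hx y hy => h.inj x (hE hx) y (hE hy), fun x hx => h.eq x (hE hx)⟩

theorem sg_image (h : Rx v u f E) : sg u (E.image f) = sg v E := by
  unfold sg
  rw [sum_image fun x hx y hy => h.inj x hx y hy]
  exact sum_congr rfl h.eq

theorem card_image (h : Rx v u f E) : (E.image f).card = E.card :=
  card_image_of_injOn fun x hx y hy => h.inj x hx y hy

theorem sp (h : Rx v u f E) {w : V} : Sp u (E.image f) w ↔ Sp v E w := by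
  constructor
  · rintro ⟨T, hT, rfl⟩
    obtain ⟨T', hT', rfl⟩ := subset_image_iff.1 hT
    exact ⟨T', hT', (h.mono hT').sg_image.symm⟩
  · rintro ⟨T, hT, rfl⟩
    exact ⟨T.image f, image_subset_image hT, (h.mono hT).sg_image⟩

theorem ind (h : Rx v u f E) : Ind u (E.image f) ↔ Ind v E := by
  constructor
  · intro hi T hT h0
    have := hi (T.image f) (image_subset_image hT) (by rw [(h.mono hT).sg_image, h0])
    exact image_eq_empty.1 this
  · intro hi T hT h0
    obtain ⟨T', hT', rfl⟩ := subset_image_iff.1 hT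
    rw [(h.mono hT').sg_image] at h0
    rw [hi T' hT' h0, image_empty]

theorem pt (h : Rx v u f E) {w : V} : Pt u (E.image f) w ↔ Pt v E w := by
  constructor
  · rintro ⟨y, hy, rfl⟩
    obtain ⟨x, hx, rfl⟩ := mem_image.1 hy
    exact ⟨x, hx, (h.eq x hx).symm⟩
  · rintro ⟨x, hx, rfl⟩
    exact ⟨f x, mem_image_of_mem f hx, h.eq x hx⟩

theorem mem (h : Rx v u f E) {J : Finset ι} (hJ : J ⊆ E) {x : ι} (hx : x ∈ E) :
    f x ∈ J.image f ↔ x ∈ J := by
  refine ⟨fun h' => ?_, mem_image_of_mem f⟩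
  obtain ⟨y, hy, hxy⟩ := mem_image.1 h'
  rw [← h.inj y (hJ hy) x hx hxy]; exact hy

theorem sub (h : Rx v u f E) {I J : Finset ι} (hI : I ⊆ E) (hJ : J ⊆ E) :
    J.image f ⊆ I.image f ↔ J ⊆ I :=
  ⟨fun h' _ hx => (h.mem hI (hJ hx)).1 (h' (mem_image_of_mem f hx)), image_subset_image⟩

theorem erase (h : Rx v u f E) {x : ι} (hx : x ∈ E) :
    (E.image f).erase (f x) = (E.erase x).image f := by
  ext y
  simp only [mem_erase, mem_image]
  constructor
  · rintro ⟨hne, z, hz, rfl⟩
    exact ⟨z, ⟨fun h' => hne (by rw [h']), hz⟩, rfl⟩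
  · rintro ⟨z, ⟨hne, hz⟩, rfl⟩
    exact ⟨fun h' => hne (h.inj z hz x hx h'), z, hz, rfl⟩

theorem colp (h : Rx v u f E) {x : ι} (hx : x ∈ E) : Colp u (E.image f) (f x) ↔ Colp v E x := by
  unfold Colp
  rw [h.erase hx, (h.mono (erase_subset x E)).sp, h.eq x hx]

theorem ss (h : Rx v u f E) {J : Finset ι} (hJ : J ⊆ E) (F : Finset ι' → ℚ) :
    SS u (E.image f) (J.image f) F = SS v E J (fun I => F (I.image f)) := by
  unfold SS
  rw [powerset_image, sum_image]
  · refine sum_congr rfl fun I hI => ?_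
    have hI := mem_powerset.1 hI
    simp only [h.sub hI hJ, (h.mono hI).ind]
  · intro I hI I' hI' hII
    have hI := mem_powerset.1 hI
    have hI' := mem_powerset.1 hI'
    exact Subset.antisymm ((h.sub hI' hI).1 hII.le) ((h.sub hI hI').1 hII.ge)

theorem nb_eq (h : Rx v u f E) {J : Finset ι} (hJ : J ⊆ E) (r : ℕ) :
    nb u (E.image f) (J.image f) r = nb v E J r := by
  unfold nb
  rw [h.ss hJ]
  refine SS_congr fun I hI _ _ => ?_
  unfold fb
  rw [(h.mono hI).card_image]

theorem Qw_eq (h : Rx v u f E) {J : Finset ι} (hJ : J ⊆ E) (ω : ℕ → ℚ) :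
    Qw u (E.image f) (J.image f) ω = Qw v E J ω := by
  unfold Qw
  rw [h.ss hJ]
  refine SS_congr fun I hI _ _ => ?_
  unfold fq
  rw [(h.mono hI).card_image, (h.mono hI).sg_image]
  simp only [h.pt]

theorem nu_eq (h : Rx v u f E) {J : Finset ι} (hJ : J ⊆ E) :
    nu u (E.image f) (J.image f) = nu v E J := by
  unfold nu
  rw [filter_image, (h.mono (filter_subset _ _)).card_image]
  congr 1
  refine filter_congr fun x hx => ?_
  rw [h.mem hJ hx, h.colp hx]

theorem rk (h : Rx v u f E) {r : ℕ} (hr : Rk v E r) : Rk u (E.image f) r := by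
  obtain ⟨B, h1, h2, h3, h4⟩ := hr
  refine ⟨B.image f, image_subset_image h1, (h.mono h1).ind.2 h2,
    by rw [(h.mono h1).card_image, h3], fun y hy => ?_⟩
  obtain ⟨x, hx, rfl⟩ := mem_image.1 hy
  rw [(h.mono h1).sp, h.eq x hx]
  exact h4 x hx

end Rx

theorem Simp.n2_eq {v : ι → V} {E : Finset ι} (h : Simp v E) : n2 v E = 0 := by
  unfold n2
  rw [card_eq_zero, filter_eq_empty_iff]
  rintro x hx ⟨-, y, hy, hne, hv⟩
  exact hne (h.2 y hy x hx hv)

/-! coordinates -/

def valL : List V → ℕ → V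
  | [], _ => 0
  | w :: ws, m => (if m % 2 = 1 then w else 0) + valL ws (m / 2)

theorem valL_xor (ws : List V) (a b : ℕ) : valL ws (a ^^^ b) = valL ws a + valL ws b := by
  induction ws generalizing a b with
  | nil => simp [valL]
  | cons w ws ih =>
    simp only [valL, Nat.xor_div_two, ih, Nat.xor_mod_two_eq_one]
    have := a2 w
    by_cases ha : a % 2 = 1 <;> by_cases hb : b % 2 = 1 <;> simp only [ha, hb] <;> simp
    · linear_combination (norm := abel1) - this
    · abel
    · abel

theorem valL_zero (ws : List V) : valL ws 0 = 0 := by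
  induction ws with
  | nil => rfl
  | cons w ws ih => simp [valL, ih]

theorem sp_valL {v : ι → V} (l : List ι) {w : V} :
    Sp v l.toFinset w ↔ ∃ m < 2 ^ l.length, valL (l.map v) m = w := by
  induction l generalizing w with
  | nil =>
    constructor
    · rintro ⟨T, hT, rfl⟩
      rw [List.toFinset_nil, subset_empty] at hT
      exact ⟨0, by simp, by simp [hT, valL]⟩
    · rintro ⟨m, -, rfl⟩; exact sp_zero _ _
  | cons a l ih =>
    rw [List.toFinset_cons, sp_insert, ih, ih, List.length_cons, pow_succ]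
    constructor
    · rintro (⟨m, hm, rfl⟩ | ⟨m, hm, h⟩)
      · refine ⟨2 * m, by omega, ?_⟩
        simp [valL]
      · refine ⟨2 * m + 1, by omega, ?_⟩
        have h1 : (2 * m + 1) % 2 = 1 := by omega
        have h2 : (2 * m + 1) / 2 = m := by omega
        simp only [List.map_cons, valL, h1, h2, h, if_true]
        have := a2 (v a)
        linear_combination (norm := abel1) this
    · rintro ⟨m, hm, rfl⟩
      simp only [List.map_cons, valL]
      by_cases h : m % 2 = 1
      · right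
        refine ⟨m / 2, by omega, ?_⟩
        have := a2 (v a)
        rw [if_pos h]
        linear_combination (norm := abel1) - this
      · left
        exact ⟨m / 2, by omega, by rw [if_neg h, zero_add]⟩

theorem valL_inj {v : ι → V} (l : List ι) (hl : l.Nodup) (hi : Ind v l.toFinset) {m : ℕ}
    (hm : m < 2 ^ l.length) (h0 : valL (l.map v) m = 0) : m = 0 := by
  induction l generalizing m with
  | nil => simpa using hm
  | cons a l ih =>
    rw [List.nodup_cons] at hl
    rw [List.toFinset_cons, ind_insert (by simpa using hl.1)] at hi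
    rw [List.length_cons, pow_succ] at hm
    simp only [List.map_cons, valL] at h0
    by_cases h : m % 2 = 1
    · rw [if_pos h] at h0
      exact absurd ((sp_valL l).2 ⟨m / 2, by omega, (eq_of_add_eq_zero' h0).symm⟩) hi.2
    · rw [if_neg h, zero_add] at h0
      have := ih hl.2 hi.1 (by omega) h0
      omega

theorem valL_pow (ws : List V) (i : ℕ) (hi : i < ws.length) : valL ws (2 ^ i) = ws[i] := by
  induction ws generalizing i with
  | nil => simp at hi
  | cons w ws ih =>
    cases i with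
    | zero => simp [valL, valL_zero]
    | succ i =>
      have h1 : ¬ (2 ^ (i + 1) % 2 = 1) := by rw [pow_succ]; omega
      have h2 : 2 ^ (i + 1) / 2 = 2 ^ i := by rw [pow_succ]; omega
      simp only [valL, h1, h2, if_false, zero_add, List.getElem_cons_succ]
      exact ih i (by simpa using hi)

structure Num (u : ℕ → V) (ρ : ℕ) : Prop where
  xor : ∀ a b, u (a ^^^ b) = u a + u b
  inj0 : ∀ a < 2 ^ ρ, u a = 0 → a = 0

theorem Num.inj {u : ℕ → V} {ρ : ℕ} (h : Num u ρ) {a b : ℕ} (ha : a < 2 ^ ρ) (hb : b < 2 ^ ρ)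
    (hab : u a = u b) : a = b :=
  Nat.eq_of_xor_eq_zero (h.inj0 _ (Nat.xor_lt_two_pow ha hb) (by rw [h.xor, hab, a2]))

theorem Num.zero {u : ℕ → V} {ρ : ℕ} (h : Num u ρ) : u 0 = 0 := by
  have := h.xor 0 0
  rw [Nat.xor_self, a2] at this
  exact this

theorem exists_coords {v : ι → V} {E J : Finset ι} {ρ : ℕ} (hs : Simp v E) (hr : Rk v E ρ)
    (hJ : J ⊆ E) (hi : Ind v J) :
    ∃ (u : ℕ → V) (f : ι → ℕ), Num u ρ ∧ Rx v u f E ∧ (∀ a ∈ E.image f, 0 < a ∧ a < 2 ^ ρ) ∧
      (∀ i < ρ, 2 ^ i ∈ E.image f) ∧ J.card ≤ ρ ∧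
      J.image f = (range J.card).image (2 ^ ·) := by
  obtain ⟨B, hB1, hB2, hB3, hB4⟩ := hr.extend hJ hi
  set l : List ι := J.toList ++ (B \ J).toList with hl
  have hlB : l.toFinset = B := by
    rw [hl, List.toFinset_append, toList_toFinset, toList_toFinset, union_sdiff_of_subset hB1]
  have hnd : l.Nodup := by
    rw [hl, List.nodup_append]
    refine ⟨nodup_toList _, nodup_toList _, ?_⟩
    intro a ha b hb hab
    rw [mem_toList] at ha hb
    exact (mem_sdiff.1 hb).2 (hab ▸ ha)
  have hlen : l.length = ρ := by rw [← List.toFinset_card_of_nodup hnd, hlB, hB4]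
  have hex : ∀ x ∈ E, ∃ m < 2 ^ ρ, valL (l.map v) m = v x := by
    intro x hx
    rw [← hlen, ← sp_valL, hlB]
    exact hr.sp hB2 hB3 hB4 hx
  choose! f hf using hex
  have hnum : Num (valL (l.map v)) ρ :=
    ⟨valL_xor _, fun a ha h0 => valL_inj l hnd (by rw [hlB]; exact hB3) (by rw [hlen]; exact ha) h0⟩
  have hfl : ∀ i (hi : i < l.length), f l[i] = 2 ^ i := by
    intro i hi'
    have hmem : l[i] ∈ E := hB2 (by rw [← hlB]; simp)
    refine hnum.inj (hf _ hmem).1 (Nat.pow_lt_pow_right (by norm_num) (by omega)) ?_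
    rw [(hf _ hmem).2, valL_pow _ i (by simpa using hi')]
    simp
  have hJc : J.card ≤ ρ := hr.card_le hJ hi
  refine ⟨valL (l.map v), f, hnum, ⟨fun x hx y hy hxy => hs.2 x hx y hy ?_, fun x hx => (hf x hx).2⟩,
    ?_, ?_, hJc, ?_⟩
  · rw [← (hf x hx).2, ← (hf y hy).2, hxy]
  · intro a ha
    obtain ⟨x, hx, rfl⟩ := mem_image.1 ha
    refine ⟨Nat.pos_of_ne_zero fun h0 => hs.1 x hx ?_, (hf x hx).1⟩
    rw [← (hf x hx).2, h0, valL_zero]
  · intro i hi'
    rw [← hfl i (by omega)]
    exact mem_image_of_mem f (hB2 (hlB.le (List.mem_toFinset.2 (List.getElem_mem _))))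
  · have hget : ∀ i (hi : i < J.toList.length), f J.toList[i] = 2 ^ i := by
      intro i hi'
      rw [← hfl i (by rw [hlen]; rw [length_toList] at hi'; omega)]
      congr 1
      simp only [hl]
      rw [List.getElem_append_left hi']
    ext a
    simp only [mem_image, mem_range]
    constructor
    · rintro ⟨x, hx, rfl⟩
      obtain ⟨i, hi', rfl⟩ := List.getElem_of_mem (mem_toList.2 hx)
      exact ⟨i, by simpa using hi', (hget i hi').symm⟩
    · rintro ⟨i, hi', rfl⟩
      have hi'' : i < J.toList.length := by simpa using hi'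
      exact ⟨J.toList[i], mem_toList.1 (List.getElem_mem hi''), hget i hi''⟩

end Pool.Agent.Lib.MP_72f2f8_co
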