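import Pool.Agent.Lib.MP_72f2f8_co.Link

set_option autoImplicit false
set_option linter.unusedSectionVars false

namespace Pool.Agent.Lib.MP_72f2f8_co
open Finset

variable {ι : Type*} [DecidableEq ι] {V : Type*} [AddCommGroup V] [Module (ZMod 2) V]

theorem bl_facts : ∀ ρ ≤ 4, ∀ j ≤ ρ, (range j).image (2 ^ ·) = (bl j).toFinset ∧
    (bl j).length = j ∧ bl ρ = bl j ++ (bl ρ).drop j ∧ (∀ p ∈ bl j, p < 2 ^ j) ∧
    (bl j).foldr (· ^^^ ·) 0 = 2 ^ j - 1 ∧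
    ∀ a < 2 ^ j, ∀ p ∈ bl ρ, a &&& p ≠ 0 → p ∈ bl j := by
  intro ρ hρ j hj
  interval_cases ρ <;> interval_cases j <;> decide

open scoped Classical

theorem run_chk {v : ι → V} {E J : Finset ι} {ρ : ℕ} (hρ : ρ ≤ 4) (hs : Simp v E) (hr : Rk v E ρ)
    (hJ : J ⊆ E) (hi : Ind v J) {P : ℕ → ℕ → ℕ → ℕ → Bool} {ol : List ℕ} (hol : ol.Nodup)
    (hol' : ∀ a < 2 ^ ρ, a ∈ ol ↔ 0 < a ∧ a ∉ bl ρ) (hol'' : ∀ a ∈ ol, a < 2 ^ ρ)
    (h : allsub (chk P ρ (ρ - J.card) (bl J.card) ((bl ρ).drop J.card) (2 ^ J.card - 1)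
      (List.range (2 ^ J.card))) ol [] = true) :
    ∃ b q1 q2 : ℕ, nb v E J ρ = b ∧ 24 * Qw v E J (om (5 / 2)) = q1 ∧
      20 * Qw v E J om2 = q2 ∧ P (nu v E J) b q1 q2 = true := by
  obtain ⟨u, f, hn, hx, h1, h2, hj, hJf⟩ := exists_coords hs hr hJ hi
  obtain ⟨g1, g2, g3, g4, g5, g6⟩ := bl_facts ρ hρ J.card hj
  obtain ⟨k1, -⟩ := bl_facts ρ hρ ρ le_rfl
  obtain ⟨O, hO1, hO2, hO3⟩ := allsub_spec (fun a => a ∈ E.image f) ol [] h (by simpa using hol)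
  rw [g1] at hJf
  have hpow : 2 ^ J.card ≤ 2 ^ ρ := Nat.pow_le_pow_right (by norm_num) hj
  have hpos : 0 < 2 ^ J.card := by positivity
  rw [← hx.nb_eq hJ, ← hx.Qw_eq hJ, ← hx.Qw_eq hJ, ← hx.nu_eq hJ, hJf]
  refine chk_spec hρ hn (fun a ha => (h1 a ha).2) (hx.rk hr) g3 ?_ ?_ hO2 ?_ (by omega) g5.symm
    (by omega) ?_ hO1
  · intro a
    rw [hO3]
    constructor
    · intro ha
      by_cases hb : a ∈ bl ρ
      · exact Or.inl hb
      · exact Or.inr (Or.inl ⟨(hol' a (h1 a ha).2).2 ⟨(h1 a ha).1, hb⟩, ha⟩)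
    · rintro (hb | hb | hb)
      · rw [← List.mem_toFinset, ← k1] at hb
        obtain ⟨i, hi', rfl⟩ := mem_image.1 hb
        exact h2 i (mem_range.1 hi')
      · exact hb.2
      · simp at hb
  · intro a ha
    rcases (hO3 a).1 ha with hb | hb
    · exact ((hol' a (hol'' a hb.1)).1 hb.1).2
    · simp at hb
  · rw [← hJf]; exact (hx.mono hJ).ind.2 hi
  · intro a ha
    rw [List.mem_range]
    constructor
    · intro ha'
      exact sp_bl hρ hn ha fun p hp hp' => List.mem_toFinset.2 (g6 a ha' p hp hp')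
    · rintro ⟨T, hT, hTa⟩
      have := closed_sg (v := u) (U := fun w => ∃ y < 2 ^ J.card, u y = w)
        ⟨0, hpos, hn.zero⟩ ?_ (T := T) ?_
      · obtain ⟨y, hy, hya⟩ := this
        rw [hTa] at hya
        rw [← hn.inj (by omega) ha hya]; exact hy
      · rintro _ _ ⟨y, hy, rfl⟩ ⟨z, hz', rfl⟩
        exact ⟨y ^^^ z, Nat.xor_lt_two_pow hy hz', hn.xor y z⟩
      · intro x hx'
        exact ⟨x, g4 x (List.mem_toFinset.1 (hT hx')), rfl⟩

theorem P4_spec {a1 b1 a2 b2 u b q1 q2 : ℕ} (h : P4 a1 b1 a2 b2 u b q1 q2 = true) :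
    (a1 : ℚ) + b1 * u + q1 ≤ 24 * 2 ^ u * b ∧ (a2 : ℚ) + b2 * u + q2 ≤ 20 * 2 ^ u * b := by
  unfold P4 at h
  rw [Bool.and_eq_true, Nat.ble_eq, Nat.ble_eq] at h
  exact ⟨by exact_mod_cast h.1, by exact_mod_cast h.2⟩

theorem rank4_simple {v : ι → V} {E J : Finset ι} (hs : Simp v E) (hr : Rk v E 4)
    (hJ : J ⊆ E) (hi : Ind v J) :
    YY v E J 4 (om (5 / 2)) (5 / 2) 1 ∧ YY v E J 4 om2 2 (4 / 5) := by
  have hj : J.card ≤ 4 := hr.card_le hJ hi
  have key := fun P => run_chk (P := P) (ol := ol4) le_rfl hs hr hJ hi (by decide) (by decide)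
    (by decide)
  have hJ0 : J = ∅ ↔ J.card = 0 := card_eq_zero.symm
  unfold YY cst
  simp only [hJ0, hs.n2_eq]
  generalize J.card = j at *
  interval_cases j
  · obtain ⟨b, q1, q2, h1, h2, h3, h4⟩ := key _ c40
    obtain ⟨h5, h6⟩ := P4_spec h4
    rw [h1]; push_cast at *; constructor <;> linarith
  · obtain ⟨b, q1, q2, h1, h2, h3, h4⟩ := key _ c41
    obtain ⟨h5, h6⟩ := P4_spec h4
    rw [h1]; push_cast at *; constructor <;> linarith
  · obtain ⟨b, q1, q2, h1, h2, h3, h4⟩ := key _ c42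
    obtain ⟨h5, h6⟩ := P4_spec h4
    rw [h1]; push_cast at *; constructor <;> linarith
  · obtain ⟨b, q1, q2, h1, h2, h3, h4⟩ := key _ c43
    obtain ⟨h5, h6⟩ := P4_spec h4
    rw [h1]; push_cast at *; constructor <;> linarith
  · obtain ⟨b, q1, q2, h1, h2, h3, h4⟩ := key _ c44
    obtain ⟨h5, h6⟩ := P4_spec h4
    rw [h1]; push_cast at *; constructor <;> linarith

theorem Qw_om (v : ι → V) (E J : Finset ι) (c : ℚ) : Qw v E J (om c) = c * Qw v E J (om 1) := by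
  unfold Qw
  rw [← SS_mul]
  refine SS_congr fun I _ _ _ => ?_
  unfold fq om
  split_ifs <;> ring

theorem nu_eq_zero {v : ι → V} {E : Finset ι} (hc : ∀ x ∈ E, ¬ Colp v E x) : nu v E ∅ = 0 := by
  unfold nu
  rw [card_eq_zero, filter_eq_empty_iff]
  exact fun x hx h => hc x hx h.2

theorem rank3_simple {v : ι → V} {E : Finset ι} {ρ : ℕ} (hρ : ρ ≤ 3) (hs : Simp v E)
    (hr : Rk v E ρ) (hc : ∀ x ∈ E, ¬ Colp v E x) :
    Qw v E ∅ (om 1) + 1 ≤ nb v E ∅ ρ ∧ (ρ + 1) * Qw v E ∅ (om 1) ≤ 2 * nb v E ∅ ρ := by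
  have key : ∃ b q1 q2 : ℕ, nb v E ∅ ρ = b ∧ 24 * Qw v E ∅ (om (5 / 2)) = q1 ∧
      20 * Qw v E ∅ om2 = q2 ∧ P3 ρ (nu v E ∅) b q1 q2 = true := by
    interval_cases ρ
    · exact run_chk (ol := []) (by norm_num) hs hr (empty_subset E) (ind_empty v) (by decide)
        (by decide) (by decide) c0
    · exact run_chk (ol := []) (by norm_num) hs hr (empty_subset E) (ind_empty v) (by decide)
        (by decide) (by decide) c1
    · exact run_chk (ol := [3]) (by norm_num) hs hr (empty_subset E) (ind_empty v) (by decide)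
        (by decide) (by decide) c2
    · exact run_chk (ol := [3, 5, 6, 7]) (by norm_num) hs hr (empty_subset E) (ind_empty v)
        (by decide) (by decide) (by decide) c3
  obtain ⟨b, q1, q2, h1, h2, -, h4⟩ := key
  rw [nu_eq_zero hc] at h4
  unfold P3 at h4
  rw [Bool.and_eq_true, Bool.or_eq_true, Nat.ble_eq, Nat.ble_eq, Nat.ble_eq] at h4
  have h5 : (q1 : ℚ) + 60 ≤ 60 * b := by exact_mod_cast h4.1
  have h6 : ((ρ : ℚ) + 1) * q1 ≤ 120 * b := by exact_mod_cast h4.2.resolve_left (by omega)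
  rw [Qw_om] at h2
  rw [h1]
  rw [← h2] at h5 h6
  constructor <;> nlinarith

/-- the weighted inequality for a coloop-free family -/
def WW (v : ι → V) (E : Finset ι) (r : ℕ) (ω : ℕ → ℚ) (θ κ : ℚ) : Prop :=
  Qw v E ∅ ω + θ + κ * n2 v E ≤ nb v E ∅ r

theorem YY.ww {v : ι → V} {E : Finset ι} {r : ℕ} {ω : ℕ → ℚ} {θ κ : ℚ}
    (h : YY v E ∅ r ω θ κ) (hc : ∀ x ∈ E, ¬ Colp v E x) : WW v E r ω θ κ := by
  unfold YY cst at h
  rw [nu_eq_zero hc, if_pos rfl] at h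
  unfold WW
  push_cast at h
  linarith

theorem rank4 {v : ι → V} {E : Finset ι} (hr : Rk v E 4) (hc : ∀ x ∈ E, ¬ Colp v E x) :
    WW v E 4 (om (5 / 2)) (5 / 2) 1 ∧ WW v E 4 om2 2 (4 / 5) :=
  ⟨(reduce (by norm_num) (fun _ hs hr _ hJ hi => (rank4_simple hs hr hJ hi).1) E hr ∅
      (empty_subset E) (ind_empty v)).ww hc,
   (reduce (by norm_num) (fun _ hs hr _ hJ hi => (rank4_simple hs hr hJ hi).2) E hr ∅
      (empty_subset E) (ind_empty v)).ww hc⟩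

end Pool.Agent.Lib.MP_72f2f8_co
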