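import Pool.Agent.Lib.MP_72f2f8_co.Small

set_option autoImplicit false
set_option linter.unusedSectionVars false

namespace Pool.Agent.Lib.MP_72f2f8_co
open Finset
open scoped Classical

variable {ι : Type*} [DecidableEq ι] {V : Type*} [AddCommGroup V] [Module (ZMod 2) V]

def Wstd (v : ι → V) (E : Finset ι) (r : ℕ) : Prop :=
  WW v E r (om ((r + 1) / 2)) ((r + 1) / 2) (r / 4)

theorem om_nonneg {c : ℚ} (hc : 0 ≤ c) (j : ℕ) : 0 ≤ om c j := by unfold om; positivity

theorem SS_single_le {v : ι → V} {E : Finset ι} (p : ι → Prop) :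
    SS v E ∅ (fun I => if ∃ y, I = {y} ∧ p y then 1 else 0) ≤
      ((E.filter fun y => v y ≠ 0 ∧ p y).card : ℚ) := by
  unfold SS
  rw [← card_image_of_injective _ (singleton_injective (α := ι))]
  have : ∑ I ∈ E.powerset, (if ∅ ⊆ I ∧ Ind v I then
      (if ∃ y, I = {y} ∧ p y then (1 : ℚ) else 0) else 0) =
      ((E.powerset.filter fun I => Ind v I ∧ ∃ y, I = {y} ∧ p y).card : ℚ) := by
    rw [card_filter]; push_cast
    refine sum_congr rfl fun I _ => ?_
    by_cases h1 : Ind v I <;> by_cases h2 : ∃ y, I = {y} ∧ p y <;> simp only [h1, h2] <;> simp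
  rw [this]
  norm_cast
  refine card_le_card fun I hI => ?_
  rw [mem_filter, mem_powerset] at hI
  obtain ⟨h1, h2, y, rfl, hy⟩ := hI
  exact mem_image.2 ⟨y, mem_filter.2 ⟨by simpa using h1, h2.ne_zero (by simp), hy⟩, rfl⟩

theorem SS_single_n2 (v : ι → V) (E : Finset ι) :
    SS v E ∅ (fun I => if ∃ y, I = {y} ∧ ∃ z ∈ E, z ≠ y ∧ v z = v y then 1 else 0) ≤
      (n2 v E : ℚ) := by
  unfold n2
  convert SS_single_le (v := v) (E := E) (fun y => ∃ z ∈ E, z ≠ y ∧ v z = v y)

theorem stepA1 {v : ι → V} {E : Finset ι} {r : ℕ} (hr4 : 4 ≤ r) (hr : Rk v E (r + 1))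
    {e e' : ι} (he : e ∈ E) (he' : e' ∈ E) (hne : e' ≠ e) (hp : v e' = v e) (h0 : v e ≠ 0)
    (h1 : Wstd v (E.erase e) (r + 1)) (h2 : Wstd (ctr v (v e)) (E.erase e) r) :
    Wstd v E (r + 1) := by
  unfold Wstd WW at *
  have hn2 : (n2 v E : ℚ) ≤ n2 v (E.erase e) + 2 := by exact_mod_cast n2_erase_par he' hne hp
  have hrN := hr.ctr he h0
  have hr4' : (4 : ℚ) ≤ r := by exact_mod_cast hr4
  have hQ : Qw v E ∅ (om (((r + 1 : ℕ) + 1) / 2)) ≤
      Qw v (E.erase e) ∅ (om (((r + 1 : ℕ) + 1) / 2)) +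
      (Qw (ctr v (v e)) (E.erase e) ∅ (om ((r + 1) / 2)) +
        r / 4 * n2 (ctr v (v e)) (E.erase e)) := by
    unfold Qw
    rw [SS_split he, fq_erase_par he' hne hp, insert_empty_eq, SS_ctr he h0]
    gcongr
    have h3 := SS_single_n2 (ctr v (v e)) (E.erase e)
    have h4 := mul_le_mul_of_nonneg_left h3 (show (0 : ℚ) ≤ r / 4 by positivity)
    refine le_trans ?_ (add_le_add le_rfl h4)
    rw [← SS_mul, ← SS_add]
    refine SS_le fun I hI _ hi => ?_
    have heI : e ∉ I := fun h => notMem_erase e E (hI h)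
    have hc := hrN.card_le hI hi
    have hA : 0 ≤ fq (ctr v (v e)) (E.erase e) (om ((r + 1) / 2)) I :=
      fq_nonneg _ _ (om_nonneg (by positivity)) I
    have hB : (0 : ℚ) ≤ r / 4 * if ∃ y, I = {y} ∧
        ∃ z ∈ E.erase e, z ≠ y ∧ ctr v (v e) z = ctr v (v e) y then 1 else 0 := by
      split_ifs <;> positivity
    by_cases hq : 2 ≤ (insert e I).card ∧ Pt v E (sg v (insert e I))
    swap
    · rw [fq, if_neg hq]; linarith
    rw [fq, if_pos hq]
    obtain ⟨hq1, hq2⟩ := hq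
    rw [← pt_erase_par he' hne hp, sg_insert heI] at hq2
    obtain ⟨x, hx, hxI⟩ := hq2
    rw [card_insert_of_notMem heI] at hq1 ⊢
    have hpt : ctr v (v e) x = sg (ctr v (v e)) I := by
      rw [sg_ctr]; exact mk_eq_mk'.2 (Or.inr (by rw [hxI, add_comm]))
    by_cases hI2 : 2 ≤ I.card
    · rw [fq, if_pos ⟨hI2, x, hx, hpt⟩]
      refine le_trans ?_ (le_add_of_nonneg_right hB)
      unfold om
      have : (I.card : ℚ) ≤ r := by exact_mod_cast hc
      push_cast
      rw [div_le_div_iff₀ (by positivity) (by positivity)]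
      linarith
    · obtain ⟨y, rfl⟩ := card_eq_one.1 (show I.card = 1 by omega)
      rw [if_pos]
      · refine le_trans ?_ (le_add_of_nonneg_left hA)
        unfold om
        simp only [card_singleton]
        push_cast
        linarith
      · refine ⟨y, rfl, x, hx, ?_, by simpa using hpt⟩
        rintro rfl
        rw [sg_singleton] at hxI
        exact h0 (by simpa using hxI.symm)
  rw [nb_del_ctr he h0]
  push_cast at *
  nlinarith

theorem n2_erase_colp {v : ι → V} {E : Finset ι} {e : ι} (hc : Colp v E e) :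
    n2 v E ≤ n2 v (E.erase e) := by
  refine card_le_card fun x hx => ?_
  rw [mem_filter] at hx ⊢
  obtain ⟨hx, h0, y, hy, hne, hv⟩ := hx
  refine ⟨mem_erase.2 ⟨?_, hx⟩, h0, y, mem_erase.2 ⟨?_, hy⟩, hne, hv⟩
  · rintro rfl; exact not_colp_par hy hne hv hc
  · rintro rfl; exact not_colp_par hx hne.symm hv.symm hc

theorem not_colp_erase_colp {v : ι → V} {E : Finset ι} {e y : ι} (hc : Colp v E e)
    (hy : y ∈ E.erase e) (h : ¬ Colp v E y) : ¬ Colp v (E.erase e) y := by
  rw [not_colp_iff hy]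
  obtain ⟨T, hT, hyT, h0⟩ := (not_colp_iff (mem_of_mem_erase hy)).1 h
  exact ⟨T, subset_erase.2 ⟨hT, hc.not_mem hT h0⟩, hyT, h0⟩

theorem stepA2 {v : ι → V} {E : Finset ι} {r : ℕ} (hr4 : 4 ≤ r) (hr : Rk v E (r + 1))
    (hnc : ∀ x ∈ E, ¬ Colp v E x)
    {e e' : ι} (he : e ∈ E) (he' : e' ∈ E) (hne : e' ≠ e) (hp : v e' = v e)
    (hc : Colp v (E.erase e) e')
    (h1 : Rk v ((E.erase e).erase e') r → (∀ x ∈ (E.erase e).erase e',
      ¬ Colp v ((E.erase e).erase e') x) → Wstd v ((E.erase e).erase e') r) :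
    Wstd v E (r + 1) := by
  have hc' := (colp_swap hp).1 hc
  have hr1 : Rk v (E.erase e) (r + 1) := hr.erase (hnc e he)
  have hr2 : Rk v (E.erase e') (r + 1) := hr.erase (hnc e' he')
  obtain ⟨r1, e1, hr1', hb1⟩ := hr1.erase_colp (mem_erase.2 ⟨hne, he'⟩) hc
  obtain ⟨r2, e2, -, hb2⟩ := hr2.erase_colp (mem_erase.2 ⟨hne.symm, he⟩) hc'
  obtain rfl : r = r1 := by omega
  obtain rfl : r = r2 := by omega
  rw [erase_right_comm] at hb2
  have hnc' : ∀ x ∈ (E.erase e).erase e', ¬ Colp v ((E.erase e).erase e') x := by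
    intro x hx
    refine not_colp_erase_colp hc hx ?_
    rw [colp_erase_par he' hne hp (ne_of_mem_erase hx)]
    exact hnc x (mem_of_mem_erase (mem_of_mem_erase hx))
  have h2 := h1 hr1' hnc'
  have h3 := nb_ge hr1' hnc'
  have hb : nb v E ∅ (r + 1) = 2 * nb v ((E.erase e).erase e') ∅ r := by
    have h4 : nb v E ∅ (r + 1) = nb v (E.erase e) ∅ (r + 1) + nb v (E.erase e') ∅ (r + 1) := by
      unfold nb
      rw [SS_split he, SS_erase (E := E) (J := insert e ∅) (e := e'), SS_insert_of]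
      · intro I hI _ hI' heI
        unfold fb
        rw [if_neg]
        intro hcard
        exact heI (hc'.mem_base hr2 (mem_erase.2 ⟨hne.symm, he⟩) hI hI' hcard)
      · intro I _ hJI hI h'
        exact absurd h' (hI.not_both hne hp (hJI (mem_insert_self e ∅)))
    rw [h4, hb1, hb2]; ring
  have hn2 : (n2 v E : ℚ) ≤ n2 v ((E.erase e).erase e') + 2 := by
    have := n2_erase_par he' hne hp
    have := n2_erase_colp hc
    exact_mod_cast (by omega : n2 v E ≤ n2 v ((E.erase e).erase e') + 2)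
  have hQ : Qw v E ∅ (om 1) ≤ Qw v ((E.erase e).erase e') ∅ (om 1) := by
    unfold Qw
    rw [SS_erase (e := e) fun I hI _ hI' heI => fq_zero_comp hne hp hc _ hI hI' heI,
      SS_erase (e := e') fun I hI _ hI' heI =>
        fq_zero_comp hne.symm hp.symm hc' _ (hI.trans (erase_subset e E)) hI' heI]
    refine SS_le fun I hI _ hi => ?_
    unfold fq
    by_cases hq : 2 ≤ I.card ∧ Pt v E (sg v I)
    · rw [if_pos hq, if_pos]
      obtain ⟨hq1, x, hx, hxI⟩ := hq
      refine ⟨hq1, x, mem_erase.2 ⟨?_, mem_erase.2 ⟨?_, hx⟩⟩, hxI⟩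
      · rintro rfl; exact hc ⟨I, hI, hxI.symm⟩
      · rintro rfl; exact hc ⟨I, hI, by rw [hp, hxI]⟩
    · rw [if_neg hq]
      split_ifs
      · exact om_nonneg (by norm_num) _
      · exact le_rfl
  have hQ0 := Qw_nonneg v E ∅ (om_nonneg (c := 1) (by norm_num))
  have hn0 : (0 : ℚ) ≤ n2 v ((E.erase e).erase e') := by positivity
  have hr4' : (4 : ℚ) ≤ r := by exact_mod_cast hr4
  unfold Wstd WW at *
  rw [Qw_om] at h2 ⊢
  rw [hb]
  push_cast
  nlinarith

end Pool.Agent.Lib.MP_72f2f8_co
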