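import Pool.Agent.Lib.MP_72f2f8_co.Circuits

set_option autoImplicit false
set_option linter.unusedSectionVars false

namespace Pool.Agent.Lib.MP_72f2f8_co
open Finset
open scoped Classical

variable {ι : Type*} [DecidableEq ι] {V : Type*} [AddCommGroup V] [Module (ZMod 2) V]

def Sstd (v : ι → V) (E : Finset ι) (r : ℕ) : Prop :=
  ((r : ℚ) + 1) * ((CC v E).card + 1) ≤ 2 * nb v E ∅ r

def Splus (v : ι → V) (E : Finset ι) (r : ℕ) : Prop := ((CC v E).card : ℚ) + 1 ≤ nb v E ∅ r

theorem cf_le {v : ι → V} {E : Finset ι} {r : ℕ} {f : ι} (hr : Rk v (E.erase f) r) :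
    (((CC v E).filter fun C => f ∈ C).card : ℚ) ≤ nb v (E.erase f) ∅ r := by
  have key : ∀ C ∈ (CC v E).filter fun C => f ∈ C,
      ∃ B, C.erase f ⊆ B ∧ B ⊆ E.erase f ∧ Ind v B ∧ B.card = r := by
    intro C hC
    rw [mem_filter, mem_CC] at hC
    exact hr.extend (erase_subset_erase f hC.1.1) (hC.1.2.2.2 f hC.2)
  choose! g hg using key
  rw [nb_eq_card]
  norm_cast
  refine card_le_card_of_injOn g ?_ ?_
  · intro C hC
    obtain ⟨-, h2, h3⟩ := hg C hC
    exact mem_coe.2 (mem_filter.2 ⟨mem_powerset.2 h2, h3⟩)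
  · intro C hC C' hC' h
    obtain ⟨h1, -, h3, -⟩ := hg C hC
    obtain ⟨h4, -⟩ := hg C' hC'
    rw [mem_coe, mem_filter, mem_CC] at hC hC'
    rw [← h] at h4
    have := h3.sg_inj h1 h4 (by rw [hC.1.2.sg_erase hC.2, hC'.1.2.sg_erase hC'.2])
    rw [← insert_erase hC.2, this, insert_erase hC'.2]

theorem sg_triple {v : ι → V} {a b c : ι} (h1 : a ≠ b) (h2 : a ≠ c) (h3 : b ≠ c) :
    sg v {a, b, c} = v a + (v b + v c) := by
  rw [sg_insert (by simp [h1, h2]), sg_insert (by simp [h3]), sg_singleton]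

theorem TT_mem {v : ι → V} {E C : Finset ι} {c κ : ℚ} {e : ι} (he : e ∈ C) (h : 3 ≤ C.card)
    (h3 : C.card ≠ 3) : TT v E (om c) κ e C = c := by
  unfold TT om
  rw [if_pos he, if_neg h3, Nat.cast_sub (by omega)]
  have : (4 : ℚ) ≤ C.card := by exact_mod_cast (by omega : 4 ≤ C.card)
  have h4 : (C.card : ℚ) - (2 : ℕ) + 1 = C.card - 1 := by push_cast; ring
  have h5 : (C.card : ℚ) - 1 ≠ 0 := by linarith
  rw [h4]
  field_simp

theorem TT_not {v : ι → V} {E C : Finset ι} {c κ : ℚ} {e : ι} (he : ¬ Sp v C (v e))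
    (h : 3 ≤ C.card) : TT v E (om c) κ e C = gd v E C e * c / C.card := by
  unfold TT om
  rw [if_neg (fun h => he (sp_mem h)), if_pos he, Nat.cast_sub (by omega)]
  push_cast
  rw [sub_add_cancel, mul_div_assoc]

theorem stepB {v : ι → V} {E : Finset ι} {r : ℕ} (hr4 : 4 ≤ r) (hr : Rk v E (r + 1))
    (hs : Simp v E) (hnc : ∀ x ∈ E, ¬ Colp v E x) {e f : ι} (hf : f ∈ E) (he : e ∈ E.erase f)
    (hc : Colp v (E.erase f) e) (hW : Wstd (ctr v (v f)) (E.erase f) r)
    (hP : Splus v (E.erase f) (r + 1))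
    (hS : Rk v ((E.erase f).erase e) r → (∀ x ∈ (E.erase f).erase e,
      ¬ Colp v ((E.erase f).erase e) x) → Sstd v ((E.erase f).erase e) r) :
    Sstd v E (r + 1) := by
  have hef : e ≠ f := ne_of_mem_erase he
  have heE : e ∈ E := mem_of_mem_erase he
  have hr4' : (4 : ℚ) ≤ r := by exact_mod_cast hr4
  have hz' : ∀ T ⊆ E, sg v T = 0 → f ∉ T → e ∉ T := fun T hT h0 hfT =>
    hc.not_mem (subset_erase.2 ⟨hT, hfT⟩) h0
  have hz : ∀ T ⊆ E, sg v T = 0 → f ∈ T → e ∈ T := by
    intro T hT h0 hfT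
    by_contra heT
    obtain ⟨T0, h1, h2, h3⟩ := (not_colp_iff heE).1 (hnc e heE)
    have h4 : f ∈ T0 := by
      by_contra h; exact hz' T0 h1 h3 h h2
    refine hz' (symmDiff T0 T) (symmDiff_sub h1 hT) (by rw [sg_symmDiff, h3, h0, add_zero]) ?_ ?_
    · simp [mem_symmDiff, h4, hfT]
    · simp [mem_symmDiff, h2, heT]
  have hnsp : ∀ C ∈ CC v E, f ∉ C → ¬ Sp v C (v f) := by
    rintro C hC hfC ⟨T, hT, hTf⟩
    rw [mem_CC] at hC
    have hfT : f ∉ T := fun h => hfC (hT h)
    have := hz (insert f T) (insert_subset hf (hT.trans hC.1)) (by rw [sg_insert hfT, hTf, a2])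
      (mem_insert_self f T)
    rcases mem_insert.1 this with h | h
    · exact hef h
    · exact hz' C hC.1 hC.2.2.1 hfC (hT h)
  have hr1 : Rk v (E.erase f) (r + 1) := hr.erase (hnc f hf)
  have hb := nb_del_ctr hf (hs.1 f hf) r
  have hT := ctr_bound hs hf (om_nonneg (by positivity)) (by positivity) hW
  have hcf := cf_le hr1
  have hcc : (((CC v E).filter fun C => f ∈ C).card : ℚ) + (CC v (E.erase f)).card
      = (CC v E).card := by
    rw [CC_erase]; exact_mod_cast card_filter_add_card_filter_not _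
  have h3 : ∀ C ∈ CC v E, 3 ≤ C.card := fun C hC => (mem_CC.1 hC).2.three_le hs (mem_CC.1 hC).1
  unfold Sstd Splus at *
  have tri : ∀ x ∈ E, ∀ y ∈ E, v y = v f + v x → x ≠ f ∧ y ≠ f ∧ x ≠ y ∧ (e = x ∨ e = y) := by
    intro x hx y hy hxy
    have a : x ≠ f := by
      rintro rfl; rw [a2] at hxy; exact hs.1 y hy hxy
    have b : y ≠ f := by
      rintro rfl; exact hs.1 x hx (by simpa using hxy)
    have c : x ≠ y := by
      rintro rfl; exact hs.1 f hf (by simpa using hxy)
    refine ⟨a, b, c, ?_⟩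
    have := hz {f, x, y} (by simp [insert_subset_iff, hf, hx, hy])
      (by rw [sg_triple a.symm b.symm c, hxy, ← add_assoc, a2]) (by simp)
    simpa [hef] using this
  have tri3 : ∀ C ∈ CC v E, f ∈ C → C.card = 3 →
      ∃ y ∈ E, v y = v f + v e ∧ C = {f, e, y} := by
    intro C hC hfC hC3
    rw [mem_CC] at hC
    have heC := hz C hC.1 hC.2.2.1 hfC
    have he' : f ∈ C.erase e := mem_erase.2 ⟨hef.symm, hfC⟩
    obtain ⟨y, hy⟩ := card_eq_one.1 (show ((C.erase e).erase f).card = 1 by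
      rw [card_erase_of_mem he', card_erase_of_mem heC, hC3])
    have hy' : y ∈ (C.erase e).erase f := by rw [hy]; simp
    refine ⟨y, hC.1 (mem_of_mem_erase (mem_of_mem_erase hy')), ?_, ?_⟩
    · rw [← sg_singleton v y, ← hy, sg_erase he', hC.2.sg_erase heC]
    · rw [← hy, insert_comm, insert_erase he', insert_erase heC]
  by_cases hA : ∀ x ∈ E, ¬ Pt v E (v f + v x)
  · have h4 : ∑ C ∈ CC v E, TT v E (om ((r + 1) / 2)) (r / 4) f C =
        (CC v E).card * ((r + 1) / 2) := by
      rw [sum_congr rfl (g := fun _ => ((r : ℚ) + 1) / 2), sum_const, nsmul_eq_mul]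
      intro C hC
      by_cases hfC : f ∈ C
      · refine TT_mem hfC (h3 C hC) fun hC3 => ?_
        obtain ⟨y, hy, hy', -⟩ := tri3 C hC hfC hC3
        exact hA e heE ⟨y, hy, hy'⟩
      · have : gd v E C f = C.card := by
          unfold gd
          rw [filter_true_of_mem fun x hx => hA x ((mem_CC.1 hC).1 hx)]
        have h5 : (C.card : ℚ) ≠ 0 := by have := h3 C hC; positivity
        rw [TT_not (hnsp C hC hfC) (h3 C hC), this]
        field_simp
    rw [h4] at hT
    rw [hb]
    push_cast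
    nlinarith
  push Not at hA
  obtain ⟨g, hg, hgv⟩ : ∃ g ∈ E, v g = v f + v e := by
    obtain ⟨x, hx, y, hy, hxy⟩ := hA
    rcases (tri x hx y hy hxy).2.2.2 with h | h
    · exact ⟨y, hy, by rw [h, hxy]⟩
    · exact ⟨x, hx, by rw [h, hxy, ← add_assoc, a2, zero_add]⟩
  obtain ⟨-, hgf, heg, -⟩ := tri e heE g hg hgv
  have hT0 : sg v {f, e, g} = 0 := by rw [sg_triple hef.symm hgf.symm heg, hgv, ← add_assoc, a2]
  set cg := ((CC v E).filter fun C => f ∉ C ∧ g ∈ C).card with hcg
  have h4 : (CC v E).card * ((r + 1) / 2) - 1 / 2 - cg * ((r + 1) / 6) ≤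
      ∑ C ∈ CC v E, TT v E (om ((r + 1) / 2)) (r / 4) f C := by
    have h5 : ∑ C ∈ CC v E, (if C = {f, e, g} then (1 / 2 : ℚ) else 0) ≤ 1 / 2 := by
      rw [sum_ite_eq']; split_ifs <;> norm_num
    have h6 : ∑ C ∈ CC v E, (if f ∉ C ∧ g ∈ C then ((r + 1) / 6 : ℚ) else 0) =
        cg * ((r + 1) / 6) := by
      rw [← sum_filter, sum_const, nsmul_eq_mul]
    have h7 : ∑ C ∈ CC v E, (((r : ℚ) + 1) / 2 - (if C = {f, e, g} then (1 / 2 : ℚ) else 0) -
        (if f ∉ C ∧ g ∈ C then ((r + 1) / 6 : ℚ) else 0)) ≤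
        ∑ C ∈ CC v E, TT v E (om ((r + 1) / 2)) (r / 4) f C := by
      refine sum_le_sum fun C hC => ?_
      have h8 : (0 : ℚ) ≤ if C = {f, e, g} then (1 / 2 : ℚ) else 0 := by split_ifs <;> norm_num
      by_cases hfC : f ∈ C
      · rw [if_neg (show ¬ (f ∉ C ∧ g ∈ C) from fun h => h.1 hfC)]
        by_cases hC3 : C.card = 3
        · obtain ⟨y, hy, hy', hC'⟩ := tri3 C hC hfC hC3
          rw [hs.2 y hy g hg (by rw [hy', hgv])] at hC'
          rw [if_pos hC', TT, if_pos hfC, if_pos hC3]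
          linarith
        · rw [TT_mem hfC (h3 C hC) hC3]; linarith
      · have h9 : dg v E C f ≤ if g ∈ C then 1 else 0 := by
          have : (C.filter fun x => Pt v E (v f + v x)) ⊆ C.filter fun x => x = g := by
            intro x hx
            rw [mem_filter] at hx ⊢
            obtain ⟨hx, y, hy, hxy⟩ := hx
            have hxE := (mem_CC.1 hC).1 hx
            refine ⟨hx, ?_⟩
            rcases (tri x hxE y hy hxy).2.2.2 with h | h
            · exact absurd (h ▸ hx) (hz' C (mem_CC.1 hC).1 (mem_CC.1 hC).2.2.1 hfC)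
            · exact hs.2 x hxE g hg (by rw [hgv, h, hxy, ← add_assoc, a2, zero_add])
          refine (card_le_card this).trans ?_
          rw [filter_eq']
          split_ifs <;> simp
        have h10 : (dg v E C f : ℚ) + gd v E C f = C.card := by exact_mod_cast dg_add_gd v E C f
        have h11 : (3 : ℚ) ≤ C.card := by exact_mod_cast h3 C hC
        rw [TT_not (hnsp C hC hfC) (h3 C hC), le_div_iff₀ (by linarith)]
        by_cases hgC : g ∈ C
        · rw [if_pos hgC] at h9
          have : (dg v E C f : ℚ) ≤ 1 := by exact_mod_cast h9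
          rw [if_pos (show f ∉ C ∧ g ∈ C from ⟨hfC, hgC⟩)]
          generalize (if C = {f, e, g} then (1 / 2 : ℚ) else 0) = t at h8 ⊢
          nlinarith [mul_nonneg h8 (show (0 : ℚ) ≤ C.card by positivity)]
        · rw [if_neg hgC] at h9
          have : (dg v E C f : ℚ) ≤ 0 := by exact_mod_cast h9
          rw [if_neg (show ¬ (f ∉ C ∧ g ∈ C) from fun h => hgC h.2)]
          generalize (if C = {f, e, g} then (1 / 2 : ℚ) else 0) = t at h8 ⊢
          nlinarith [mul_nonneg h8 (show (0 : ℚ) ≤ C.card by positivity)]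
    rw [sum_sub_distrib, sum_sub_distrib, sum_const, nsmul_eq_mul, h6] at h7
    linarith
  have hcf2 : (((CC v E).filter fun C => f ∈ C).card : ℚ) ≤ cg + 1 := by
    have h5 : (((CC v E).filter fun C => f ∈ C).erase {f, e, g}).card ≤ cg := by
      have key : ∀ C ∈ ((CC v E).filter fun C => f ∈ C).erase {f, e, g},
          C ⊆ E ∧ Circ v C ∧ f ∈ C ∧ e ∈ C.erase f ∧ g ∉ C := by
        intro C hC
        rw [mem_erase, mem_filter, mem_CC] at hC
        obtain ⟨a, ⟨b, c⟩, d⟩ := hC
        have heC := hz C b c.2.1 d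
        refine ⟨b, c, d, mem_erase.2 ⟨hef, heC⟩, fun hgC => a ?_⟩
        exact (c.eq_of_sub (by simp [insert_subset_iff, d, heC, hgC]) hT0 (by simp)).symm
      refine card_le_card_of_injOn (fun C => insert g ((C.erase f).erase e)) ?_ ?_
      · intro C hC
        obtain ⟨a, b, c, d, k⟩ := key C hC
        have hsub : (C.erase f).erase e ⊆ C := (erase_subset _ _).trans (erase_subset _ _)
        refine mem_coe.2 (mem_filter.2 ⟨mem_CC.2 ⟨insert_subset hg (hsub.trans a), ?_⟩, ?_,
          mem_insert_self _ _⟩)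
        · refine circ_insert (fun h => k (hsub h)) ((b.2.2 f c).mono (erase_subset _ _)) ?_
          rw [sg_erase d, b.sg_erase c, hgv, add_comm]
        · simp [hgf.symm]
      · intro C hC C' hC' h
        obtain ⟨-, -, c, d, k⟩ := key C hC
        obtain ⟨-, -, c', d', k'⟩ := key C' hC'
        have h6 : (C.erase f).erase e = (C'.erase f).erase e := by
          have := congrArg (fun X => X.erase g) h
          simp only at this
          rwa [erase_insert (fun h => k (mem_of_mem_erase (mem_of_mem_erase h))),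
            erase_insert (fun h => k' (mem_of_mem_erase (mem_of_mem_erase h)))] at this
        rw [← insert_erase c, ← insert_erase d, h6, insert_erase d', insert_erase c']
    have h6 := pred_card_le_card_erase (s := (CC v E).filter fun C => f ∈ C) (a := {f, e, g})
    exact_mod_cast (by omega : ((CC v E).filter fun C => f ∈ C).card ≤ cg + 1)
  have hcgle : (cg : ℚ) ≤ (CC v (E.erase f)).card := by
    rw [CC_erase]
    have : ((CC v E).filter fun C => f ∉ C ∧ g ∈ C) ⊆ (CC v E).filter fun C => f ∉ C := by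
      intro C hC
      rw [mem_filter] at hC ⊢
      exact ⟨hC.1, hC.2.1⟩
    exact_mod_cast card_le_card this
  by_cases hcg0 : cg = 0
  · rw [hcg0] at hcf2 h4
    by_cases hc0 : (CC v (E.erase f)).card = 0
    · have := nb_ge hr hnc
      rw [hc0] at hcc
      push_cast at *
      nlinarith
    · have : (1 : ℚ) ≤ (CC v (E.erase f)).card := by exact_mod_cast Nat.pos_of_ne_zero hc0
      rw [hb]
      push_cast at *
      nlinarith
  · obtain ⟨C0, hC0⟩ := card_pos.1 (Nat.pos_of_ne_zero hcg0)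
    rw [mem_filter, mem_CC] at hC0
    obtain ⟨r1, e1, hr1', hb1⟩ := hr1.erase_colp he hc
    obtain rfl : r = r1 := by omega
    have hsub : ∀ T ⊆ E, sg v T = 0 → f ∉ T → T ⊆ (E.erase f).erase e := fun T a b c =>
      subset_erase.2 ⟨subset_erase.2 ⟨a, c⟩, hz' T a b c⟩
    have h5 := hS hr1' (by
      intro y hy
      rw [not_colp_iff hy]
      have hyE : y ∈ E := mem_of_mem_erase (mem_of_mem_erase hy)
      by_cases hyg : y = g
      · exact ⟨C0, hsub C0 hC0.1.1 hC0.1.2.2.1 hC0.2.1, hyg ▸ hC0.2.2, hC0.1.2.2.1⟩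
      obtain ⟨T, a, b, c⟩ := (not_colp_iff hyE).1 (hnc y hyE)
      by_cases hfT : f ∈ T
      · have h6 : sg v (symmDiff T {f, e, g}) = 0 := by rw [sg_symmDiff, c, hT0, add_zero]
        refine ⟨symmDiff T {f, e, g}, hsub _ (symmDiff_sub a
          (by simp [insert_subset_iff, hf, heE, hg])) h6 (by simp [mem_symmDiff, hfT]), ?_, h6⟩
        simp [mem_symmDiff, b, hyg, ne_of_mem_erase hy, ne_of_mem_erase (mem_of_mem_erase hy)]
      · exact ⟨T, hsub T a c hfT, b, c⟩)
    have h6 : CC v ((E.erase f).erase e) = CC v (E.erase f) := by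
      rw [CC_erase v (E.erase f), filter_true_of_mem]
      intro C hC
      exact hc.not_mem (mem_CC.1 hC).1 (mem_CC.1 hC).2.2.1
    rw [h6, ← hb1] at h5
    rw [hb]
    have : (0 : ℚ) ≤ cg := by positivity
    push_cast at *
    nlinarith

end Pool.Agent.Lib.MP_72f2f8_co
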