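import Pool.Agent.Lib.MP_72f2f8_co.Double

set_option autoImplicit false
set_option linter.unusedSectionVars false

namespace Pool.Agent.Lib.MP_72f2f8_co
open Finset
open scoped Classical

variable {ι : Type*} [DecidableEq ι] {V : Type*} [AddCommGroup V] [Module (ZMod 2) V]

def cost (R : ℕ) (ω : ℕ → ℚ) (κ : ℚ) (k : ℕ) : ℚ :=
  if k = 3 then 3 * ((R + 1) - 4 * κ) else k * ((R + 1) - 2 * (k - 1) * ω (k - 2))

noncomputable def Lam (v : ι → V) (E : Finset ι) (R : ℕ) (ω : ℕ → ℚ) (κ : ℚ) (α : ℕ → ℚ) (β : ℚ)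
    (C : Finset ι) : ℚ :=
  (2 * ω (C.card - 1) * gO v E C - cost R ω κ C.card) +
    (α (C.card + 1) / (C.card * (C.card + 1)) * DO v E C - α C.card) +
    β * (2 / (R + 1) * ((if C.card = R + 1 then (R : ℚ) + 1 else 0) +
      (if C.card = R then gO v E C / (OO v E C).card else 0)) - 1)

theorem sum_TT {v : ι → V} {E C : Finset ι} (hC : C ⊆ E) (R : ℕ) (ω : ℕ → ℚ) (κ : ℚ) :
    ∑ e ∈ E, (2 * TT v E ω κ e C - (R + 1) * if e ∈ C then 1 else 0) =
      2 * ω (C.card - 1) * gO v E C - cost R ω κ C.card := by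
  set a : ℚ := if C.card = 3 then 2 * κ else ((C.card : ℚ) - 1) * ω (C.card - 2) with ha
  have h1 : ∀ e ∈ E, (2 * TT v E ω κ e C - (R + 1) * if e ∈ C then 1 else 0) =
      (if e ∈ C then 2 * a - (R + 1) else 0) +
      (if ¬ Sp v C (v e) then 2 * ω (C.card - 1) * gd v E C e else 0) := by
    intro e _
    unfold TT
    by_cases he : e ∈ C
    · rw [if_pos he, if_pos he, if_pos he, if_neg (not_not.2 (sp_mem he))]; ring
    · rw [if_neg he, if_neg he, if_neg he]; split_ifs <;> ring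
  rw [sum_congr rfl h1, sum_add_distrib, ← sum_filter, ← sum_filter, filter_mem_eq_inter,
    inter_eq_right.2 hC, sum_const, nsmul_eq_mul, gO, mul_sum]
  have : (C.card : ℚ) * (2 * a - (R + 1)) = - cost R ω κ C.card := by
    unfold cost
    rw [ha]
    split_ifs with h
    · rw [h]; push_cast; ring
    · ring
  rw [this, OO]
  ring

theorem stepD_gen {v : ι → V} {E : Finset ι} {r : ℕ} (hr2 : 2 ≤ r) (hs : Simp v E)
    {ω α : ℕ → ℚ} {θ κ β : ℚ} (hS : ∀ e ∈ E, Sstd v (E.erase e) (r + 1))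
    (hW : ∀ e ∈ E, WW (ctr v (v e)) (E.erase e) r ω θ κ) (hω : ∀ j, 0 ≤ ω j) (hκ : 0 ≤ κ)
    (hα : ∀ k, 0 ≤ α k) (hβ : 0 < β) (hθ : β ≤ 2 * E.card * θ)
    (hΛ : ∀ C ∈ CC v E, 0 ≤ Lam v E (r + 1) ω κ α β C) : Sstd v E (r + 1) := by
  by_contra hn
  unfold Sstd at hn hS
  push Not at hn
  have h1 : ∀ e ∈ E, ∑ C ∈ CC v E,
      (2 * TT v E ω κ e C - (((r + 1 : ℕ) : ℚ) + 1) * if e ∈ C then 1 else 0) ≤ - (2 * θ) := by
    intro e he
    have a1 := hS e he
    have a2 := ctr_bound hs he hω hκ (hW e he)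
    have a3 := nb_del_ctr he (hs.1 e he) r
    have a4 : (((CC v E).filter fun C => e ∈ C).card : ℚ) + (CC v (E.erase e)).card
        = (CC v E).card := by
      rw [CC_erase]; exact_mod_cast card_filter_add_card_filter_not _
    rw [sum_sub_distrib, ← mul_sum, ← mul_sum, sum_boole]
    rw [← a4] at hn
    linarith
  have h2 := sum_le_sum h1
  rw [sum_comm, sum_congr rfl fun C hC => sum_TT (mem_CC.1 hC).1 (r + 1) ω κ, sum_const,
    nsmul_eq_mul] at h2
  have h3 := count3 hs hα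
  have h4 := count2 (R := r + 1) hs (by omega)
  have h5 := sum_nonneg hΛ
  unfold Lam at h5
  rw [sum_add_distrib, sum_add_distrib, sum_sub_distrib (f := fun C : Finset ι =>
    α (C.card + 1) / (C.card * (C.card + 1)) * DO v E C), ← mul_sum,
    sum_sub_distrib (g := fun _ => (1 : ℚ)), ← mul_sum, sum_const, nsmul_eq_mul] at h5
  set X := ∑ C ∈ CC v E, ((if C.card = r + 1 + 1 then ((r + 1 : ℕ) : ℚ) + 1 else 0) +
      (if C.card = r + 1 then gO v E C / (OO v E C).card else 0)) with hX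
  have h6 : 2 / (((r + 1 : ℕ) : ℚ) + 1) * X < (CC v E).card + 1 := by
    rw [div_mul_eq_mul_div, div_lt_iff₀ (by positivity)]
    linarith
  have h7 := mul_lt_mul_of_pos_left h6 hβ
  linarith

theorem gO_add_DO (v : ι → V) (E C A : Finset ι) :
    ∑ e ∈ A, (gd v E C e : ℚ) = C.card * A.card - ∑ e ∈ A, (dg v E C e : ℚ) := by
  rw [eq_sub_iff_add_eq, ← sum_add_distrib, sum_congr rfl (g := fun _ => (C.card : ℚ)),
    sum_const, nsmul_eq_mul, mul_comm]
  intro e _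
  rw [add_comm]; exact_mod_cast dg_add_gd v E C e

/-- reduction of the weight bounds to an arithmetic statement -/
theorem psi_of {v : ι → V} {E C : Finset ι} (hs : Simp v E) (hC : Circ v C) {a b p1 p2 p3 : ℚ}
    (h : ∀ (s : ℕ) (D h : ℚ), HB s h → 0 ≤ D → D ≤ C.card * s → (C.card - 1) * D ≤ C.card * h →
      (1 ≤ s → p1 ≤ a * (C.card * s - D) + b * D) ∧ (2 ≤ s → p2 ≤ a * (C.card * s - D) + b * D) ∧
      (3 ≤ s → p3 ≤ a * (C.card * s - D) + b * D)) :
    Psi v E C (fun e => a * gd v E C e + b * dg v E C e) p1 p2 p3 := by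
  intro A hA hcl
  obtain ⟨h', h1, h2⟩ := circ_moves hs hC hA hcl
  have h3 := gO_add_DO v E C A
  have h4 : 0 ≤ ∑ e ∈ A, (gd v E C e : ℚ) := sum_nonneg fun _ _ => by positivity
  rw [sum_add_distrib, ← mul_sum, ← mul_sum, h3]
  exact h _ _ h' h1 (sum_nonneg fun _ _ => by positivity) (by linarith) h2

theorem lam_low {v : ι → V} {E C : Finset ι} {R : ℕ} (hs : Simp v E) (hr : Rk v E R)
    (hcs : CS v E) (hC : C ∈ CC v E) {a b p1 p2 p3 m : ℚ} (ha : 0 ≤ a) (hb : 0 ≤ b)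
    (h : ∀ (s : ℕ) (D h : ℚ), HB s h → 0 ≤ D → D ≤ C.card * s → (C.card - 1) * D ≤ C.card * h →
      (1 ≤ s → p1 ≤ a * (C.card * s - D) + b * D) ∧ (2 ≤ s → p2 ≤ a * (C.card * s - D) + b * D) ∧
      (3 ≤ s → p3 ≤ a * (C.card * s - D) + b * D))
    (h1 : m ≤ 2 * p3) (h2 : m ≤ p1 + 2 * p2) (z : ℕ) (hc : C.card + z + 1 = R) :
    m + z * p1 ≤ a * gO v E C + b * DO v E C := by
  have := local_circ hr hcs hC (fun e => by positivity) (psi_of hs (mem_CC.1 hC).2 h) h1 h2 z hc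
  rwa [sum_add_distrib, ← mul_sum, ← mul_sum] at this

theorem lam_top {v : ι → V} {E C : Finset ι} {R : ℕ} (hs : Simp v E) (hr : Rk v E R)
    (hcs : CS v E) (hC : C ∈ CC v E) (hc : C.card = R) :
    ∃ h : ℚ, HB (OO v E C).card h ∧ 3 ≤ (OO v E C).card ∧ 0 ≤ gO v E C ∧
      DO v E C = R * (OO v E C).card - gO v E C ∧ (R - 1) * DO v E C ≤ R * h := by
  obtain ⟨h', h1, h2⟩ := circ_moves hs (mem_CC.1 hC).2 (filter_subset _ _) (OO_closed v E C)
  have h3 := gO_add_DO v E C (OO v E C)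
  rw [hc] at h2 h3
  refine ⟨h', h1, OO_three hr hcs hC hc.le, sum_nonneg fun _ _ => by positivity, ?_, h2⟩
  unfold gO DO
  linarith

end Pool.Agent.Lib.MP_72f2f8_co
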