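import Pool.Agent.Lib.MP_72f2f8_co.Num

set_option autoImplicit false
set_option linter.unusedSectionVars false

namespace Pool.Agent.Lib.MP_72f2f8_co
open Finset
open scoped Classical

variable {ι : Type*} [DecidableEq ι] {V : Type*} [AddCommGroup V] [Module (ZMod 2) V]

theorem cost_std (R : ℕ) (κ : ℚ) {k : ℕ} (hk : 4 ≤ k) : cost R (om (R / 2)) κ k = k := by
  unfold cost om
  rw [if_neg (by omega), Nat.cast_sub (by omega)]
  have : (4 : ℚ) ≤ k := by exact_mod_cast hk
  have h4 : (k : ℚ) - (2 : ℕ) + 1 = k - 1 := by push_cast; ring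
  have h5 : (k : ℚ) - 1 ≠ 0 := by linarith
  rw [h4]
  field_simp
  ring

theorem om_pred (c : ℚ) {k : ℕ} (hk : 1 ≤ k) : om c (k - 1) = c / k := by
  unfold om
  rw [Nat.cast_sub hk]
  simp

theorem lam_std {v : ι → V} {E C : Finset ι} {R : ℕ} (hR : 6 ≤ R) (hs : Simp v E)
    (hr : Rk v E R) (hcs : CS v E) (hC : C ∈ CC v E) :
    0 ≤ Lam v E R (om (R / 2)) ((R - 1) / 4) (fun k => if 4 ≤ k then R else 0) (2 * R + 1) C := by
  have h3 := (mem_CC.1 hC).2.three_le hs (mem_CC.1 hC).1
  have h4 := (mem_CC.1 hC).2.card_le hr (mem_CC.1 hC).1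
  have hR' : (6 : ℚ) ≤ R := by exact_mod_cast hR
  unfold Lam
  rw [om_pred _ (by omega)]
  dsimp only
  rw [if_pos (show 4 ≤ C.card + 1 by omega)]
  rcases h4.eq_or_lt with h5 | h5
  · rw [cost_std _ _ (by omega), if_pos (by omega), if_pos h5, if_neg (by omega), gO, DO,
      OO_empty hr hC h5, h5]
    simp only [sum_empty]
    push_cast
    apply le_of_eq
    field_simp
    ring
  rw [if_neg h5.ne]
  rcases (Nat.lt_succ_iff.1 h5).eq_or_lt with h6 | h6
  · obtain ⟨h, a1, a2, a3, a4, a5⟩ := lam_top hs hr hcs hC h6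
    rw [a4] at a5
    have a6 := num_top_std hR' a2 a1 a3 a5
    rw [cost_std _ _ (by omega), if_pos (by omega), if_pos h6, a4, h6]
    have a7 : (3 : ℚ) ≤ (OO v E C).card := by exact_mod_cast a2
    generalize ((OO v E C).card : ℚ) = s at *
    generalize gO v E C = y at *
    have e : 2 * ((R : ℚ) / 2 / R) * y - R + (R / (R * (R + 1)) * (R * s - y) - R) +
        (2 * R + 1) * (2 / (R + 1) * (0 + y / s) - 1) =
        (y * (R * s + 4 * R + 2) + R * s ^ 2 - (4 * R + 1) * (R + 1) * s) / ((R + 1) * s) := by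
      field_simp
      ring
    rw [e]
    exact div_nonneg (by linarith) (by positivity)
  rw [if_neg h6.ne]
  obtain ⟨z, hz⟩ : ∃ z, C.card + z + 1 = R := ⟨R - C.card - 1, by omega⟩
  have hz' : (C.card : ℚ) + z + 1 = R := by exact_mod_cast hz
  have hz0 : (0 : ℚ) ≤ z := by positivity
  have h3' : (3 : ℚ) ≤ C.card := by exact_mod_cast h3
  have e : 2 * ((R : ℚ) / 2 / C.card) * gO v E C = R * (1 / C.card * gO v E C) := by ring
  have e' : (R : ℚ) / (C.card * (C.card + 1)) * DO v E C =
      R * (1 / (C.card * (C.card + 1)) * DO v E C) := by ring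
  rw [e, e']
  have ha : (0 : ℚ) ≤ 1 / C.card := by positivity
  have hb : (0 : ℚ) ≤ 1 / (C.card * (C.card + 1)) := by positivity
  by_cases h7 : 5 ≤ C.card
  · have := lam_low (m := 4) hs hr hcs hC ha hb (num_std5 (by exact_mod_cast h7))
      (by norm_num) (by norm_num) z hz
    rw [cost_std _ _ (by omega), if_pos (by omega)]
    nlinarith
  by_cases h8 : C.card = 4
  · have := lam_low (m := 3) (p1 := 1) (p2 := 7 / 5) (p3 := 3 / 2) hs hr hcs hC ha hb
      (by
        rw [h8]
        refine num_lin 8 (by norm_num) (by norm_num) (by norm_num) (by norm_num) (by norm_num)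
          (by norm_num) (by norm_num) fun s hs => ?_
        interval_cases s <;> norm_num [Ht])
      (by norm_num) (by norm_num) z hz
    rw [cost_std _ _ (by omega), if_pos (by omega)]
    have h9 : (1 : ℚ) ≤ z := by exact_mod_cast (by omega : 1 ≤ z)
    have h10 : (C.card : ℚ) = 4 := by exact_mod_cast h8
    nlinarith
  · have h8 : C.card = 3 := by omega
    have := lam_low (m := 2) (p1 := 1) (p2 := 1) (p3 := 1) hs hr hcs hC ha hb
      (by
        rw [h8]
        refine num_lin 4 (by norm_num) (by norm_num) (by norm_num) (by norm_num) (by norm_num)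
          (by norm_num) (by norm_num) fun s hs => ?_
        interval_cases s <;> norm_num [Ht])
      (by norm_num) (by norm_num) z hz
    rw [cost, if_pos h8, if_neg (by omega)]
    have h9 : (2 : ℚ) ≤ z := by exact_mod_cast (by omega : 2 ≤ z)
    nlinarith

def al5 (k : ℕ) : ℚ := if k = 4 then 6 else if k = 5 then 5 else if k = 3 then 0 else 8

theorem lam_5 {v : ι → V} {E C : Finset ι} (hs : Simp v E)
    (hr : Rk v E 5) (hcs : CS v E) (hC : C ∈ CC v E) :
    0 ≤ Lam v E 5 om2 (4 / 5) al5 8 C := by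
  have h3 := (mem_CC.1 hC).2.three_le hs (mem_CC.1 hC).1
  have h4 := (mem_CC.1 hC).2.card_le hr (mem_CC.1 hC).1
  unfold Lam
  obtain h | h | h | h : C.card = 3 ∨ C.card = 4 ∨ C.card = 5 ∨ C.card = 6 := by omega
  · have := lam_low (a := 19 / 10) (b := 1 / 2) (m := 12) (p1 := 57 / 10) (p2 := 6) (p3 := 6)
      hs hr hcs hC (by norm_num) (by norm_num)
      (by
        rw [h]
        refine num_lin 4 (by norm_num) (by norm_num) (by norm_num) (by norm_num) (by norm_num)
          (by norm_num) (by norm_num) fun s hs => ?_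
        interval_cases s <;> norm_num [Ht])
      (by norm_num) (by norm_num) 1 (by omega)
    rw [h]
    norm_num [cost, om2, al5] at this ⊢
    linarith
  · have := lam_low (a := 11 / 10) (b := 1 / 4) (m := 16) (p1 := 22 / 5) (p2 := 13 / 2) (p3 := 8)
      hs hr hcs hC (by norm_num) (by norm_num)
      (by
        rw [h]
        refine num_lin 8 (by norm_num) (by norm_num) (by norm_num) (by norm_num) (by norm_num)
          (by norm_num) (by norm_num) fun s hs => ?_
        interval_cases s <;> norm_num [Ht])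
      (by norm_num) (by norm_num) 0 (by omega)
    rw [h]
    norm_num [cost, om2, al5] at this ⊢
    linarith
  · obtain ⟨h', a1, a2, a3, a4, a5⟩ := lam_top hs hr hcs hC h
    rw [a4] at a5
    have a6 := num_top_5 a2 a1 a3 (by exact_mod_cast a5)
    rw [h, a4]
    norm_num [cost, om2, al5] at a6 ⊢
    linarith
  · rw [gO, DO, OO_empty hr hC h, h]
    norm_num [cost, om2, al5]

theorem stepD {v : ι → V} {E : Finset ι} {r : ℕ} (hr4 : 4 ≤ r) (hr : Rk v E (r + 1))
    (hs : Simp v E) (hcs : CS v E) (hnc : ∀ x ∈ E, ¬ Colp v E x)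
    (hS : ∀ e ∈ E, Sstd v (E.erase e) (r + 1))
    (hW : ∀ e ∈ E, Wstd (ctr v (v e)) (E.erase e) r) : Sstd v E (r + 1) := by
  have hn : (r : ℚ) + 1 ≤ E.card := by
    obtain ⟨B, h1, -, h2, -⟩ := hr
    exact_mod_cast h2 ▸ card_le_card h1
  rcases hr4.eq_or_lt with rfl | h5
  · refine stepD_gen (by norm_num) hs hS (ω := om2) (θ := 2) (κ := 4 / 5) (α := al5) (β := 8)
      (fun e he => (rank4 (hr.ctr he (hs.1 e he)) fun x hx =>
        not_colp_ctr (hnc x (mem_of_mem_erase hx))).2)
      (fun j => by unfold om2; split_ifs <;> norm_num) (by norm_num)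
      (fun j => by unfold al5; split_ifs <;> norm_num) (by norm_num)
      (by push_cast at hn; linarith) fun C hC => lam_5 hs hr hcs hC
  · have h5' : (5 : ℚ) ≤ r := by exact_mod_cast h5
    refine stepD_gen (by omega) hs hS hW (α := fun k => if 4 ≤ k then ((r + 1 : ℕ) : ℚ) else 0)
      (β := 2 * ((r + 1 : ℕ) : ℚ) + 1) (om_nonneg (by positivity)) (by positivity)
      (fun j => by split_ifs <;> positivity) (by positivity) (by push_cast; nlinarith)
      fun C hC => ?_
    have := lam_std (R := r + 1) (by omega) hs hr hcs hC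
    convert this using 3 <;> push_cast <;> ring

end Pool.Agent.Lib.MP_72f2f8_co
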